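import Pool.Agent.MP_fc7299_nt.AP.Defs2

section
namespace Pool.Agent.MP_fc7299_nt.AP

open Finset Filter

namespace SCy

theorem cls {d s : ℕ} (hs : s ≤ d) (r : ℕ) (c : ℝ) :
    |∑ t ∈ range s, (if t ≡ r [MOD d] then c else 0)| ≤ |c| := by
  by_cases h : ∃ t ∈ range s, t ≡ r [MOD d]
  · obtain ⟨t, h1, h2⟩ := h
    rw [sum_eq_single_of_mem t h1 fun u hu e => if_neg fun h3 => e
      ((h3.trans h2.symm).eq_of_lt_of_lt ((mem_range.1 hu).trans_le hs)
        ((mem_range.1 h1).trans_le hs)), if_pos h2]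
  · rw [sum_eq_zero fun t ht => if_neg fun h2 => h ⟨t, ht, h2⟩, abs_zero]
    exact abs_nonneg c

theorem per (d r : ℕ) (c : ℝ) :
    Function.Periodic (fun t => if t ≡ r [MOD d] then c else 0) d := fun t =>
  if_congr (by rw [Nat.ModEq, Nat.ModEq, Nat.add_mod_right]) rfl rfl

theorem meet {P d e : ℕ} (hd : d ∣ P) (he : e ∣ P) (r s : ℕ) (a b : ℝ) :
    Sc P (fun t => (if t ≡ r [MOD d] then a else 0) * if t ≡ s [MOD e] then b else 0)
      (|a| * |b|) := by
  by_cases h : ∃ t, t ≡ r [MOD d] ∧ t ≡ s [MOD e]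
  · obtain ⟨u, h1, h2⟩ := h
    have e1 : (fun t => (if t ≡ r [MOD d] then a else 0) * if t ≡ s [MOD e] then b else 0) =
        fun t => if t ≡ u [MOD Nat.lcm d e] then a * b else 0 := funext fun t => by
      by_cases k : t ≡ u [MOD Nat.lcm d e]
      · rw [if_pos k, if_pos ((k.of_dvd (Nat.dvd_lcm_left d e)).trans h1),
          if_pos ((k.of_dvd (Nat.dvd_lcm_right d e)).trans h2)]
      · rw [if_neg k]
        by_cases k1 : t ≡ r [MOD d]
        · rw [if_neg fun k2 : t ≡ s [MOD e] =>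
            k (Nat.mod_lcm (k1.trans h1.symm) (k2.trans h2.symm)), mul_zero]
        · rw [if_neg k1, zero_mul]
    rw [e1, ← abs_mul]
    exact Sc.base _ u _ (Nat.lcm_dvd hd he)
  · have e1 : (fun t => (if t ≡ r [MOD d] then a else 0) * if t ≡ s [MOD e] then b else 0) =
        fun _ => (0 : ℝ) := funext fun t => by
      by_cases k1 : t ≡ r [MOD d]
      · rw [if_neg fun k2 : t ≡ s [MOD e] => h ⟨t, k1, k2⟩, mul_zero]
      · rw [if_neg k1, zero_mul]
    rw [e1]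
    exact (Sc.const P 0).mono (by rw [abs_zero]; positivity)

theorem base_mul {P d : ℕ} (hd : d ∣ P) (r : ℕ) (a : ℝ) {ψ : ℕ → ℝ} {c : ℝ} (h : Sc P ψ c) :
    Sc P (fun t => (if t ≡ r [MOD d] then a else 0) * ψ t) (|a| * c) := by
  induction h with
  | base e s b he => exact meet hd he r s a b
  | add _ _ i1 i2 =>
    simp only [mul_add]
    exact i1.add i2
  | mono _ k i1 => exact i1.mono (mul_le_mul_of_nonneg_left k (abs_nonneg a))

end SCy

theorem sc0 : SC0 := by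
  intro P φ b hP h
  induction h with
  | base φ d c h1 h2 h3 =>
    have hd : 0 < d := Nat.pos_of_dvd_of_pos h1 hP
    have e : φ = fun t => ∑ r ∈ range d, if t ≡ r [MOD d] then φ r else 0 := funext fun t => by
      rw [sum_eq_single_of_mem (t % d) (mem_range.2 (Nat.mod_lt _ hd)) fun u hu e =>
        if_neg fun h4 => e (((h4.symm.trans (Nat.mod_modEq t d).symm)).eq_of_lt_of_lt
          (mem_range.1 hu) (Nat.mod_lt _ hd)), if_pos (Nat.mod_modEq t d).symm,
        ← SHx.per h2 (t / d) (t % d), Nat.div_add_mod]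
    have k := Sc.sum (P := P) (range d) fun r _ => Sc.base d r (φ r) h1
    rw [← e] at k
    exact k.mono (by simpa using sum_le_card_nsmul (range d) _ c fun t _ => h3 t)
  | add _ _ i1 i2 => exact i1.add i2
  | mono _ k i1 => exact i1.mono k

theorem sc1 : SC1 := by
  intro P T φ b hP h
  induction h with
  | base d s c h1 =>
    have hd : 0 < d := Nat.pos_of_dvd_of_pos h1 hP
    have hd' : (0 : ℝ) < d := by exact_mod_cast hd
    have h2 := SCy.per d s c
    obtain ⟨a, r, hr, rfl⟩ : ∃ a r, r < d ∧ T = d * a + r :=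
      ⟨T / d, T % d, Nat.mod_lt _ hd, (Nat.div_add_mod T d).symm⟩
    have hr' : (r : ℝ) ≤ d := by exact_mod_cast hr.le
    have h3 := SCy.cls (le_refl d) s c
    have h6 := SCy.cls hr.le s c
    rw [INDx.E_per hP h1 h2, SHx.sum_per h2, E]
    generalize ∑ t ∈ range d, (if t ≡ s [MOD d] then c else 0) = x at h3 ⊢
    generalize ∑ t ∈ range r, (if t ≡ s [MOD d] then c else 0) = y at h6 ⊢
    have e2 : (a : ℝ) * x + y - ((d * a + r : ℕ) : ℝ) * (x / d) = y - r / d * x := by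
      push_cast
      field_simp
      ring
    have h4 : (r : ℝ) / d ≤ 1 := (div_le_one hd').2 hr'
    have h5 : |(r : ℝ) / d * x| ≤ |c| := by
      rw [abs_mul, abs_of_nonneg (by positivity)]
      exact (mul_le_of_le_one_left (abs_nonneg _) h4).trans h3
    rw [e2]
    exact (abs_sub _ _).trans (by linarith)
  | add _ _ i1 i2 =>
    rw [sum_add_distrib, E_add]
    rw [abs_le] at i1 i2 ⊢
    constructor <;> linarith [i1.1, i1.2, i2.1, i2.2]
  | mono _ k i1 => linarith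

theorem sc2 : SC2 := by
  intro P φ ψ b c h h'
  induction h with
  | base d r a h1 => exact SCy.base_mul h1 r a h'
  | add _ _ i1 i2 =>
    simp only [add_mul]
    exact i1.add i2
  | mono _ k i1 => exact i1.mono (mul_le_mul_of_nonneg_right k h'.nonneg)

theorem sc3 : SC3 := by
  intro P M c q a hq hM hP
  have hc : Nat.Coprime q M := (Nat.Prime.coprime_iff_not_dvd hq).2 hM
  obtain ⟨r, hr⟩ : ∃ r, q ∣ c + M * r := by
    obtain ⟨u, -, hu⟩ := Nat.exists_mul_mod_eq_of_coprime (c * (q - 1)) hc.symm hq.ne_zero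
    have h1 : M * u ≡ c * (q - 1) [MOD q] := hu
    have h2 : c + c * (q - 1) = q * c := by
      obtain ⟨n, rfl⟩ : ∃ n, q = n + 1 := ⟨q - 1, (Nat.succ_pred_eq_of_pos hq.pos).symm⟩
      rw [Nat.add_sub_cancel]
      ring
    exact ⟨u, (Nat.modEq_zero_iff_dvd).1 ((h1.add_left c).trans
      (h2 ▸ Nat.modEq_zero_iff_dvd.2 (Dvd.intro c rfl)))⟩
  have e : ∀ t, q ∣ c + M * t ↔ t ≡ r [MOD q] := fun t => by
    have h0 := Nat.modEq_zero_iff_dvd.2 hr
    rw [← Nat.modEq_zero_iff_dvd]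
    exact ⟨fun h => Nat.ModEq.cancel_left_of_coprime hc
      (Nat.ModEq.add_left_cancel' c (h.trans h0.symm)),
      fun h => ((h.mul_left M).add_left c).trans h0⟩
  simp only [e]
  exact Sc.base q r a hP

end Pool.Agent.MP_fc7299_nt.AP

end

section
namespace Pool.Agent.MP_fc7299_nt.AP

open Finset Filter

namespace SDy

theorem psi_abs {Λ : ℝ} (hΛ : 0 < Λ) (A : Finset ℕ) : |psi Λ A| ≤ 1 := by
  have h0 : 0 ≤ psi Λ A := le_max_left _ _
  rw [abs_of_nonneg h0]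
  refine max_le zero_le_one ?_
  have h : 0 ≤ ∑ q ∈ A, Real.log q := sum_nonneg fun q _ => Real.log_natCast_nonneg q
  have := div_nonneg h hΛ.le
  linarith

theorem psi_zero {Λ : ℝ} (hΛ : 0 < Λ) {A : Finset ℕ} (hA : ∀ q ∈ A, 2 ≤ q)
    (hle : ¬ ∏ q ∈ A, (q : ℝ) ≤ Real.exp Λ) : psi Λ A = 0 := by
  have hpos : ∀ q ∈ A, (q : ℝ) ≠ 0 := fun q hq => by
    have := hA q hq
    positivity
  have h1 : Λ < ∑ q ∈ A, Real.log q := by
    rw [← Real.log_prod hpos]
    exact (Real.lt_log_iff_exp_lt ((Real.exp_pos Λ).trans (not_le.1 hle))).2 (not_le.1 hle)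
  have h2 : 1 < (∑ q ∈ A, Real.log q) / Λ := (one_lt_div hΛ).2 h1
  exact max_eq_left (by linarith)

theorem card_le {F : Finset (Finset ℕ)} {D : ℝ} (hD : 0 ≤ D) (hp : ∀ A ∈ F, ∀ q ∈ A, q.Prime)
    (h1 : ∀ A ∈ F, ∏ q ∈ A, (q : ℝ) ≤ D) : (#F : ℝ) ≤ D := by
  have h3 : #F ≤ #(Icc 1 ⌊D⌋₊) := by
    refine card_le_card_of_injOn (fun A => ∏ q ∈ A, q) (fun A hA => ?_) fun A hA A' hA' e => ?_
    · refine mem_coe.2 (mem_Icc.2 ⟨prod_pos fun q hq => (hp A hA q hq).pos, Nat.le_floor ?_⟩)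
      exact (Nat.cast_prod _ _).le.trans (h1 A hA)
    · rw [← Nat.primeFactors_prod (hp A hA), ← Nat.primeFactors_prod (hp A' hA')]
      exact congrArg Nat.primeFactors e
  rw [Nat.card_Icc, Nat.add_sub_cancel] at h3
  exact (Nat.cast_le.2 h3).trans (Nat.floor_le hD)

theorem prod (hSC2 : SC2) {P : ℕ} (I : Finset ℕ) {φ : ℕ → ℕ → ℝ} {b : ℕ → ℝ}
    (h : ∀ i ∈ I, Sc P (φ i) (b i)) : Sc P (fun t => ∏ i ∈ I, φ i t) (∏ i ∈ I, b i) := by
  induction I using Finset.induction_on with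
  | empty => simpa using Sc.const P 1
  | insert i I hi ih =>
    simp only [prod_insert hi]
    exact hSC2 P _ _ _ _ (h i (mem_insert_self _ _)) (ih fun i' hi' => h i' (mem_insert_of_mem hi'))

theorem dvd {P M q : ℕ} {Q : Finset ℕ} (h : Ok P M Q) (hq : q ∈ Q) : q ∣ P :=
  (dvd_prod_of_mem _ hq).trans h.2.2

theorem eta_sc (hSC3 : SC3) {P M q : ℕ} (c : ℕ) {Q : Finset ℕ} (h : Ok P M Q) (hq : q ∈ Q) :
    Sc P (fun t => eta q (B Q M c t)) (Real.exp (4 * (1 / (q : ℝ)))) := by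
  have h2 : (2 : ℝ) ≤ q := by exact_mod_cast h.two q hq
  have k := (Sc.const P (1 / ((q : ℝ) - 1))).add
    (hSC3 P M c q (-(1 + 1 / ((q : ℝ) - 1))) (h.2.1 q hq).1 (h.2.1 q hq).2 (dvd h hq))
  have e : (fun t => eta q (B Q M c t)) = fun t => 1 / ((q : ℝ) - 1) +
      if q ∣ c + M * t then -(1 + 1 / ((q : ℝ) - 1)) else 0 := by
    funext t
    have : q ∈ B Q M c t ↔ q ∣ c + M * t := by simp only [B, mem_filter, hq, true_and]
    simp only [eta, this]
    split_ifs <;> ring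
  rw [e]
  refine k.mono ?_
  have g0 : 0 ≤ 1 / ((q : ℝ) - 1) := div_nonneg zero_le_one (by linarith)
  have e2 : 1 / ((q : ℝ) - 1) ≤ 2 * (1 / (q : ℝ)) := by
    rw [mul_one_div, div_le_div_iff₀ (by linarith) (by linarith)]
    linarith
  have e3 := Real.add_one_le_exp (4 * (1 / (q : ℝ)))
  rw [abs_neg, abs_of_nonneg g0, abs_of_nonneg (by linarith)]
  linarith

theorem em_abs (S : Finset ℕ) : |em S| ≤ 1 := by
  unfold em
  split_ifs <;> simp

theorem th_sc (hSC3 : SC3) {P M : ℕ} (c : ℕ) {Q : Finset ℕ} {Z z : ℝ} (h : Ok P M Q) (hz : 1 ≤ z)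
    (hQ : ∀ q ∈ Q, (q : ℝ) ≤ z ∧ |th Z q| ≤ 1) : Sc P (fun t => ∑ q ∈ B Q M c t, th Z q) z := by
  have k := Sc.sum Q (φ := fun q t => if q ∣ c + M * t then th Z q else 0) (b := fun q => |th Z q|)
    fun q hq => hSC3 P M c q (th Z q) (h.2.1 q hq).1 (h.2.1 q hq).2 (dvd h hq)
  have e : (fun t => ∑ q ∈ B Q M c t, th Z q) =
      fun t => ∑ q ∈ Q, if q ∣ c + M * t then th Z q else 0 := by
    funext t
    rw [B, sum_filter]
  rw [e]
  refine k.mono ((sum_le_card_nsmul Q _ 1 fun q hq => (hQ q hq).2).trans ?_)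
  have h3 : #Q ≤ #(Icc 1 ⌊z⌋₊) := card_le_card fun q hq =>
    mem_Icc.2 ⟨(h.2.1 q hq).1.pos, Nat.le_floor (hQ q hq).1⟩
  rw [Nat.card_Icc, Nat.add_sub_cancel] at h3
  rw [nsmul_eq_mul, mul_one]
  exact (Nat.cast_le.2 h3).trans (Nat.floor_le (by linarith))

end SDy

theorem sc4 (hSC2 : SC2) (hSC3 : SC3) : SC4 := by
  intro P M c U U₁ Λ h hU hΛ
  have k := Sc.sum (P := P) (U.powerset.filter fun A : Finset ℕ => ∏ q ∈ A, (q : ℝ) ≤ Real.exp Λ)
    (φ := fun A t => psi Λ A * ∏ q ∈ A, eta q (B U₁ M c t)) (b := fun _ => Real.exp (4 * lam U))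
    fun A hA => by
      have hA' := mem_powerset.1 (mem_filter.1 hA).1
      refine (hSC2 P _ _ _ _ (Sc.const P (psi Λ A))
        (SDy.prod hSC2 A fun q hq => SDy.eta_sc hSC3 c h (hU (hA' hq)))).mono ?_
      rw [← Real.exp_sum, ← mul_sum]
      refine (mul_le_of_le_one_left (Real.exp_pos _).le (SDy.psi_abs hΛ A)).trans ?_
      refine Real.exp_le_exp.2 (mul_le_mul_of_nonneg_left ?_ (by norm_num))
      exact sum_le_sum_of_subset_of_nonneg hA' fun q _ _ => by positivity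
  have e : (fun t => sw U Λ (B U₁ M c t)) = fun t =>
      ∑ A ∈ U.powerset.filter fun A : Finset ℕ => ∏ q ∈ A, (q : ℝ) ≤ Real.exp Λ,
        psi Λ A * ∏ q ∈ A, eta q (B U₁ M c t) := by
    funext t
    rw [sum_filter, sw]
    refine sum_congr rfl fun A hA => ?_
    split_ifs with hle
    · rfl
    · rw [SDy.psi_zero hΛ (fun q hq => h.two q (hU (mem_powerset.1 hA hq))) hle, zero_mul]
  rw [e]
  refine k.mono ?_
  rw [sum_const, nsmul_eq_mul]
  exact mul_le_mul_of_nonneg_right (SDy.card_le (Real.exp_pos _).le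
    (fun A hA q hq => (h.2.1 q (hU (mem_powerset.1 (mem_filter.1 hA).1 hq))).1)
    fun A hA => (mem_filter.1 hA).2) (Real.exp_pos _).le

theorem sc5 (hSC0 : SC0) (hSC2 : SC2) (hSC3 : SC3) (hSC4 : SC4) : SC5 := by
  intro P M c k N U U₁ Λ Z y z h hU hΛ hy hz hN hU₁
  have hN' : Ok P M N := h.mono subset_union_left
  have hU' : Ok P M U₁ := h.mono subset_union_right
  have t1 := hSC0 P _ _ h.1 (tr3 sh3 P M c (2 * k + 1) em N y hN' hy hN SDy.em_abs)
  have t2 := hSC0 P _ _ h.1 (tr3 sh3 P M c (2 * k) em N y hN' hy hN SDy.em_abs)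
  have s1 := hSC4 P M c U U₁ Λ hU' hU hΛ
  have s2 := hSC2 P _ _ _ _ s1 s1
  have k1 := (hSC2 P _ _ _ _ t1 s2).add (hSC2 P _ _ _ _ (Sc.const P (-1))
    (hSC2 P _ _ _ _ t2 (hSC2 P _ _ _ _ s2 (SDy.th_sc hSC3 c hU' hz hU₁))))
  have e : (fun t => ow N U U₁ Λ Z k (B (N ∪ U₁) M c t)) = fun t =>
      tr (2 * k + 1) em (B N M c t) * (sw U Λ (B U₁ M c t) * sw U Λ (B U₁ M c t)) +
        -1 * (tr (2 * k) em (B N M c t) * (sw U Λ (B U₁ M c t) * sw U Λ (B U₁ M c t) *
          ∑ q ∈ B U₁ M c t, th Z q)) := by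
    funext t
    rw [ow, B_inter subset_union_left, B_inter subset_union_right, w2]
    ring
  rw [e]
  refine k1.mono ?_
  have h1 : (1 : ℝ) ≤ 2 * y ^ 2 := by nlinarith
  have h2 : (2 * y ^ 2) ^ (2 * k) ≤ (2 * y ^ 2) ^ (2 * k + 1) := pow_le_pow_right₀ h1 (Nat.le_succ _)
  have h3 : 0 ≤ (2 * y ^ 2) ^ (2 * k) := by positivity
  rw [abs_neg, abs_one, one_mul, ← sq]
  have h4 : 0 ≤ (Real.exp Λ * Real.exp (4 * lam U)) ^ 2 := sq_nonneg _
  generalize (Real.exp Λ * Real.exp (4 * lam U)) ^ 2 = W at *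
  generalize (2 * y ^ 2) ^ (2 * k) = a at *
  generalize (2 * y ^ 2) ^ (2 * k + 1) = b at *
  have h5 : a * (W * z) ≤ b * (W * z) := mul_le_mul_of_nonneg_right h2 (by positivity)
  have h6 : b * W * 1 ≤ b * W * z := mul_le_mul_of_nonneg_left hz (mul_nonneg (h3.trans h2) h4)
  nlinarith

end Pool.Agent.MP_fc7299_nt.AP

end

section
namespace Pool.Agent.MP_fc7299_nt.AP

open Finset Filter

namespace SFy

theorem psi_nonneg (Λ : ℝ) (A : Finset ℕ) : 0 ≤ psi Λ A := le_max_left _ _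

theorem psi_le {Λ : ℝ} (hΛ : 0 < Λ) (A : Finset ℕ) : psi Λ A ≤ 1 := by
  refine max_le zero_le_one ?_
  have h : 0 ≤ ∑ q ∈ A, Real.log q := sum_nonneg fun q _ => Real.log_natCast_nonneg q
  have := div_nonneg h hΛ.le
  linarith

theorem g_bd {q : ℕ} (hq : 2 ≤ q) : 0 ≤ 1 / ((q : ℝ) - 1) ∧ 1 / ((q : ℝ) - 1) ≤ 1 := by
  have h : (2 : ℝ) ≤ q := by exact_mod_cast hq
  refine ⟨div_nonneg zero_le_one (by linarith), ?_⟩
  rw [div_le_one (by linarith)]
  linarith

theorem eta_abs {q : ℕ} (hq : 2 ≤ q) (S : Finset ℕ) :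
    |eta q S| = if q ∈ S then 1 else 1 / ((q : ℝ) - 1) := by
  unfold eta
  split_ifs
  · simp
  · exact abs_of_nonneg (g_bd hq).1

theorem sw_abs (U : Finset ℕ) {Λ : ℝ} (hΛ : 0 < Λ) (S : Finset ℕ) :
    |sw U Λ S| ≤ ∏ q ∈ U, (1 + |eta q S|) := by
  rw [prod_one_add]
  refine (abs_sum_le_sum_abs _ _).trans (sum_le_sum fun A _ => ?_)
  rw [abs_mul, abs_prod, abs_of_nonneg (psi_nonneg Λ A)]
  exact mul_le_of_le_one_left (prod_nonneg fun q _ => abs_nonneg _) (psi_le hΛ A)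

theorem key {U U₁ S : Finset ℕ} (hU : ∀ q ∈ U₁, 2 ≤ q) (hUU : U ⊆ U₁) {Λ : ℝ} (hΛ : 0 < Λ)
    (hS : S ⊆ U₁) {a : ℝ} (ha : |a| ≤ 2 ^ #S) :
    (sw U Λ S ^ 2 * a) ^ 2 ≤
      ∏ q ∈ U₁, if q ∈ S then (64 : ℝ) else (1 + 1 / ((q : ℝ) - 1)) ^ 4 := by
  have h0 : |sw U Λ S| ≤ ∏ q ∈ U₁, (1 + |eta q S|) :=
    (sw_abs U hΛ S).trans (prod_le_prod_of_subset_of_one_le hUU
      (fun q _ => by positivity) fun q _ _ => le_add_of_nonneg_right (abs_nonneg _))
  have h1 : sw U Λ S ^ 4 ≤ (∏ q ∈ U₁, (1 + |eta q S|)) ^ 4 := by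
    have := pow_le_pow_left₀ (abs_nonneg _) h0 4
    rwa [(by decide : Even 4).pow_abs] at this
  have h2 : (4 : ℝ) ^ #S = ∏ q ∈ U₁, if q ∈ S then (4 : ℝ) else 1 := by
    rw [prod_ite, prod_const_one, mul_one, prod_const, filter_mem_eq_inter, inter_eq_right.2 hS]
  have h3 : (sw U Λ S ^ 2 * a) ^ 2 = sw U Λ S ^ 4 * a ^ 2 := by ring
  have h4 : a ^ 2 ≤ (4 : ℝ) ^ #S := by
    have e : (4 : ℝ) ^ #S = (2 ^ #S) ^ 2 := by rw [← pow_mul, mul_comm, pow_mul]; norm_num
    rw [e, ← sq_abs a]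
    exact pow_le_pow_left₀ (abs_nonneg _) ha 2
  rw [h3]
  refine (mul_le_mul h1 h4 (sq_nonneg _) (by positivity)).trans (le_of_eq ?_)
  rw [h2, ← prod_pow, ← prod_mul_distrib]
  refine prod_congr rfl fun q hq => ?_
  rw [eta_abs (hU q hq)]
  split_ifs
  · norm_num
  · rw [mul_one]

theorem fac {q : ℕ} (hq : 2 ≤ q) :
    1 / (q : ℝ) * 64 + (1 - 1 / (q : ℝ)) * (1 + 1 / ((q : ℝ) - 1)) ^ 4 ≤
      Real.exp (80 * (1 / (q : ℝ))) := by
  have h : (2 : ℝ) ≤ q := by exact_mod_cast hq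
  obtain ⟨g0, g1⟩ := g_bd hq
  have hq0 : (q : ℝ) ≠ 0 := by linarith [h] |> fun (x : (0 : ℝ) < q) => x.ne'
  have hq1 : (q : ℝ) - 1 ≠ 0 := by linarith [h] |> fun (x : (0 : ℝ) < (q : ℝ) - 1) => x.ne'
  have e1 : (1 - 1 / (q : ℝ)) * (1 + 1 / ((q : ℝ) - 1)) = 1 := by field_simp; ring
  have e2 : 1 / ((q : ℝ) - 1) ≤ 2 * (1 / (q : ℝ)) := by
    rw [mul_one_div, div_le_div_iff₀ (by linarith) (by linarith)]
    linarith
  have e3 := Real.add_one_le_exp (80 * (1 / (q : ℝ)))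
  have e4 : 0 ≤ 1 / (q : ℝ) := by positivity
  generalize 1 / ((q : ℝ) - 1) = g at *
  generalize 1 / (q : ℝ) = r at *
  have e5 : (1 - r) * (1 + g) ^ 4 = (1 + g) ^ 3 := by
    calc (1 - r) * (1 + g) ^ 4 = ((1 - r) * (1 + g)) * (1 + g) ^ 3 := by ring
      _ = (1 + g) ^ 3 := by rw [e1, one_mul]
  have e6 : g * g ≤ g := by nlinarith
  have e7 : g * g * g ≤ g := by nlinarith
  rw [e5]
  nlinarith

theorem main {U U₁ : Finset ℕ} (hU : ∀ q ∈ U₁, 2 ≤ q) (hUU : U ⊆ U₁) {Λ : ℝ} (hΛ : 0 < Λ)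
    (a : Finset ℕ → ℝ) (ha : ∀ S ⊆ U₁, |a S| ≤ 2 ^ #S) :
    EP U₁ (fun S => (sw U Λ S ^ 2 * a S) ^ 2) ≤ Real.exp (80 * lam U₁) := by
  refine (EP_mono hU fun S hS => key hU hUU hΛ hS (ha S hS)).trans ?_
  rw [EP_prod U₁ (fun _ => 64) fun q => (1 + 1 / ((q : ℝ) - 1)) ^ 4, lam, mul_sum, Real.exp_sum]
  refine prod_le_prod (fun q hq => ?_) fun q hq => fac (hU q hq)
  have := one_sub_nonneg (hU q hq)
  positivity

theorem tr_em (k : ℕ) (S : Finset ℕ) :
    tr k em S = ((∑ i ∈ range (k + 1), ((-1) ^ i * (#S).choose i : ℤ) : ℤ) : ℝ) := by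
  have h1 : ∀ A : Finset ℕ, ∑ T ∈ A.powerset, (-1 : ℝ) ^ #(A \ T) * em T = (-1) ^ #A := by
    intro A
    rw [sum_eq_single ∅]
    · simp [em]
    · intro T _ hT
      simp [em, hT]
    · intro h
      exact absurd (empty_mem_powerset A) h
  unfold tr
  simp only [h1]
  rw [← sum_fiberwise_of_maps_to (s := S.powerset.filter fun A => #A ≤ k) (t := range (k + 1))
    (g := fun A => #A) (fun A hA => mem_range.2 (Nat.lt_succ_of_le (mem_filter.1 hA).2))]
  push_cast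
  refine sum_congr rfl fun i hi => ?_
  have hi' : i ≤ k := Nat.le_of_lt_succ (mem_range.1 hi)
  have e : (S.powerset.filter fun A => #A ≤ k).filter (fun A => #A = i) = powersetCard i S := by
    ext A
    simp only [mem_filter, mem_powerset, mem_powersetCard]
    constructor
    · rintro ⟨⟨h1, -⟩, h2⟩
      exact ⟨h1, h2⟩
    · rintro ⟨h1, h2⟩
      exact ⟨⟨h1, h2 ▸ hi'⟩, h2⟩
  rw [e, sum_congr rfl (fun A hA => by rw [(mem_powersetCard.1 hA).2]), sum_const,
    card_powersetCard, nsmul_eq_mul, mul_comm]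

theorem tr_sub (S : Finset ℕ) : ∃ c : ℕ → ℕ, ∀ k, tr k em S - em S = (-1) ^ k * (c k : ℝ) := by
  by_cases hS : S = ∅
  · refine ⟨fun _ => 0, fun k => ?_⟩
    rw [tr1 k em S (by simp [hS])]
    simp
  · obtain ⟨n, hn⟩ : ∃ n, #S = n + 1 :=
      Nat.exists_eq_succ_of_ne_zero (fun h => hS (card_eq_zero.1 h))
    refine ⟨fun k => n.choose k, fun k => ?_⟩
    rw [tr_em, hn, Int.alternating_sum_range_choose_eq_choose, em, if_neg hS]
    push_cast
    ring

end SFy

theorem se2 : SE2 := by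
  intro U U₁ Λ Z hU hUU hΛ
  have h2 : ∀ q ∈ U₁, 2 ≤ q := fun q hq => (hU q hq).1
  constructor
  · have := SFy.main h2 hUU hΛ (fun _ => 1) fun S _ => by
      rw [abs_one]
      exact one_le_pow₀ (by norm_num)
    simpa only [mul_one] using this
  · refine SFy.main h2 hUU hΛ (fun S => ∑ q ∈ S, th Z q) fun S hS => ?_
    have h : (#S : ℝ) < 2 ^ #S := by exact_mod_cast (#S).lt_two_pow_self
    refine (abs_sum_le_sum_abs _ _).trans
      ((sum_le_card_nsmul S _ 1 fun q hq => (hU q (hS hq)).2).trans ?_)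
    rw [nsmul_eq_mul, mul_one]
    exact h.le

theorem bon : BON := by
  intro k S
  obtain ⟨c, hc⟩ := SFy.tr_sub S
  refine ⟨?_, ?_, ?_⟩
  · have h := hc (2 * k + 1)
    rw [(odd_two_mul_add_one k).neg_one_pow] at h
    have : (0 : ℝ) ≤ c (2 * k + 1) := Nat.cast_nonneg _
    linarith
  · have h := hc (2 * k)
    rw [(even_two_mul k).neg_one_pow] at h
    have : (0 : ℝ) ≤ c (2 * k) := Nat.cast_nonneg _
    linarith
  · rw [← sq_abs, hc k, abs_mul, abs_pow, abs_neg, abs_one, one_pow, one_mul, Nat.abs_cast]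
    exact_mod_cast Nat.le_self_pow two_ne_zero (c k)

end Pool.Agent.MP_fc7299_nt.AP

end

section
namespace Pool.Agent.MP_fc7299_nt.AP

open Finset Filter

-- helper lemmas: put them in namespace CA1y (prefix CA1y.)

theorem CA1y.var {P : ℕ} (hP : 0 < P) (S : ℕ → ℝ) {μ : ℝ} (h0 : 0 < μ) (h1 : E P S = μ) :
    E P (fun t => (S t / μ - 1) ^ 2) = E P (fun t => S t * S t) / μ ^ 2 - 1 := by
  have e : (fun t => (S t / μ - 1) ^ 2) =
      fun t => (1 / μ ^ 2 * (S t * S t) - 2 / μ * S t) + 1 := by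
    funext t
    ring
  rw [e, E_add, E_sub, E_smul, E_smul, E_const hP, h1, div_mul_cancel₀ _ h0.ne']
  ring

theorem CA1y.em01 (S : Finset ℕ) : 0 ≤ em S ∧ em S ≤ 1 ∧ em S * em S = em S := by
  unfold em
  split_ifs <;> norm_num

theorem CA1y.ex01 (j : ℕ) (S : Finset ℕ) : 0 ≤ ex j S ∧ ex j S * ex j S = ex j S := by
  unfold ex
  split_ifs <;> norm_num

theorem ca1 : CA1 := by
  have hIND := ind
  have hONE := one ind pri
  have hTWO := two ind pri (one ind pri)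
  have hRR := rr ind pri
  have hSPL := spl
  intro P M J j c R A U ε ω h k0 m0
  have ok : Ok P M (R ∪ (A ∪ U)) := union_assoc R A U ▸ h.ok
  have oR : Ok P M R := ok.mono subset_union_left
  have oQ : Ok P M (A ∪ U) := ok.mono subset_union_right
  have oA : Ok P M A := oQ.mono subset_union_left
  have oU : Ok P M U := oQ.mono subset_union_right
  have hP := ok.1
  obtain ⟨s1, s2⟩ := ok.split (disjoint_union_right.2 ⟨h.dRA, h.dRU⟩)
  have J0 : (0 : ℝ) < J := by exact_mod_cast h.J0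
  have w0 : 0 ≤ EP U fun S => ω S ^ 2 :=
    (EP_const U 0).symm.le.trans (EP_mono oU.two fun S _ => sq_nonneg _)
  have p0 : 0 ≤ EP A (ex j) :=
    (EP_const A 0).symm.le.trans (EP_mono oA.two fun S _ => (CA1y.ex01 j S).1)
  obtain ⟨u, hu⟩ : ∃ u : Finset ℕ → ℝ, u = fun S => ex j (S ∩ A) * ω (S ∩ U) := ⟨_, rfl⟩
  have u1 : EP (A ∪ U) u = EP A (ex j) * EP U ω := hu ▸ hSPL A U _ _ h.dAU
  have u2 : EP (A ∪ U) (fun S => u S ^ 2) = EP A (ex j) * EP U fun S => ω S ^ 2 := by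
    rw [← hSPL A U (ex j) (fun S => ω S ^ 2) h.dAU]
    refine EP_congr fun S _ => ?_
    rw [hu, mul_pow, sq (ex j _), (CA1y.ex01 j _).2]
  have e : ∀ s t, fl R A j (B (R ∪ A) M (c s) t) * ω (B U M (c s) t) =
      em (B R M (c s) t) * u (B (A ∪ U) M (c s) t) := by
    intro s t
    simp only [hu, fl, B_inter subset_union_left, B_inter subset_union_right, mul_assoc]
  simp only [e]
  generalize EP A (ex j) = p at *
  generalize EP U ω = m at *
  generalize (EP U fun S => ω S ^ 2) = W at *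
  have a1 : ∀ s, E P (fun t => em (B R M (c s) t)) = V R := fun s =>
    (hONE P M (c s) R em oR).trans (EP_em R)
  have f1 : ∀ s, E P (fun t => em (B R M (c s) t) * u (B (A ∪ U) M (c s) t)) = V R * (p * m) := by
    intro s
    rw [hIND P _ _ _ _ hP s1 s2 (B_per R M (c s) em) (B_per (A ∪ U) M (c s) u), a1,
      hONE P M (c s) _ u oQ, u1]
  have f2 : ∀ s s', E P (fun t => em (B R M (c s) t) * u (B (A ∪ U) M (c s) t) *
      (em (B R M (c s') t) * u (B (A ∪ U) M (c s') t))) =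
      E P (fun t => em (B R M (c s) t) * em (B R M (c s') t)) *
        E P fun t => u (B (A ∪ U) M (c s) t) * u (B (A ∪ U) M (c s') t) := by
    intro s s'
    refine Eq.trans (congrArg (E P) (funext fun t => ?_)) (hIND P _ _ _ _ hP s1 s2
      ((B_per R M (c s) em).mul (B_per R M (c s') em))
      ((B_per (A ∪ U) M (c s) u).mul (B_per (A ∪ U) M (c s') u)))
    ring
  have pW := mul_nonneg p0 w0
  have V0 : 0 ≤ V R := prod_nonneg fun q hq => one_sub_nonneg (oR.two q hq)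
  have f3 : ∀ s ∈ range J, ∑ s' ∈ range J, E P (fun t => em (B R M (c s) t) *
      u (B (A ∪ U) M (c s) t) * (em (B R M (c s') t) * u (B (A ∪ U) M (c s') t))) ≤
      2 * (V R * (p * W)) + (V R * (p * m)) ^ 2 * ∑ s' ∈ (range J).erase s, H R (c s) (c s') := by
    intro s hs
    have d1 : E P (fun t => em (B R M (c s) t) * u (B (A ∪ U) M (c s) t) *
        (em (B R M (c s) t) * u (B (A ∪ U) M (c s) t))) = V R * (p * W) := by
      rw [f2, ← u2, ← hONE P M (c s) _ (fun S => u S ^ 2) oQ, ← a1 s]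
      simp only [(CA1y.em01 _).2.2, sq]
    have d2 : ∀ s' ∈ (range J).erase s, E P (fun t => em (B R M (c s) t) *
        u (B (A ∪ U) M (c s) t) * (em (B R M (c s') t) * u (B (A ∪ U) M (c s') t))) ≤
        V R * (p * W) / J + (V R * (p * m)) ^ 2 * H R (c s) (c s') := by
      intro s' hs'
      obtain ⟨n1, n2⟩ := mem_erase.1 hs'
      have t1 := hTWO P M (c s) (c s') (A ∪ U) u (1 / J) oQ (by positivity) fun q hq =>
        ⟨h.sep q hq s (mem_range.1 hs) s' (mem_range.1 n2) n1.symm, by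
          have : (J : ℝ) + 1 ≤ q := by exact_mod_cast h.big q hq
          exact one_div_le_one_div_of_le J0 (by linarith)⟩
      have t2 := hRR P M (c s) (c s') R oR
      have t3 : E P (fun t => em (B R M (c s) t) * em (B R M (c s') t)) ≤ V R :=
        (E_mono P fun t => mul_le_of_le_one_right (CA1y.em01 _).1 (CA1y.em01 _).2.1).trans
          (a1 s).le
      have t4 : 0 ≤ E P (fun t => em (B R M (c s) t) * em (B R M (c s') t)) :=
        (E_const hP 0).symm.le.trans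
          (E_mono P fun t => mul_nonneg (CA1y.em01 _).1 (CA1y.em01 _).1)
      rw [u1, u2] at t1
      rw [f2]
      refine (mul_le_mul_of_nonneg_left t1 t4).trans ?_
      have t5 := mul_le_mul_of_nonneg_right t2 (sq_nonneg (p * m))
      have t6 := mul_le_mul_of_nonneg_right t3 (mul_nonneg (one_div_pos.2 J0).le pW)
      have t7 : V R * (p * W) / J = V R * (1 / J * (p * W)) := by ring
      linarith
    rw [← add_sum_erase _ _ hs, d1]
    have d3 := sum_le_sum d2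
    rw [sum_add_distrib, ← mul_sum, sum_const, nsmul_eq_mul] at d3
    have d4 : (#((range J).erase s) : ℝ) ≤ J := by
      exact_mod_cast card_erase_le.trans (card_range J).le
    have d5 := mul_le_mul_of_nonneg_right d4 (div_nonneg (mul_nonneg V0 pW) J0.le)
    rw [mul_div_cancel₀ _ J0.ne'] at d5
    linarith
  obtain ⟨ν, hν⟩ : ∃ ν : ℝ, ν = J * V R * p := ⟨_, rfl⟩
  rw [← hν] at k0 ⊢
  have g1 : E P (fun t => ∑ s ∈ range J, em (B R M (c s) t) * u (B (A ∪ U) M (c s) t)) =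
      ν * m := by
    rw [E_sum]
    simp only [f1]
    rw [sum_const, card_range, nsmul_eq_mul, hν]
    ring
  rw [CA1y.var hP _ (mul_pos k0 m0) g1]
  simp only [sum_mul_sum]
  rw [E_sum]
  simp only [E_sum]
  have g2 := sum_le_sum f3
  rw [sum_add_distrib, sum_const, ← mul_sum, card_range, nsmul_eq_mul] at g2
  have g3 := mul_le_mul_of_nonneg_left h.rom (sq_nonneg (V R * (p * m)))
  have g4 : (V R * (p * m)) ^ 2 * ((1 + ε) * (J : ℝ) ^ 2) = (1 + ε) * (ν * m) ^ 2 := by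
    rw [hν]
    ring
  have g5 : (J : ℝ) * (2 * (V R * (p * W))) = 2 * (ν * W) := by
    rw [hν]
    ring
  have g6 : 2 * W / (ν * m ^ 2) * (ν * m) ^ 2 = 2 * (ν * W) := by
    field_simp
  rw [sub_le_iff_le_add, div_le_iff₀ (by positivity)]
  linarith

end Pool.Agent.MP_fc7299_nt.AP

end

section
namespace Pool.Agent.MP_fc7299_nt.AP

open Finset Filter

namespace CA2y

theorem fl_nonneg (R A : Finset ℕ) (j : ℕ) (S : Finset ℕ) : 0 ≤ fl R A j S := by
  unfold fl em ex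
  split_ifs <;> norm_num

theorem fl_abs (R A : Finset ℕ) (j : ℕ) (S : Finset ℕ) : |fl R A j S| ≤ 1 := by
  unfold fl em ex
  split_ifs <;> norm_num

theorem term_le (R A U : Finset ℕ) (j M c t : ℕ) (ω : Finset ℕ → ℝ)
    (h : ¬ (B R M c t = ∅ ∧ #(B A M c t) = j ∧ 0 < ω (B U M c t))) :
    fl R A j (B (R ∪ A) M c t) * ω (B U M c t) ≤ 0 := by
  by_cases hU : 0 < ω (B U M c t)
  · have h0 : fl R A j (B (R ∪ A) M c t) = 0 := by
      unfold fl em ex
      rw [B_inter subset_union_left, B_inter subset_union_right]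
      by_cases h1 : B R M c t = ∅
      · have h2 : ¬ #(B A M c t) = j := fun h2 => h ⟨h1, h2, hU⟩
        rw [if_neg h2, mul_zero]
      · rw [if_neg h1, zero_mul]
    rw [h0, zero_mul]
  · exact mul_nonpos_of_nonneg_of_nonpos (fl_nonneg _ _ _ _) (not_lt.1 hU)

theorem count_le (T J : ℕ) (p : ℕ → Prop) [DecidablePred p] (φ : ℕ → ℝ) (q : ℕ → ℕ → Prop)
    [∀ s, DecidablePred (q s)] (h0 : ∀ t, 0 ≤ φ t)
    (h : ∀ t, p t → (∀ s < J, ¬ q s t) → 1 ≤ φ t) :
    (#((range T).filter p) : ℝ) ≤ ∑ t ∈ range T, φ t +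
      ∑ s ∈ range J, (#((range T).filter (q s)) : ℝ) := by
  simp only [card_filter, Nat.cast_sum, Nat.cast_ite, Nat.cast_one, Nat.cast_zero]
  rw [sum_comm, ← sum_add_distrib]
  refine sum_le_sum fun t _ => ?_
  have hs : (0 : ℝ) ≤ ∑ s ∈ range J, if q s t then (1 : ℝ) else 0 :=
    sum_nonneg fun s _ => by split_ifs <;> norm_num
  split_ifs with hp
  · by_cases hq : ∀ s < J, ¬ q s t
    · linarith [h t hp hq]
    · push Not at hq
      obtain ⟨s, hs1, hs2⟩ := hq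
      have h1 := single_le_sum (f := fun s => if q s t then (1 : ℝ) else 0)
        (fun s _ => by split_ifs <;> norm_num) (mem_range.2 hs1)
      simp only [if_pos hs2] at h1
      linarith [h0 t]
  · linarith [h0 t]

theorem EP_nonneg {Q : Finset ℕ} (hQ : ∀ q ∈ Q, 2 ≤ q) {u : Finset ℕ → ℝ} (h : ∀ S, 0 ≤ u S) :
    0 ≤ EP Q u := by
  have h1 := EP_mono hQ (u := fun _ => 0) (v := u) fun S _ => h S
  rwa [EP_const] at h1

theorem point (J : ℕ) (a b v : ℕ → ℝ) (μ : ℝ) :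
    ((∑ s ∈ range J, a s * v s) / μ - 1) ^ 2 ≤ 2 * ((∑ s ∈ range J, b s * v s) / μ - 1) ^ 2 +
      2 * (J : ℝ) / μ ^ 2 * ∑ s ∈ range J, (a s - b s) ^ 2 * v s ^ 2 := by
  have h1 : (∑ s ∈ range J, (a s - b s) * v s) ^ 2 ≤
      (J : ℝ) * ∑ s ∈ range J, ((a s - b s) * v s) ^ 2 := by
    have := sq_sum_le_card_mul_sum_sq (s := range J) (f := fun s => (a s - b s) * v s)
    rwa [card_range] at this
  simp only [mul_pow] at h1
  have h2 : (∑ s ∈ range J, a s * v s) =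
      (∑ s ∈ range J, b s * v s) + ∑ s ∈ range J, (a s - b s) * v s := by
    rw [← sum_add_distrib]
    exact sum_congr rfl fun s _ => by ring
  rw [h2]
  generalize (∑ s ∈ range J, b s * v s) = X at *
  generalize (∑ s ∈ range J, (a s - b s) * v s) = D at *
  generalize (∑ s ∈ range J, (a s - b s) ^ 2 * v s ^ 2) = Z at *
  have h3 : (D / μ) ^ 2 ≤ (J : ℝ) / μ ^ 2 * Z := by
    rw [div_pow, div_mul_eq_mul_div]
    exact div_le_div_of_nonneg_right h1 (sq_nonneg _)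
  have h4 : (X + D) / μ - 1 = (X / μ - 1) + D / μ := by ring
  have h5 : 2 * (J : ℝ) / μ ^ 2 * Z = 2 * ((J : ℝ) / μ ^ 2 * Z) := by ring
  rw [h4, h5]
  nlinarith [sq_nonneg (X / μ - 1 - D / μ)]

end CA2y

theorem ca2 (hSC0 : SC0) (hSC1 : SC1) (hSC2 : SC2) (hCA1 : CA1) : CA2 := by
  intro P M J j k T c R A U ε κ W ρ b y ω cfg hκ he hμ hW hρ hy hyq hSc
  have hONE : ONE := one ind pri
  have hP : 0 < P := cfg.ok.1
  have okL : Ok P M (R ∪ A) := cfg.ok.mono subset_union_left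
  have okU : Ok P M U := cfg.ok.mono subset_union_right
  have hd : Disjoint (R ∪ A) U := disjoint_union_left.2 ⟨cfg.dRU, cfg.dAU⟩
  obtain ⟨hcop, hdvd⟩ := cfg.ok.split hd
  have hT2 := tr2 tr1 k (fl R A j) (R ∪ A) okL.two (CA2y.fl_abs R A j)
  have hpos : 0 < J * V R * EP A (ex j) := (pos_iff_pos_of_mul_pos (hκ.trans_le hμ)).2 he
  have hC1 := (hCA1 P M J j c R A U ε ω cfg hpos he).trans (add_le_add le_rfl
    (show 2 * EP U (fun S => ω S ^ 2) / (J * V R * EP A (ex j) * EP U ω ^ 2) ≤ 2 * ρ by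
      rw [div_le_iff₀ (by positivity)]
      linarith))
  have hW0 : 0 ≤ W := (CA2y.EP_nonneg okU.two fun S => sq_nonneg (ω S)).trans hW
  have hb : 0 ≤ b := (hSc 0 cfg.J0).nonneg
  clear hρ hpos
  generalize J * V R * EP A (ex j) * EP U ω = μ at hC1 hμ
  have hμ0 : 0 < μ := by linarith
  have hi : μ⁻¹ ≤ κ⁻¹ := inv_anti₀ hκ hμ
  have hJ : (0 : ℝ) ≤ J := J.cast_nonneg
  have hT : (0 : ℝ) ≤ T := T.cast_nonneg
  have hC0 : 0 ≤ (2 * y ^ 2) ^ k * b := by positivity
  have hsh1 : Sc P (fun t => ∑ s ∈ range J,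
      tr k (fl R A j) (B (R ∪ A) M (c s) t) * ω (B U M (c s) t))
      (∑ _s ∈ range J, (2 * y ^ 2) ^ k * b) :=
    Sc.sum (range J) fun s hs => hSC2 P _ _ _ _
      (hSC0 P _ _ hP (tr3 sh3 P M (c s) k (fl R A j) (R ∪ A) y okL hy hyq (CA2y.fl_abs R A j)))
      (hSc s (mem_range.1 hs))
  rw [sum_const, card_range, nsmul_eq_mul] at hsh1
  generalize (2 * y ^ 2) ^ k * b = C0 at hC0 hsh1 ⊢
  have hsh2 := ((hSC2 P _ _ _ _ hsh1 (Sc.const P μ⁻¹)).add (Sc.const P (-1))).mono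
    (C := J * C0 / κ + 1) (by
      rw [abs_of_pos (inv_pos.2 hμ0), abs_neg, abs_one]
      have h1 := mul_le_mul_of_nonneg_left hi (mul_nonneg hJ hC0)
      have h2 : J * C0 * κ⁻¹ = J * C0 / κ := by ring
      linarith)
  have hsh3 := hSC1 P T _ _ hP (hSC2 P _ _ _ _ hsh2 hsh2)
  have hfun : (fun t => ((∑ s ∈ range J,
      tr k (fl R A j) (B (R ∪ A) M (c s) t) * ω (B U M (c s) t)) * μ⁻¹ + -1) *
      ((∑ s ∈ range J,
      tr k (fl R A j) (B (R ∪ A) M (c s) t) * ω (B U M (c s) t)) * μ⁻¹ + -1)) =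
      fun t => ((∑ s ∈ range J,
      tr k (fl R A j) (B (R ∪ A) M (c s) t) * ω (B U M (c s) t)) / μ - 1) ^ 2 := by
    funext t
    rw [div_eq_mul_inv]
    ring
  have hsum := (abs_le.1 hsh3).2
  rw [hfun] at hsum
  have hterm : ∀ s ∈ range J, E P (fun t =>
      (tr k (fl R A j) (B (R ∪ A) M (c s) t) - fl R A j (B (R ∪ A) M (c s) t)) ^ 2 *
        ω (B U M (c s) t) ^ 2) ≤
      4 * (1 / 2) ^ k * Real.exp (17 * lam (R ∪ A)) * W := fun s _ => by
    rw [ind P _ _ _ _ hP hcop hdvd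
      (B_per (R ∪ A) M (c s) fun S => (tr k (fl R A j) S - fl R A j S) ^ 2)
      (B_per U M (c s) fun S => ω S ^ 2),
      hONE P M (c s) (R ∪ A) (fun S => (tr k (fl R A j) S - fl R A j S) ^ 2) okL,
      hONE P M (c s) U (fun S => ω S ^ 2) okU]
    exact mul_le_mul hT2 hW (CA2y.EP_nonneg okU.two fun S => sq_nonneg _) (by positivity)
  have hE := E_mono P fun t => CA2y.point J (fun s => tr k (fl R A j) (B (R ∪ A) M (c s) t))
    (fun s => fl R A j (B (R ∪ A) M (c s) t)) (fun s => ω (B U M (c s) t)) μ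
  rw [E_add, E_smul, E_smul, E_sum] at hE
  have hS := sum_le_sum hterm
  rw [sum_const, card_range, nsmul_eq_mul] at hS
  have hcnt := CA2y.count_le T J (fun t => ∀ s < J,
      ¬ (B R M (c s) t = ∅ ∧ #(B A M (c s) t) = j ∧ 0 < ω (B U M (c s) t)))
    (fun t => ((∑ s ∈ range J,
      tr k (fl R A j) (B (R ∪ A) M (c s) t) * ω (B U M (c s) t)) / μ - 1) ^ 2)
    (fun s t => k < #(B (R ∪ A) M (c s) t)) (fun t => sq_nonneg _) (fun t ht hq => by
      have h1 : (∑ s ∈ range J,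
          tr k (fl R A j) (B (R ∪ A) M (c s) t) * ω (B U M (c s) t)) ≤ 0 :=
        sum_nonpos fun s hs => by
          rw [tr1 k _ _ (not_lt.1 (hq s (mem_range.1 hs)))]
          exact CA2y.term_le R A U j M (c s) t ω (ht s (mem_range.1 hs))
      have h2 := div_nonpos_of_nonpos_of_nonneg h1 hμ0.le
      nlinarith)
  have h4 := sum_le_sum fun s (_ : s ∈ range J) =>
    tr4 sh1 sh3 hONE P M (c s) k T (R ∪ A) y okL hy hyq
  rw [sum_const, card_range, nsmul_eq_mul] at h4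
  have hi2 : 2 * (J : ℝ) / μ ^ 2 ≤ 2 * J / κ ^ 2 :=
    div_le_div_of_nonneg_left (by positivity) (by positivity) (pow_le_pow_left₀ hκ.le hμ 2)
  have h6 := mul_le_mul hi2 hS
    (sum_nonneg fun s _ => by
      have h1 := E_mono P (φ := fun _ => 0) fun t => mul_nonneg (sq_nonneg
        (tr k (fl R A j) (B (R ∪ A) M (c s) t) - fl R A j (B (R ∪ A) M (c s) t)))
        (sq_nonneg (ω (B U M (c s) t)))
      rwa [E_const hP] at h1) (by positivity)
  have h7 := mul_le_mul_of_nonneg_left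
    (hE.trans (add_le_add (mul_le_mul_of_nonneg_left hC1 (by norm_num : (0 : ℝ) ≤ 2)) h6)) hT
  have h8 : T * (2 * (ε + 2 * ρ) + 2 * J / κ ^ 2 *
      (J * (4 * (1 / 2) ^ k * Real.exp (17 * lam (R ∪ A)) * W))) +
      2 * ((J * C0 / κ + 1) * (J * C0 / κ + 1)) +
      J * (T * ((1 / 2) ^ k * Real.exp (2 * lam (R ∪ A))) + 2 * y ^ (2 * k + 2)) =
      T * (2 * ε + 4 * ρ +
      8 * (J : ℝ) ^ 2 * (1 / 2) ^ k * Real.exp (17 * lam (R ∪ A)) * W / κ ^ 2 +
      J * ((1 / 2) ^ k * Real.exp (2 * lam (R ∪ A)))) +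
      2 * (J * C0 / κ + 1) ^ 2 + 2 * J * y ^ (2 * k + 2) := by ring
  rw [← h8]
  linarith

end Pool.Agent.MP_fc7299_nt.AP

end

section
namespace Pool.Agent.MP_fc7299_nt.AP

open Finset Filter

-- helper lemmas: put them in namespace ME1y (prefix ME1y.)

namespace ME1y

open Real

theorem base_sq (N : ℕ) : ∑ n ∈ range (N + 2), log n / (n : ℝ) ^ 2 ≤ 4 - 4 / √(N + 1) := by
  induction N with
  | zero => simp [sum_range_succ]
  | succ N ih =>
    rw [show N + 1 + 2 = N + 2 + 1 from rfl, sum_range_succ]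
    push_cast
    have n0 : (0 : ℝ) ≤ N := N.cast_nonneg
    obtain ⟨s, hs⟩ : ∃ s, s = √((N : ℝ) + 1) := ⟨_, rfl⟩
    obtain ⟨t, ht⟩ : ∃ t, t = √((N : ℝ) + 1 + 1) := ⟨_, rfl⟩
    have s0 : 0 < s := hs ▸ sqrt_pos.2 (by positivity)
    have t0 : 0 < t := ht ▸ sqrt_pos.2 (by positivity)
    have s2 : s ^ 2 = N + 1 := hs ▸ sq_sqrt (by positivity)
    have t2 : t ^ 2 = N + 1 + 1 := ht ▸ sq_sqrt (by positivity)
    have st : s ≤ t := by nlinarith only [t0, s2, t2]
    rw [← hs] at ih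
    rw [← ht, show (N : ℝ) + 2 = t ^ 2 by linarith only [t2], log_pow]
    have h1 := log_le_sub_one_of_pos t0
    have h2 : 4 / s - 4 / t = 4 / (s * t * (s + t)) := by
      field_simp
      linarith only [s2, t2]
    have h3 : ((2 : ℕ) : ℝ) * log t / (t ^ 2) ^ 2 ≤ 4 / (s * t * (s + t)) := by
      rw [div_le_div_iff₀ (by positivity) (by positivity)]
      have h4 : s * t * (s + t) ≤ t * t * (t + t) := by gcongr
      have h5 : log t * (s * t * (s + t)) ≤ t * (s * t * (s + t)) :=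
        mul_le_mul_of_nonneg_right (by linarith only [h1]) (by positivity)
      have h6 := mul_le_mul_of_nonneg_left h4 t0.le
      push_cast
      linarith only [h5, h6]
    linarith

theorem sum_log_div_sq (T : Finset ℕ) : ∑ n ∈ T, log n / (n : ℝ) ^ 2 ≤ 6 := by
  have h1 : T ⊆ range (T.sup id + 2) := fun n hn =>
    mem_range.2 (by have : n ≤ T.sup id := le_sup (f := id) hn; omega)
  have h2 := sum_le_sum_of_subset_of_nonneg (f := fun n : ℕ => log n / (n : ℝ) ^ 2) h1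
    fun n _ _ => div_nonneg (log_natCast_nonneg n) (sq_nonneg _)
  have h3 := base_sq (T.sup id)
  have h4 : 0 ≤ 4 / √(((T.sup id : ℕ) : ℝ) + 1) := by positivity
  linarith

theorem prb_fact (N : ℕ) : log (N.factorial : ℝ) =
    ∑ p ∈ (Icc 1 N).filter Nat.Prime, ((N.factorial.factorization p : ℕ) : ℝ) * log p := by
  rw [Real.log_nat_eq_sum_factorization, Finsupp.sum]
  refine sum_congr ?_ fun _ _ => rfl
  ext p
  simp only [Nat.support_factorization, Nat.mem_primeFactors, mem_filter, mem_Icc]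
  constructor
  · rintro ⟨hp, hd, -⟩
    exact ⟨⟨hp.one_le, hp.dvd_factorial.1 hd⟩, hp⟩
  · rintro ⟨⟨-, h⟩, hp⟩
    exact ⟨hp, hp.dvd_factorial.2 h, N.factorial_ne_zero⟩

theorem prb_val {N p : ℕ} (hp : p.Prime) :
    (N : ℝ) / p - 1 ≤ (N.factorial.factorization p : ℕ) ∧
      ((N.factorial.factorization p : ℕ) : ℝ) ≤ N / p + 2 * N / (p : ℝ) ^ 2 := by
  have h2 : (2 : ℝ) ≤ p := by exact_mod_cast hp.two_le
  constructor
  · have h1 : N / p ≤ N.factorial.factorization p := by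
      rw [Nat.factorization_factorial hp (b := Nat.log p N + 2) (by omega)]
      simpa only [pow_one] using single_le_sum (f := fun i => N / p ^ i) (fun _ _ => Nat.zero_le _)
        (show 1 ∈ Ico 1 (Nat.log p N + 2) by simp only [mem_Ico, Std.le_refl, lt_add_iff_pos_left, Order.lt_add_one_iff, zero_le, and_self])
    have h3 : (N : ℝ) / p < ((N / p : ℕ) : ℝ) + 1 := by
      rw [← Nat.floor_div_eq_div (K := ℝ)]
      exact Nat.lt_floor_add_one _
    have h4 : ((N / p : ℕ) : ℝ) ≤ (N.factorial.factorization p : ℕ) := by exact_mod_cast h1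
    linarith only [h3, h4]
  · have h1 : (p - 1) * N.factorial.factorization p ≤ N := by
      rw [Nat.sub_one_mul_factorization_factorial hp]
      exact Nat.sub_le _ _
    have h3 : ((p : ℝ) - 1) * (N.factorial.factorization p : ℕ) ≤ N := by
      have : (((p - 1) * N.factorial.factorization p : ℕ) : ℝ) ≤ N := by exact_mod_cast h1
      rwa [Nat.cast_mul, Nat.cast_sub hp.one_le, Nat.cast_one] at this
    have h0 : (0 : ℝ) ≤ N := Nat.cast_nonneg _
    have h5 : (N : ℝ) / p + 2 * N / (p : ℝ) ^ 2 = N * (p + 2) / (p : ℝ) ^ 2 := by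
      field_simp
    rw [h5, le_div_iff₀ (by positivity)]
    have h6 : (0 : ℝ) ≤ (N.factorial.factorization p : ℕ) := Nat.cast_nonneg _
    linarith only [mul_le_mul_of_nonneg_right h3 (show (0 : ℝ) ≤ p + 2 by linarith only [h2]), mul_nonneg h6 (show (0 : ℝ) ≤ p - 2 by linarith only [h2])]

theorem mertens : ∃ C : ℝ, ∀ z : ℝ, 1 ≤ z →
    |∑ p ∈ (Icc 1 ⌊z⌋₊).filter Nat.Prime, log p / p - log z| ≤ C := by
  refine ⟨13 + log 4 + log 2, fun z hz => ?_⟩
  have hN : 1 ≤ ⌊z⌋₊ := Nat.le_floor (by simpa using hz)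
  have hz1 : (⌊z⌋₊ : ℝ) ≤ z := Nat.floor_le (by linarith only [hz])
  have hz2 : z < ⌊z⌋₊ + 1 := Nat.lt_floor_add_one z
  generalize ⌊z⌋₊ = N at *
  have hN' : (1 : ℝ) ≤ N := by exact_mod_cast hN
  have a1 : log N ≤ log z := log_le_log (by linarith only [hz, hz2]) hz1
  have a2 : log z ≤ log 2 + log N := by
    rw [← log_mul (by norm_num) (by linarith)]
    exact log_le_log (by linarith) (by linarith)
  have b1 : N * log N - N ≤ log (N.factorial : ℝ) := by
    have := log_le_log (by positivity) (Real.pow_div_factorial_le_exp (N : ℝ) (by linarith) N)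
    rw [log_exp, log_div (by positivity) (by positivity), log_pow] at this
    linarith
  have b2 : log (N.factorial : ℝ) ≤ N * log N := by
    rw [← log_pow]
    exact log_le_log (by positivity) (by exact_mod_cast N.factorial_le_pow)
  have hθ : ∑ p ∈ (Icc 1 N).filter Nat.Prime, log (p : ℝ) ≤ log 4 * N := by
    have := Chebyshev.theta_le_log4_mul_x (x := N) (by linarith only [hz, hz2])
    rw [Chebyshev.theta, Nat.floor_natCast] at this
    exact this
  have hq := sum_log_div_sq ((Icc 1 N).filter Nat.Prime)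
  have hl : ∀ p : ℕ, 0 ≤ log (p : ℝ) := fun p => log_natCast_nonneg p
  set S := ∑ p ∈ (Icc 1 N).filter Nat.Prime, log (p : ℝ) / p with hS
  have c1 : N * S - log 4 * N ≤ log (N.factorial : ℝ) := by
    rw [prb_fact]
    refine le_trans ?_ (sum_le_sum fun p hp =>
      mul_le_mul_of_nonneg_right (prb_val (mem_filter.1 hp).2).1 (hl p))
    rw [hS, mul_sum]
    refine (sub_le_sub_left hθ _).trans (le_of_eq ?_)
    rw [← sum_sub_distrib]
    exact sum_congr rfl fun p _ => by ring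
  have c2 : log (N.factorial : ℝ) ≤ N * S + 2 * N * 6 := by
    rw [prb_fact]
    refine (sum_le_sum fun p hp =>
      mul_le_mul_of_nonneg_right (prb_val (mem_filter.1 hp).2).2 (hl p)).trans ?_
    refine le_trans (le_of_eq ?_) (add_le_add le_rfl
      (mul_le_mul_of_nonneg_left hq (show (0 : ℝ) ≤ 2 * N by linarith only [hz, hz2])))
    rw [hS, mul_sum, mul_sum, ← sum_add_distrib]
    exact sum_congr rfl fun p _ => by ring
  have d1 : S ≤ log N + log 4 := le_of_mul_le_mul_left (a := (N : ℝ)) (by linarith only [b2, c1]) (by linarith only [hz, hz2])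
  have d2 : log N - 13 ≤ S := le_of_mul_le_mul_left (a := (N : ℝ)) (by linarith only [b1, c2]) (by linarith only [hz, hz2])
  have e2 : 0 ≤ log (2 : ℝ) := log_nonneg (by norm_num)
  have e4 : 0 ≤ log (4 : ℝ) := log_nonneg (by norm_num)
  rw [abs_le]
  constructor <;> linarith only [a2, d2, e4, a1, d1]

theorem pr_eq (b : ℕ) : PR 0 b = (Icc 1 b).filter Nat.Prime := rfl

theorem pr_sub {a b : ℕ} (h : a ≤ b) (f : ℕ → ℝ) :
    ∑ q ∈ PR a b, f q = ∑ q ∈ PR 0 b, f q - ∑ q ∈ PR 0 a, f q := by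
  simp only [PR, sum_filter]
  rw [← sum_Ioc_consecutive _ (Nat.zero_le a) h]
  ring

theorem shift {q : ℕ} (hq : 2 ≤ q) :
    log q / ((q : ℝ) - 1) ≤ log q / q + 2 * (log q / (q : ℝ) ^ 2) := by
  have h2 : (2 : ℝ) ≤ q := by exact_mod_cast hq
  have h0 : 0 ≤ log (q : ℝ) := log_natCast_nonneg q
  have h5 : log q / q + 2 * (log q / (q : ℝ) ^ 2) = log q * (q + 2) / (q : ℝ) ^ 2 := by
    field_simp
  rw [h5, div_le_div_iff₀ (by linarith) (by positivity)]
  nlinarith [mul_nonneg h0 (show (0 : ℝ) ≤ q - 2 by linarith)]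

end ME1y

theorem me1 : ME1 := by
  obtain ⟨C, hC⟩ := ME1y.mertens
  have key : ∀ b : ℕ, 1 ≤ b → |∑ q ∈ PR 0 b, Real.log q / q - Real.log b| ≤ C := fun b hb => by
    have h := hC b (by exact_mod_cast hb)
    rwa [Nat.floor_natCast] at h
  have h0 : 0 ≤ C := (abs_nonneg _).trans (key 1 le_rfl)
  refine ⟨2 * C + 12, by linarith, fun a b ha hab => ?_⟩
  have h1 := abs_le.1 (key a ha)
  have h2 := abs_le.1 (key b (ha.trans hab))
  constructor
  · rw [ME1y.pr_sub hab, abs_le]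
    constructor <;> linarith [h1.1, h1.2, h2.1, h2.2]
  · have h3 : ∑ q ∈ PR 0 b, Real.log q / ((q : ℝ) - 1) ≤
        ∑ q ∈ PR 0 b, (Real.log q / q + 2 * (Real.log q / (q : ℝ) ^ 2)) :=
      sum_le_sum fun q hq => ME1y.shift (mem_filter.1 hq).2.two_le
    rw [sum_add_distrib, ← mul_sum] at h3
    have h4 := ME1y.sum_log_div_sq (PR 0 b)
    linarith [h2.2]

end Pool.Agent.MP_fc7299_nt.AP

end

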