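import Pool.Agent.MP_fc7299_nt.AP.Defs

section
namespace Pool.Agent.MP_fc7299_nt.AP

open Finset Filter

namespace SHx

theorem per {φ : ℕ → ℝ} {d : ℕ} (h : Function.Periodic φ d) (a x : ℕ) : φ (d * a + x) = φ x := by
  induction a with
  | zero => simp
  | succ a ih => rw [show d * (a + 1) + x = d * a + x + d by ring, h, ih]

theorem sum_per {φ : ℕ → ℝ} {d : ℕ} (h : Function.Periodic φ d) (a b : ℕ) :
    ∑ t ∈ range (d * a + b), φ t = a * ∑ t ∈ range d, φ t + ∑ t ∈ range b, φ t := by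
  have h1 : ∀ a : ℕ, ∑ t ∈ range (d * a), φ t = a * ∑ t ∈ range d, φ t := fun a => by
    induction a with
    | zero => simp
    | succ a ih =>
      rw [Nat.mul_succ, sum_range_add, ih, sum_congr rfl fun x _ => per h a x]
      push_cast
      ring
  rw [sum_range_add, h1, sum_congr rfl fun x _ => per h a x]

theorem abs_sum {φ : ℕ → ℝ} {c : ℝ} (h : ∀ t, |φ t| ≤ c) (b : ℕ) :
    |∑ t ∈ range b, φ t| ≤ b * c :=
  (abs_sum_le_sum_abs _ _).trans (by simpa using sum_le_card_nsmul (range b) _ c fun t _ => h t)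

theorem per_of_dvd {φ : ℕ → ℝ} {d e : ℕ} (h : Function.Periodic φ d) (he : d ∣ e) :
    Function.Periodic φ e := fun x => by
  obtain ⟨a, rfl⟩ := he
  rw [add_comm, per h]

theorem base_mul {P : ℕ} (hP : 0 < P) {φ ψ : ℕ → ℝ} {d : ℕ} {c b : ℝ} (h1 : d ∣ P)
    (h2 : Function.Periodic φ d) (h3 : ∀ t, |φ t| ≤ c) (h : Sh P ψ b) :
    Sh P (fun t => φ t * ψ t) (d * c * b) := by
  have hc : 0 ≤ c := (abs_nonneg _).trans (h3 0)
  induction h with
  | base ψ e c' k1 k2 k3 =>
    have hc' : 0 ≤ c' := (abs_nonneg _).trans (k3 0)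
    refine (Sh.base (fun t => φ t * ψ t) (Nat.lcm d e) (c * c') (Nat.lcm_dvd h1 k1) (fun x => ?_)
      fun t => ?_).mono ?_
    · change φ _ * ψ _ = φ _ * ψ _
      rw [per_of_dvd h2 (Nat.dvd_lcm_left d e), per_of_dvd k2 (Nat.dvd_lcm_right d e)]
    · rw [abs_mul]
      exact mul_le_mul (h3 t) (k3 t) (abs_nonneg _) hc
    · have h4 : ((Nat.lcm d e : ℕ) : ℝ) ≤ d * e := by
        exact_mod_cast Nat.le_of_dvd
          (Nat.mul_pos (Nat.pos_of_dvd_of_pos h1 hP) (Nat.pos_of_dvd_of_pos k1 hP))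
          (Nat.lcm_dvd_mul d e)
      exact (mul_le_mul_of_nonneg_right h4 (mul_nonneg hc hc')).trans (le_of_eq (by ring))
  | add _ _ i1 i2 =>
    simp only [mul_add]
    exact i1.add i2
  | mono _ k i1 => exact i1.mono (mul_le_mul_of_nonneg_left k (mul_nonneg d.cast_nonneg hc))

end SHx

theorem sh1 : SH1 := by
  intro P T φ b hP h
  induction h with
  | base φ d c h1 h2 h3 =>
    obtain ⟨k, rfl⟩ := h1
    have hd : 0 < d := Nat.pos_of_mul_pos_right hP
    have hk : 0 < k := Nat.pos_of_mul_pos_left hP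
    have hd' : (0 : ℝ) < d := by exact_mod_cast hd
    have hk' : (0 : ℝ) < k := by exact_mod_cast hk
    have hc : 0 ≤ c := (abs_nonneg _).trans (h3 0)
    have e1 : E (d * k) φ = (∑ t ∈ range d, φ t) / d := by
      have := SHx.sum_per h2 k 0
      rw [add_zero, range_zero, sum_empty, add_zero] at this
      rw [E, this]
      push_cast
      field_simp
    obtain ⟨a, r, hr, rfl⟩ : ∃ a r, r < d ∧ T = d * a + r :=
      ⟨T / d, T % d, Nat.mod_lt _ hd, (Nat.div_add_mod T d).symm⟩
    have hr' : (r : ℝ) ≤ d := by exact_mod_cast hr.le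
    have e2 : (a : ℝ) * ∑ t ∈ range d, φ t + ∑ t ∈ range r, φ t -
        ((d * a + r : ℕ) : ℝ) * ((∑ t ∈ range d, φ t) / d) =
        ∑ t ∈ range r, φ t - r / d * ∑ t ∈ range d, φ t := by
      push_cast
      field_simp
      ring
    rw [e1, SHx.sum_per h2, e2]
    have h4 : (r : ℝ) / d ≤ 1 := (div_le_one hd').2 hr'
    have h5 : |(r : ℝ) / d * ∑ t ∈ range d, φ t| ≤ d * c := by
      rw [abs_mul, abs_of_nonneg (by positivity)]
      exact (mul_le_of_le_one_left (abs_nonneg _) h4).trans (SHx.abs_sum h3 d)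
    have h6 := (SHx.abs_sum h3 r).trans (mul_le_mul_of_nonneg_right hr' hc)
    exact (abs_sub _ _).trans (by linarith)
  | add _ _ i1 i2 =>
    rw [sum_add_distrib, E_add]
    rw [abs_le] at i1 i2 ⊢
    constructor <;> linarith [i1.1, i1.2, i2.1, i2.2]
  | mono _ k i1 => linarith

theorem sh2 : SH2 := by
  intro P φ ψ b c hP h h'
  induction h with
  | base φ d c' h1 h2 h3 => exact SHx.base_mul hP h1 h2 h3 h'
  | add _ _ i1 i2 =>
    simp only [add_mul]
    exact i1.add i2
  | mono _ k i1 => exact i1.mono (mul_le_mul_of_nonneg_right k h'.nonneg)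

theorem sh3 : SH3 := by
  intro P M c Q F D b φ hok hF hD hb h1 h2
  have hp : ∀ A ∈ F, ∀ q ∈ A, q.Prime := fun A hA q hq =>
    (hok.2.1 q (mem_powerset.1 (hF hA) hq)).1
  have hc : (#F : ℝ) ≤ D := by
    have h3 : #F ≤ #(Icc 1 ⌊D⌋₊) := by
      refine card_le_card_of_injOn (fun A => ∏ q ∈ A, q) (fun A hA => ?_) fun A hA A' hA' e => ?_
      · refine mem_coe.2 (mem_Icc.2 ⟨prod_pos fun q hq => (hp A hA q hq).pos, Nat.le_floor ?_⟩)
        exact (Nat.cast_prod _ _).le.trans (h1 A hA)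
      · rw [← Nat.primeFactors_prod (hp A hA), ← Nat.primeFactors_prod (hp A' hA')]
        exact congrArg Nat.primeFactors e
    rw [Nat.card_Icc, Nat.add_sub_cancel] at h3
    exact (Nat.cast_le.2 h3).trans (Nat.floor_le hD)
  refine (Sh.sum F (b := fun A => ((∏ q ∈ A, q : ℕ) : ℝ) * b) fun A hA =>
    Sh.base _ _ b (hok.mono (mem_powerset.1 (hF hA))).2.2 (B_per A M c (φ A))
      fun t => h2 A hA _).mono ?_
  refine (sum_le_card_nsmul F _ (D * b) fun A hA =>
    mul_le_mul_of_nonneg_right ((Nat.cast_prod _ _).le.trans (h1 A hA)) hb).trans ?_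
  rw [nsmul_eq_mul, mul_assoc]
  exact mul_le_mul_of_nonneg_right hc (mul_nonneg hD hb)

end Pool.Agent.MP_fc7299_nt.AP

end

section
namespace Pool.Agent.MP_fc7299_nt.AP

open Finset Filter

namespace INDx

theorem sum_per {φ : ℕ → ℝ} {d : ℕ} (h : Function.Periodic φ d) (k : ℕ) :
    ∑ t ∈ range (d * k), φ t = k * ∑ t ∈ range d, φ t := by
  induction k with
  | zero => simp
  | succ k ih =>
    rw [Nat.mul_succ, sum_range_add, ih]
    have e : ∀ t, φ (d * k + t) = φ t := fun t => by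
      have := h.nat_mul k t
      rw [Nat.cast_id] at this
      rw [add_comm, mul_comm, this]
    simp only [e]
    push_cast
    ring

theorem E_per {φ : ℕ → ℝ} {d P : ℕ} (hP : 0 < P) (hd : d ∣ P) (h : Function.Periodic φ d) :
    E P φ = E d φ := by
  obtain ⟨k, rfl⟩ := hd
  have hk : (k : ℝ) ≠ 0 := by
    have : k ≠ 0 := by
      rintro rfl
      simp at hP
    exact_mod_cast this
  rw [E, E, sum_per h]
  push_cast
  rw [mul_comm (d : ℝ) k, mul_div_mul_left _ _ hk]

theorem crt {φ ψ : ℕ → ℝ} {a b : ℕ} (ha : a ≠ 0) (hb : b ≠ 0) (hab : a.Coprime b)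
    (hφ : Function.Periodic φ a) (hψ : Function.Periodic ψ b) :
    ∑ t ∈ range (a * b), φ t * ψ t = (∑ i ∈ range a, φ i) * ∑ j ∈ range b, ψ j := by
  rw [sum_mul_sum, ← sum_product']
  refine sum_nbij' (fun t => (t % a, t % b)) (fun p => (Nat.chineseRemainder hab p.1 p.2 : ℕ))
    ?_ ?_ ?_ ?_ ?_
  · intro t _
    simp only [mem_product, mem_range]
    exact ⟨Nat.mod_lt _ (Nat.pos_of_ne_zero ha), Nat.mod_lt _ (Nat.pos_of_ne_zero hb)⟩
  · intro p _
    exact mem_range.2 (Nat.chineseRemainder_lt_mul hab _ _ ha hb)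
  · intro t ht
    have h := (Nat.chineseRemainder hab (t % a) (t % b)).2
    have h1 : (Nat.chineseRemainder hab (t % a) (t % b) : ℕ) ≡ t [MOD a * b] :=
      (Nat.modEq_and_modEq_iff_modEq_mul hab).1
        ⟨h.1.trans (Nat.mod_modEq _ _), h.2.trans (Nat.mod_modEq _ _)⟩
    exact Nat.ModEq.eq_of_lt_of_lt h1 (Nat.chineseRemainder_lt_mul hab _ _ ha hb) (mem_range.1 ht)
  · intro p hp
    simp only [mem_product, mem_range] at hp
    have h := (Nat.chineseRemainder hab p.1 p.2).2
    refine Prod.ext ?_ ?_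
    · exact Eq.trans h.1 (Nat.mod_eq_of_lt hp.1)
    · exact Eq.trans h.2 (Nat.mod_eq_of_lt hp.2)
  · intro t _
    simp only [hφ.map_mod_nat, hψ.map_mod_nat]

theorem ind_per (M q c : ℕ) :
    Function.Periodic (fun t => if q ∣ c + M * t then (1 : ℝ) else 0) q := fun t => by
  have e : q ∣ c + M * (t + q) ↔ q ∣ c + M * t := by
    rw [mul_add, ← add_assoc]
    exact (Nat.dvd_add_iff_left (dvd_mul_left q M)).symm
  simp only [e]

end INDx

theorem ind : IND := by
  intro P a b φ ψ hP hab hd hφ hψ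
  have h0 : a * b ≠ 0 := by
    intro h
    rw [h, zero_dvd_iff] at hd
    omega
  have ha : a ≠ 0 := left_ne_zero_of_mul h0
  have hb : b ≠ 0 := right_ne_zero_of_mul h0
  have h1 : Function.Periodic (fun t => φ t * ψ t) (a * b) := fun t => by
    have e1 := hφ.nat_mul b t
    have e2 := hψ.nat_mul a t
    rw [Nat.cast_id] at e1 e2
    rw [mul_comm b a] at e1
    simp only [e1, e2]
  rw [INDx.E_per hP hd h1, INDx.E_per hP ((dvd_mul_right a b).trans hd) hφ,
    INDx.E_per hP ((dvd_mul_left b a).trans hd) hψ, E, E, E, INDx.crt ha hb hab hφ hψ]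
  push_cast
  rw [div_mul_div_comm]

theorem pri : PRI := by
  intro P M q c hP hq hM hd
  rw [INDx.E_per hP hd (INDx.ind_per M q c), E]
  congr 1
  have := Fact.mk hq
  have hM0 : (M : ZMod q) ≠ 0 := fun h => hM ((ZMod.natCast_eq_zero_iff M q).1 h)
  have key : ∀ t : ℕ, q ∣ c + M * t ↔ (t : ZMod q) = -(c : ZMod q) / M := by
    intro t
    rw [← ZMod.natCast_eq_zero_iff, eq_div_iff hM0]
    push_cast
    constructor
    · intro h
      linear_combination h
    · intro h
      linear_combination h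
  rw [sum_eq_single (-(c : ZMod q) / M).val]
  · rw [if_pos]
    rw [key, ZMod.natCast_zmod_val]
  · intro t ht hne
    rw [if_neg]
    rw [key]
    intro h
    apply hne
    rw [← h, ZMod.val_natCast, Nat.mod_eq_of_lt (mem_range.1 ht)]
  · intro h
    exact absurd (mem_range.2 (ZMod.val_lt _)) h

theorem one (hIND : IND) (hPRI : PRI) : ONE := by
  intro P M c Q
  induction Q using Finset.induction_on with
  | empty =>
    intro u h
    simp only [B, filter_empty]
    rw [E_const h.1, EP_empty]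
  | insert q Q hq ih =>
    intro u h
    have hQ : Ok P M Q := h.mono (subset_insert _ _)
    have hqp := h.2.1 q (mem_insert_self _ _)
    have hs : Ok P M ({q} ∪ Q) := by rwa [← insert_eq]
    have hsp := hs.split (disjoint_singleton_left.2 hq)
    rw [prod_singleton] at hsp
    have hE : ∀ f : Finset ℕ → ℝ,
        E P (fun t => (if q ∣ c + M * t then (1 : ℝ) else 0) * f (B Q M c t)) =
          1 / (q : ℝ) * EP Q f := by
      intro f
      rw [hIND P q _ _ _ h.1 hsp.1 hsp.2 (INDx.ind_per M q c) (B_per Q M c f),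
        hPRI P M q c h.1 hqp.1 hqp.2 ((dvd_mul_right _ _).trans hsp.2), ih f hQ]
    have e : (fun t => u (B (insert q Q) M c t)) = fun t => (u (B Q M c t) -
        (if q ∣ c + M * t then (1 : ℝ) else 0) * u (B Q M c t)) +
        (if q ∣ c + M * t then (1 : ℝ) else 0) * u (insert q (B Q M c t)) := by
      funext t
      simp only [B, filter_insert]
      split_ifs <;> ring
    rw [e, E_add, E_sub, hE u, hE fun S => u (insert q S), ih u hQ, EP_insert hq]
    ring

theorem spl : SPL := by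
  intro Q Q'
  induction Q using Finset.induction_on with
  | empty =>
    intro u v _
    rw [empty_union, EP_empty, ← EP_smul]
    refine EP_congr fun S hS => ?_
    rw [inter_empty, inter_eq_left.2 hS]
  | insert q Q hq ih =>
    intro u v hd
    rw [disjoint_insert_left] at hd
    have hn : q ∉ Q ∪ Q' := fun h => (mem_union.1 h).elim hq hd.1
    rw [insert_union, EP_insert hn, EP_insert hq, add_mul, mul_assoc, mul_assoc, ← ih u v hd.2,
      ← ih (fun S => u (insert q S)) v hd.2]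
    congr 2
    · refine EP_congr fun S hS => ?_
      rw [inter_insert_of_notMem fun h => hn (hS h)]
    · refine EP_congr fun S _ => ?_
      rw [← insert_inter_distrib, insert_inter_of_notMem hd.1]

end Pool.Agent.MP_fc7299_nt.AP

end

section
namespace Pool.Agent.MP_fc7299_nt.AP

open Finset Filter

namespace TWOx

/-- the indicator of one class -/
noncomputable def chi (q M c t : ℕ) : ℝ := if q ∣ c + M * t then 1 else 0

theorem ins {Q : Finset ℕ} (q M c t : ℕ) (u : Finset ℕ → ℝ) :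
    u (B (insert q Q) M c t) =
      (1 - chi q M c t) * u (B Q M c t) + chi q M c t * u (insert q (B Q M c t)) := by
  rw [B, filter_insert, chi]
  split_ifs with h
  · rw [sub_self, zero_mul, zero_add, one_mul, B]
  · rw [sub_zero, zero_mul, add_zero, one_mul, B]

theorem chi_mul {q c c' : ℕ} (h : ¬ c ≡ c' [MOD q]) (M t : ℕ) :
    chi q M c t * chi q M c' t = 0 := by
  unfold chi
  split_ifs with h1 h2
  · exact absurd (Nat.ModEq.add_right_cancel' (M * t)
      ((Nat.modEq_zero_iff_dvd.2 h1).trans (Nat.modEq_zero_iff_dvd.2 h2).symm)) h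
  · exact mul_zero _
  · exact zero_mul _
  · exact zero_mul _

theorem chi_eq {q c c' : ℕ} (h : c ≡ c' [MOD q]) (M t : ℕ) : chi q M c' t = chi q M c t := by
  unfold chi
  simp only [(h.add_right (M * t)).dvd_iff dvd_rfl]

theorem chi_sq (q M c t : ℕ) : chi q M c t * chi q M c t = chi q M c t := by
  unfold chi
  split_ifs
  · exact mul_one _
  · exact mul_zero _

theorem zero (hIND : IND) (hPRI : PRI) {P M q : ℕ} {Q : Finset ℕ} (hq : q ∉ Q)
    (h : Ok P M (insert q Q)) (a c c' : ℕ) (f : Finset ℕ → Finset ℕ → ℝ) :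
    E P (fun t => (chi q M a t - 1 / (q : ℝ)) * f (B Q M c t) (B Q M c' t)) = 0 := by
  have h1 : Ok P M ({q} ∪ Q) := by rwa [← insert_eq]
  obtain ⟨s1, s2⟩ := h1.split (disjoint_singleton_left.2 hq)
  rw [prod_singleton] at s1 s2
  obtain ⟨p1, p2⟩ := h.2.1 q (mem_insert_self _ _)
  have e : E P (fun t => chi q M a t) = 1 / (q : ℝ) :=
    hPRI P M q a h.1 p1 p2 ((dvd_mul_right _ _).trans s2)
  rw [hIND P q _ (fun t => chi q M a t - 1 / (q : ℝ)) (fun t => f (B Q M c t) (B Q M c' t)) h.1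
    s1 s2 (fun t => ?_) (fun t => ?_), E_sub, E_const h.1, e, sub_self, zero_mul]
  · simp only [chi, mul_add, ← add_assoc, ← Nat.dvd_add_iff_left (dvd_mul_left q M)]
  · have a1 : B Q M c (t + ∏ q ∈ Q, q) = B Q M c t := B_per Q M c id t
    have a2 : B Q M c' (t + ∏ q ∈ Q, q) = B Q M c' t := B_per Q M c' id t
    simp only [a1, a2]

theorem em_nonneg (S : Finset ℕ) : 0 ≤ em S := by
  unfold em
  split_ifs
  · exact zero_le_one
  · exact le_rfl

end TWOx

open TWOx in
theorem two (hIND : IND) (hPRI : PRI) (hONE : ONE) : TWO := by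
  intro P M c c' Q u θ hQ θ0 hc
  induction Q using Finset.induction_on generalizing u with
  | empty =>
    simp only [B, filter_empty, EP_empty]
    rw [E_const hQ.1]
    nlinarith only [mul_nonneg θ0 (sq_nonneg (u ∅))]
  | insert q Q hq ih =>
    have hQ' := hQ.mono (subset_insert q Q)
    obtain ⟨c1, c2⟩ := hc q (mem_insert_self _ _)
    have q2 : (2 : ℝ) ≤ q := by exact_mod_cast hQ.two q (mem_insert_self _ _)
    have z := zero hIND hPRI hq hQ
    rw [EP_insert hq, EP_insert hq]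
    have hp : (1 / (q : ℝ)) ^ 2 ≤ θ * (1 / q * (1 - 1 / q)) := by
      refine le_trans (le_of_eq ?_) (mul_le_mul_of_nonneg_right c2
        (mul_nonneg (by positivity) (one_sub_nonneg (hQ.two q (mem_insert_self _ _)))))
      have : (q : ℝ) - 1 ≠ 0 := ne_of_gt (by linarith only [q2])
      have : (q : ℝ) ≠ 0 := ne_of_gt (by linarith only [q2])
      field_simp
    generalize 1 / (q : ℝ) = p at z hp ⊢
    have h1 := ih (fun S => (1 - p) * u S + p * u (insert q S)) hQ'
      fun r hr => hc r (mem_insert_of_mem hr)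
    have h2 := fun a => hONE P M a Q (fun S => (u S - u (insert q S)) ^ 2) hQ'
    have h3 : EP Q (fun S => ((1 - p) * u S + p * u (insert q S)) ^ 2) +
        p * (1 - p) * EP Q (fun S => (u S - u (insert q S)) ^ 2) =
        (1 - p) * EP Q (fun S => u S ^ 2) + p * EP Q fun S => u (insert q S) ^ 2 := by
      rw [← EP_smul, ← EP_smul, ← EP_smul, ← EP_add, ← EP_add]
      exact EP_congr fun S _ => by ring
    have h4 : 0 ≤ EP Q (fun S => (u S - u (insert q S)) ^ 2) :=
      (EP_const Q 0).ge.trans (EP_mono hQ'.two fun S _ => sq_nonneg _)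
    rw [EP_add, EP_smul, EP_smul] at h1
    have h5 := E_mono P (φ := fun t => u (B (insert q Q) M c t) * u (B (insert q Q) M c' t))
      (ψ := fun t => ((1 - p) * u (B Q M c t) + p * u (insert q (B Q M c t))) *
          ((1 - p) * u (B Q M c' t) + p * u (insert q (B Q M c' t))) +
        p ^ 2 / 2 * (u (B Q M c t) - u (insert q (B Q M c t))) ^ 2 +
        p ^ 2 / 2 * (u (B Q M c' t) - u (insert q (B Q M c' t))) ^ 2 +
        (chi q M c t - p) * ((u (insert q (B Q M c t)) - u (B Q M c t)) * u (B Q M c' t)) +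
        (chi q M c' t - p) * (u (B Q M c t) * (u (insert q (B Q M c' t)) - u (B Q M c' t))))
      fun t => by
        have e := chi_mul c1 M t
        rw [ins q M c t u, ins q M c' t u]
        generalize chi q M c t = x at e ⊢
        generalize chi q M c' t = x' at e ⊢
        generalize u (B Q M c t) = a
        generalize u (B Q M c' t) = a'
        generalize u (insert q (B Q M c t)) = b
        generalize u (insert q (B Q M c' t)) = b'
        have e1 : x * x' * ((a - b) * (a' - b')) = 0 := by rw [e, zero_mul]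
        linarith only [e1, sq_nonneg (p * ((a - b) + (a' - b')))]
    rw [E_add, E_add, E_add, E_add, E_smul, E_smul, h2, h2,
      z c c c' fun S S' => (u (insert q S) - u S) * u S',
      z c' c c' fun S S' => u S * (u (insert q S') - u S')] at h5
    rw [← h3]
    linarith only [h1, h5, mul_le_mul_of_nonneg_right hp h4]

open TWOx in
theorem rr (hIND : IND) (hPRI : PRI) : RR := by
  intro P M c c' Q hQ
  induction Q using Finset.induction_on with
  | empty =>
    simp only [B, filter_empty, V, H, prod_empty]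
    rw [E_const hQ.1]
    simp [em]
  | insert q Q hq ih =>
    have h1 := ih (hQ.mono (subset_insert q Q))
    have q2 : (2 : ℝ) ≤ q := by exact_mod_cast hQ.two q (mem_insert_self _ _)
    have z := fun a => zero hIND hPRI hq hQ a c c' fun S S' => em S * em S'
    have p1 : 0 < 1 - 1 / (q : ℝ) := by
      rw [sub_pos, div_lt_one (by linarith only [q2])]
      linarith only [q2]
    have e0 : ∀ S, em (insert q S) = 0 := fun S => if_neg (insert_ne_empty q S)
    have g0 : ∀ t, 0 ≤ em (B Q M c t) * em (B Q M c' t) := fun t =>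
      mul_nonneg (em_nonneg _) (em_nonneg _)
    rw [V, prod_insert hq, H, filter_insert]
    split_ifs with hc
    · rw [prod_insert fun h => hq (mem_filter.1 h).1]
      generalize 1 / (q : ℝ) = p at z p1 ⊢
      have h5 := E_mono P (φ := fun t => em (B (insert q Q) M c t) * em (B (insert q Q) M c' t))
        (ψ := fun t => (1 - p) * (em (B Q M c t) * em (B Q M c' t)) -
          (chi q M c t - p) * (em (B Q M c t) * em (B Q M c' t))) fun t => by
          have e := chi_sq q M c t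
          rw [ins q M c t em, ins q M c' t em, e0, e0, chi_eq hc]
          have e1 := congrArg (· * (em (B Q M c t) * em (B Q M c' t))) e
          linarith only [e1]
      rw [E_sub, E_smul, z, sub_zero] at h5
      refine h5.trans ((mul_le_mul_of_nonneg_left h1 p1.le).trans_eq ?_)
      rw [V, H]
      field_simp
    · generalize 1 / (q : ℝ) = p at z p1 ⊢
      have h5 := E_mono P (φ := fun t => em (B (insert q Q) M c t) * em (B (insert q Q) M c' t))
        (ψ := fun t => (1 - p) ^ 2 * (em (B Q M c t) * em (B Q M c' t)) -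
          (chi q M c t - p) * (em (B Q M c t) * em (B Q M c' t)) -
          (chi q M c' t - p) * (em (B Q M c t) * em (B Q M c' t))) fun t => by
          have e := chi_mul hc M t
          rw [ins q M c t em, ins q M c' t em, e0, e0]
          have e1 := congrArg (· * (em (B Q M c t) * em (B Q M c' t))) e
          linarith only [e1, mul_nonneg (sq_nonneg p) (g0 t)]
      rw [E_sub, E_sub, E_smul, z, z, sub_zero, sub_zero] at h5
      refine h5.trans ((mul_le_mul_of_nonneg_left h1 (sq_nonneg _)).trans_eq ?_)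
      rw [V, H]
      ring

end Pool.Agent.MP_fc7299_nt.AP

end

section
namespace Pool.Agent.MP_fc7299_nt.AP

open Finset Filter

-- helper lemmas: put them in namespace SELAx (prefix SELAx.)

namespace SELAx

theorem ins {U : Finset ℕ} {q : ℕ} (hq : q ∉ U) (a : Finset ℕ → ℝ) (f : ℕ → ℝ) :
    ∑ A ∈ (insert q U).powerset, a A * ∏ p ∈ A, f p = ∑ A ∈ U.powerset, a A * ∏ p ∈ A, f p +
      f q * ∑ A ∈ U.powerset, a (insert q A) * ∏ p ∈ A, f p := by
  rw [sum_powerset_insert hq, mul_sum]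
  refine congrArg _ (sum_congr rfl fun A hA => ?_)
  rw [prod_insert fun h => hq (mem_powerset.1 hA h)]
  ring

theorem eta_ins {U : Finset ℕ} {q : ℕ} (hq : q ∉ U) (a : Finset ℕ → ℝ) (S : Finset ℕ) :
    ∑ A ∈ U.powerset, a A * ∏ p ∈ A, eta p (insert q S) =
      ∑ A ∈ U.powerset, a A * ∏ p ∈ A, eta p S := by
  refine sum_congr rfl fun A hA => congrArg _ (prod_congr rfl fun p hp => ?_)
  have h : p ≠ q := fun e => hq (e ▸ mem_powerset.1 hA hp)
  simp only [eta, mem_insert, h, false_or]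

theorem g_nonneg {A : Finset ℕ} (h : ∀ q ∈ A, 2 ≤ q) : 0 ≤ ∏ q ∈ A, 1 / ((q : ℝ) - 1) :=
  prod_nonneg fun q hq => by
    have : (2 : ℝ) ≤ q := by exact_mod_cast h q hq
    exact one_div_nonneg.2 (by linarith)

theorem g_mono {U U' : Finset ℕ} (h : ∀ q ∈ U, 2 ≤ q) (hU : U' ⊆ U) :
    ∑ A ∈ U'.powerset, ∏ q ∈ A, 1 / ((q : ℝ) - 1) ≤ ∑ A ∈ U.powerset, ∏ q ∈ A, 1 / ((q : ℝ) - 1) :=
  sum_le_sum_of_subset_of_nonneg (powerset_mono.2 hU) fun _ hA _ =>
    g_nonneg fun q hq => h q (mem_powerset.1 hA hq)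

theorem g_mem {U : Finset ℕ} (h : ∀ q ∈ U, 2 ≤ q) {q : ℕ} (hq : q ∈ U) :
    ∑ A ∈ U.powerset, (if q ∈ A then 1 else 0) * ∏ p ∈ A, 1 / ((p : ℝ) - 1) ≤
      1 / ((q : ℝ) - 1) * ∑ A ∈ U.powerset, ∏ p ∈ A, 1 / ((p : ℝ) - 1) := by
  have q2 : (2 : ℝ) ≤ q := by exact_mod_cast h q hq
  have e := ins (notMem_erase q U) (fun A => if q ∈ A then 1 else 0) fun p => 1 / ((p : ℝ) - 1)
  rw [insert_erase hq] at e
  rw [e, sum_eq_zero fun A hA => by
    rw [if_neg fun h' => notMem_erase q U (mem_powerset.1 hA h'), zero_mul], zero_add]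
  simp only [mem_insert_self, if_true, one_mul]
  exact mul_le_mul_of_nonneg_left (g_mono h (erase_subset q U)) (one_div_nonneg.2 (by linarith))

theorem main {U : Finset ℕ} {Λ : ℝ} (h : ∀ q ∈ U, 2 ≤ q) (L0 : 0 < Λ)
    (L2 : ∑ q ∈ U, Real.log q / ((q : ℝ) - 1) ≤ Λ / 4) :
    (∑ A ∈ U.powerset, ∏ q ∈ A, 1 / ((q : ℝ) - 1)) / 2 ≤
      ∑ A ∈ U.powerset, psi Λ A ^ 2 * ∏ q ∈ A, 1 / ((q : ℝ) - 1) := by
  obtain ⟨G, hG⟩ : ∃ G, G = ∑ A ∈ U.powerset, ∏ q ∈ A, 1 / ((q : ℝ) - 1) := ⟨_, rfl⟩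
  have G0 : 0 ≤ G := hG ▸ sum_nonneg fun A hA => g_nonneg fun q hq => h q (mem_powerset.1 hA hq)
  have h1 : ∑ A ∈ U.powerset, (∑ q ∈ A, Real.log q) * ∏ p ∈ A, 1 / ((p : ℝ) - 1) ≤ Λ / 4 * G := by
    have e : ∑ A ∈ U.powerset, (∑ q ∈ A, Real.log q) * ∏ p ∈ A, 1 / ((p : ℝ) - 1) =
        ∑ q ∈ U, Real.log q *
          ∑ A ∈ U.powerset, (if q ∈ A then 1 else 0) * ∏ p ∈ A, 1 / ((p : ℝ) - 1) := by
      simp only [mul_sum]
      rw [sum_comm]
      refine sum_congr rfl fun A hA => ?_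
      simp only [← mul_assoc, ← sum_mul, mul_ite, mul_one, mul_zero]
      rw [sum_ite_mem, inter_eq_right.2 (mem_powerset.1 hA)]
    rw [e]
    refine le_trans (sum_le_sum fun q hq => mul_le_mul_of_nonneg_left (g_mem h hq)
      (Real.log_natCast_nonneg q)) ?_
    rw [← hG]
    refine le_trans (le_of_eq ?_) (mul_le_mul_of_nonneg_right L2 G0)
    rw [sum_mul]
    exact sum_congr rfl fun q _ => by ring
  have h2 : ∑ A ∈ U.powerset, (1 - 2 / Λ * ∑ q ∈ A, Real.log q) * ∏ p ∈ A, 1 / ((p : ℝ) - 1) ≤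
      ∑ A ∈ U.powerset, psi Λ A ^ 2 * ∏ q ∈ A, 1 / ((q : ℝ) - 1) := by
    refine sum_le_sum fun A hA => mul_le_mul_of_nonneg_right ?_
      (g_nonneg fun q hq => h q (mem_powerset.1 hA hq))
    rw [psi, show 2 / Λ * ∑ q ∈ A, Real.log q = 2 * ((∑ q ∈ A, Real.log q) / Λ) by ring]
    generalize (∑ q ∈ A, Real.log q) / Λ = x
    rcases le_total 0 (1 - x) with k | k
    · rw [max_eq_right k]; nlinarith [sq_nonneg x]
    · rw [max_eq_left k]; linarith
  simp only [sub_mul, one_mul, sum_sub_distrib, mul_assoc, ← mul_sum] at h2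
  rw [← hG] at h2 ⊢
  have h3 := mul_le_mul_of_nonneg_left h1 (show 0 ≤ 2 / Λ by positivity)
  rw [show 2 / Λ * (Λ / 4 * G) = G / 2 by field_simp; ring] at h3
  linarith

theorem psi_diff {Λ : ℝ} (L0 : 0 < Λ) {A : Finset ℕ} {q : ℕ} (hq : q ∉ A) :
    (psi Λ A - psi Λ (insert q A)) ^ 2 ≤ (Real.log q / Λ) ^ 2 := by
  have l0 : 0 ≤ Real.log q / Λ := div_nonneg (Real.log_natCast_nonneg q) L0.le
  rw [psi, psi, sum_insert hq, add_div]
  generalize (∑ q ∈ A, Real.log q) / Λ = x
  generalize Real.log q / Λ = y at *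
  refine sq_le_sq' ?_ ?_
  · have := max_le_max (le_refl (0 : ℝ)) (show 1 - (y + x) ≤ 1 - x by linarith)
    linarith
  · have a1 := le_max_left 0 (1 - (y + x))
    have a2 := le_max_right 0 (1 - (y + x))
    have := max_le (show 0 ≤ max 0 (1 - (y + x)) + y by linarith)
      (show 1 - x ≤ max 0 (1 - (y + x)) + y by linarith)
    linarith

theorem one (hORT : ORT) {U : Finset ℕ} {Λ : ℝ} (h : ∀ q ∈ U, 2 ≤ q) (L0 : 0 < Λ) {q : ℕ}
    (hq : q ∈ U) (L1 : Real.log q ≤ Λ) :
    EP U (fun S => sw U Λ S ^ 2 * if q ∈ S then 1 else 0) ≤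
      Real.log q / ((q : ℝ) - 1) * ((∑ A ∈ U.powerset, ∏ p ∈ A, 1 / ((p : ℝ) - 1)) / Λ) := by
  have q2 : (2 : ℝ) ≤ q := by exact_mod_cast h q hq
  have n := notMem_erase q U
  have h' : ∀ p ∈ U.erase q, 2 ≤ p := fun p hp => h p (mem_of_mem_erase hp)
  have e := EP_insert n fun S => sw U Λ S ^ 2 * if q ∈ S then 1 else 0
  rw [insert_erase hq] at e
  have e0 : EP (U.erase q) (fun S => sw U Λ S ^ 2 * if q ∈ S then 1 else 0) = 0 :=
    (EP_congr fun S hS => by rw [if_neg fun k => n (hS k), mul_zero]).trans (EP_const _ 0)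
  have e1 : EP (U.erase q) (fun S => sw U Λ (insert q S) ^ 2 * if q ∈ insert q S then 1 else 0) =
      ∑ A ∈ (U.erase q).powerset, (psi Λ A - psi Λ (insert q A)) ^ 2 *
        ∏ p ∈ A, 1 / ((p : ℝ) - 1) := by
    rw [← hORT (U.erase q) (fun A => psi Λ A - psi Λ (insert q A)) h']
    refine EP_congr fun S _ => ?_
    have k := ins n (psi Λ) fun p => eta p (insert q S)
    rw [insert_erase hq, eta_ins n, eta_ins n, show eta q (insert q S) = -1 by simp [eta]] at k
    rw [if_pos (mem_insert_self q S), mul_one, sw, k]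
    simp only [sub_mul, sum_sub_distrib]
    ring
  have G1 := g_mono h (erase_subset q U)
  have G0 : 0 ≤ ∑ A ∈ (U.erase q).powerset, ∏ p ∈ A, 1 / ((p : ℝ) - 1) :=
    sum_nonneg fun A hA => g_nonneg fun p hp => h' p (mem_powerset.1 hA hp)
  have e2 : ∑ A ∈ (U.erase q).powerset, (psi Λ A - psi Λ (insert q A)) ^ 2 *
      ∏ p ∈ A, 1 / ((p : ℝ) - 1) ≤ (Real.log q / Λ) ^ 2 *
        ∑ A ∈ (U.erase q).powerset, ∏ p ∈ A, 1 / ((p : ℝ) - 1) := by
    rw [mul_sum]
    exact sum_le_sum fun A hA => mul_le_mul_of_nonneg_right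
      (psi_diff L0 fun k => n (mem_powerset.1 hA k))
      (g_nonneg fun p hp => h' p (mem_powerset.1 hA hp))
  rw [e, e0, e1, mul_zero, zero_add]
  generalize ∑ A ∈ U.powerset, ∏ p ∈ A, 1 / ((p : ℝ) - 1) = G at *
  generalize ∑ A ∈ (U.erase q).powerset, ∏ p ∈ A, 1 / ((p : ℝ) - 1) = G' at *
  have l0 : 0 ≤ Real.log q / Λ := div_nonneg (Real.log_natCast_nonneg q) L0.le
  have l1 : Real.log q / Λ ≤ 1 := (div_le_one L0).2 L1
  have l2 : (Real.log q / Λ) ^ 2 * G' ≤ Real.log q / Λ * G :=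
    mul_le_mul (by nlinarith) G1 G0 l0
  have l3 : 1 / (q : ℝ) ≤ 1 / ((q : ℝ) - 1) := one_div_le_one_div_of_le (by linarith) (by linarith)
  refine (mul_le_mul_of_nonneg_left (e2.trans l2) (by positivity)).trans
    ((mul_le_mul_of_nonneg_right l3 (mul_nonneg l0 (G0.trans G1))).trans (le_of_eq ?_))
  ring

end SELAx

theorem ort : ORT := by
  intro U
  induction U using Finset.induction_on with
  | empty => intro a _; simp [EP_empty]
  | insert q U hq ih =>
    intro a h
    have h' : ∀ p ∈ U, 2 ≤ p := fun p hp => h p (mem_insert_of_mem hp)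
    have q2 : (2 : ℝ) ≤ q := by exact_mod_cast h q (mem_insert_self q U)
    rw [EP_insert hq, SELAx.ins hq (fun A => a A ^ 2), ← ih a h',
      ← ih (fun A => a (insert q A)) h', ← EP_smul, ← EP_smul, ← EP_smul, ← EP_add, ← EP_add]
    refine EP_congr fun S hS => ?_
    have e1 : eta q S = 1 / ((q : ℝ) - 1) := if_neg fun k => hq (hS k)
    have e2 : eta q (insert q S) = -1 := if_pos (mem_insert_self q S)
    rw [SELAx.ins hq, SELAx.ins hq, SELAx.eta_ins hq, SELAx.eta_ins hq, e1, e2]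
    have n0 : (q : ℝ) ≠ 0 := by linarith
    have n1 : (q : ℝ) - 1 ≠ 0 := by linarith
    generalize ∑ A ∈ U.powerset, a A * ∏ p ∈ A, eta p S = x
    generalize ∑ A ∈ U.powerset, a (insert q A) * ∏ p ∈ A, eta p S = y
    field_simp
    ring

theorem sel1 (hORT : ORT) : SEL1 := by
  intro U Λ h L0 L1 L2
  have e : EP U (w U Λ) = EP U (fun S => sw U Λ S ^ 2) -
      ∑ q ∈ U, EP U (fun S => sw U Λ S ^ 2 * if q ∈ S then 1 else 0) := by
    rw [← EP_sum, ← EP_sub]
    refine EP_congr fun S hS => ?_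
    rw [w, ← mul_sum, sum_ite_mem, inter_eq_right.2 hS, sum_const, nsmul_eq_mul, mul_one]
    ring
  have a1 := SELAx.main h L0 L2
  rw [← hORT U (psi Λ) h] at a1
  have a2 := sum_le_sum fun q hq => SELAx.one hORT h L0 hq (L1 q hq)
  rw [← sum_mul] at a2
  have G1 : 1 ≤ ∑ A ∈ U.powerset, ∏ p ∈ A, 1 / ((p : ℝ) - 1) := by
    simpa using SELAx.g_mono h (empty_subset U)
  generalize ∑ A ∈ U.powerset, ∏ p ∈ A, 1 / ((p : ℝ) - 1) = G at *
  have a3 := mul_le_mul_of_nonneg_right L2 (show 0 ≤ G / Λ by positivity)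
  rw [show Λ / 4 * (G / Λ) = G / 4 by field_simp] at a3
  have a4 : G / 2 ≤ EP U (fun S => sw U Λ S ^ 2) := a1
  rw [e]
  linarith

end Pool.Agent.MP_fc7299_nt.AP

end

section
namespace Pool.Agent.MP_fc7299_nt.AP

open Finset Filter

namespace TRx

theorem inv (S : Finset ℕ) : ∀ f : Finset ℕ → ℝ,
    ∑ A ∈ S.powerset, ∑ T ∈ A.powerset, (-1 : ℝ) ^ (A \ T).card * f T = f S := by
  induction S using Finset.induction_on with
  | empty => intro f; simp
  | insert q S hq ih =>
    intro f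
    rw [sum_powerset_insert hq, ← sum_add_distrib, ← ih fun T => f (insert q T)]
    refine sum_congr rfl fun A hA => ?_
    have h : q ∉ A := fun h => hq (mem_powerset.1 hA h)
    rw [sum_powerset_insert h, ← add_assoc, ← sum_add_distrib, sum_eq_zero, zero_add]
    · refine sum_congr rfl fun T _ => ?_
      rw [insert_sdiff_insert, sdiff_insert_of_notMem h]
    · intro T hT
      have h' : q ∉ T := fun h' => h (mem_powerset.1 hT h')
      rw [insert_sdiff_of_notMem _ h', card_insert_of_notMem fun e => h (Finset.mem_sdiff.1 e).1]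
      ring

theorem mob_le {f : Finset ℕ → ℝ} (hf : ∀ S, |f S| ≤ 1) (A : Finset ℕ) :
    |∑ T ∈ A.powerset, (-1 : ℝ) ^ (A \ T).card * f T| ≤ 2 ^ A.card := by
  refine (abs_sum_le_sum_abs _ _).trans ((sum_le_card_nsmul _ _ 1 fun T _ => ?_).trans ?_)
  · rw [abs_mul, abs_pow, abs_neg, abs_one, one_pow, one_mul]
    exact hf T
  · simp

theorem tr_le {f : Finset ℕ → ℝ} (hf : ∀ S, |f S| ≤ 1) (k : ℕ) (S : Finset ℕ) :
    |tr k f S| ≤ 3 ^ S.card := by
  refine (abs_sum_le_sum_abs _ _).trans ((sum_le_sum fun A _ => mob_le hf A).trans ?_)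
  refine (sum_le_sum_of_subset_of_nonneg (filter_subset _ _) fun _ _ _ => by positivity).trans ?_
  have h := Finset.sum_pow_mul_eq_add_pow (2 : ℝ) 1 S
  simp only [one_pow, mul_one] at h
  rw [h]
  norm_num

theorem prod_le (Q : Finset ℕ) {a : ℝ} (ha : 0 ≤ a) :
    ∏ q ∈ Q, (1 + a * (1 / (q : ℝ))) ≤ Real.exp (a * lam Q) := by
  rw [lam, mul_sum, Real.exp_sum]
  exact prod_le_prod (fun q _ => by positivity) fun q _ => by
    linarith [Real.add_one_le_exp (a * (1 / (q : ℝ)))]

theorem full {A Q : Finset ℕ} (h : A ⊆ Q) (M c t : ℕ) : B A M c t = A ↔ A ⊆ B Q M c t := by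
  rw [← B_inter h, inter_eq_right]

theorem prod_y {Q A : Finset ℕ} {y : ℝ} {k : ℕ} (hy : 1 ≤ y) (hQ : ∀ q ∈ Q, (q : ℝ) ≤ y)
    (hA : A ⊆ Q) (hk : A.card ≤ k) : ∏ q ∈ A, (q : ℝ) ≤ y ^ k := by
  refine (prod_le_prod (fun q _ => q.cast_nonneg) fun q hq => hQ q (hA hq)).trans ?_
  rw [prod_const]
  exact pow_le_pow_right₀ hy hk

end TRx

theorem tr1 : TR1 := by
  intro k f S hS
  rw [tr, filter_true_of_mem fun A hA => (card_le_card (mem_powerset.1 hA)).trans hS]
  exact TRx.inv S f

theorem tr2 (hTR1 : TR1) : TR2 := by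
  intro k f Q hQ hf
  have h1 : ∀ S ⊆ Q, (tr k f S - f S) ^ 2 ≤
      4 * (1 / 2) ^ k * ∏ q ∈ Q, if q ∈ S then (18 : ℝ) else 1 := fun S hS => by
    rw [prod_ite, filter_mem_eq_inter, inter_eq_right.2 hS, prod_const, prod_const_one, mul_one]
    rcases le_or_gt S.card k with h | h
    · rw [hTR1 k f S h, sub_self, zero_pow two_ne_zero]
      positivity
    · have a1 := abs_le.1 (TRx.tr_le hf k S)
      have a2 := abs_le.1 (hf S)
      have a3 : (1 : ℝ) ≤ 3 ^ S.card := one_le_pow₀ (by norm_num)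
      have a4 : (tr k f S - f S) ^ 2 ≤ (2 * 3 ^ S.card) ^ 2 :=
        sq_le_sq' (by linarith) (by linarith)
      have a5 : (1 : ℝ) ≤ (1 / 2) ^ k * 2 ^ S.card := by
        rw [one_div, inv_pow, ← div_eq_inv_mul, one_le_div (by positivity)]
        exact pow_le_pow_right₀ one_le_two h.le
      have a6 : (18 : ℝ) ^ S.card = 2 ^ S.card * (3 ^ S.card) ^ 2 := by
        rw [← pow_mul, mul_comm S.card 2, pow_mul, ← mul_pow]
        norm_num
      rw [a6]
      nlinarith [mul_le_mul_of_nonneg_right a5 (sq_nonneg ((3 : ℝ) ^ S.card))]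
  refine (EP_mono hQ h1).trans ?_
  rw [EP_smul, EP_prod]
  refine mul_le_mul_of_nonneg_left (le_of_eq_of_le (prod_congr rfl fun q _ => ?_)
    (TRx.prod_le Q (by norm_num : (0 : ℝ) ≤ 17))) (by positivity)
  ring

theorem tr3 (hSH3 : SH3) : TR3 := by
  intro P M c k f Q y hok hy hQ hf
  have h := hSH3 P M c Q (Q.powerset.filter fun A => A.card ≤ k) (y ^ k) (2 ^ k)
    (fun A S => if S = A ∧ A.card ≤ k then ∑ T ∈ A.powerset, (-1 : ℝ) ^ (A \ T).card * f T else 0)
    hok (filter_subset _ _) (by positivity) (by positivity)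
    (fun A hA => TRx.prod_y hy hQ (mem_powerset.1 (mem_filter.1 hA).1) (mem_filter.1 hA).2)
    fun A _ S => by
      split_ifs with h
      · exact (TRx.mob_le hf A).trans (pow_le_pow_right₀ one_le_two h.2)
      · rw [abs_zero]; positivity
  have e : (2 * y ^ 2) ^ k = y ^ k * y ^ k * 2 ^ k := by
    rw [mul_pow, sq, mul_pow, mul_comm]
  have e2 : (fun t => tr k f (B Q M c t)) = fun t => ∑ A ∈ Q.powerset.filter fun A => A.card ≤ k,
      if B A M c t = A ∧ A.card ≤ k then ∑ T ∈ A.powerset, (-1 : ℝ) ^ (A \ T).card * f T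
      else 0 := by
    funext t
    rw [tr, ← sum_filter]
    refine sum_congr ?_ fun _ _ => rfl
    ext A
    simp only [mem_filter, mem_powerset]
    refine ⟨fun a => ?_, fun a => ⟨(TRx.full a.1.1 M c t).1 a.2.1, a.1.2⟩⟩
    have b : A ⊆ Q := a.1.trans (filter_subset _ _)
    exact ⟨⟨b, a.2⟩, (TRx.full b M c t).2 a.1, a.2⟩
  rw [e, e2]
  exact h

theorem tr4 (hSH1 : SH1) (hSH3 : SH3) (hONE : ONE) : TR4 := by
  intro P M c k T Q y hok hy hQ
  have hF : powersetCard (k + 1) Q ⊆ Q.powerset := fun A hA =>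
    mem_powerset.2 (mem_powersetCard.1 hA).1
  have h := hSH3 P M c Q (powersetCard (k + 1) Q) (y ^ (k + 1)) 1
    (fun A S => if S = A then 1 else 0) hok hF (by positivity) zero_le_one
    (fun A hA => TRx.prod_y hy hQ (mem_powersetCard.1 hA).1 (mem_powersetCard.1 hA).2.le)
    fun A _ S => by split_ifs <;> simp
  have h1 := (abs_le.1 (hSH1 P T _ _ hok.1 h)).2
  have h2 : (((range T).filter fun t => k < (B Q M c t).card).card : ℝ) ≤
      ∑ t ∈ range T, ∑ A ∈ powersetCard (k + 1) Q, if B A M c t = A then (1 : ℝ) else 0 := by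
    rw [card_filter, Nat.cast_sum]
    refine sum_le_sum fun t _ => ?_
    have hp : ∀ A ∈ powersetCard (k + 1) Q, 0 ≤ if B A M c t = A then (1 : ℝ) else 0 :=
      fun A _ => by positivity
    split_ifs with ht
    · obtain ⟨A, hA, hk⟩ := exists_subset_card_eq (Nat.succ_le_of_lt ht)
      have b : A ⊆ Q := hA.trans (filter_subset _ _)
      have := single_le_sum hp (mem_powersetCard.2 ⟨b, hk⟩)
      rw [if_pos ((TRx.full b M c t).2 hA)] at this
      rwa [Nat.cast_one]
    · rw [Nat.cast_zero]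
      exact sum_nonneg hp
  have h3 : E P (fun t => ∑ A ∈ powersetCard (k + 1) Q, if B A M c t = A then (1 : ℝ) else 0) ≤
      (1 / 2) ^ k * Real.exp (2 * lam Q) := by
    rw [E_sum]
    have a1 : ∀ A ∈ powersetCard (k + 1) Q,
        E P (fun t => if B A M c t = A then (1 : ℝ) else 0) ≤
          (1 / 2) ^ k * ∏ q ∈ A, 2 * (1 / (q : ℝ)) := fun A hA => by
      rw [hONE P M c A (fun S => if S = A then 1 else 0) (hok.mono (mem_powersetCard.1 hA).1), EP,
        sum_eq_single A (fun S _ h => by simp [h]) (by simp), prod_mul_distrib, prod_const,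
        (mem_powersetCard.1 hA).2, if_pos rfl, sdiff_self, ← mul_assoc, pow_succ, ← mul_assoc,
        ← mul_pow]
      have : 0 ≤ ∏ q ∈ A, 1 / (q : ℝ) := prod_nonneg fun q _ => by positivity
      simp only [bot_eq_empty, prod_empty, mul_one]
      rw [show (1 / 2 * 2 : ℝ) = 1 by norm_num, one_pow]
      linarith
    refine (sum_le_sum a1).trans ?_
    rw [← mul_sum]
    refine mul_le_mul_of_nonneg_left ?_ (by positivity)
    refine (sum_le_sum_of_subset_of_nonneg hF fun A _ _ =>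
      prod_nonneg fun q _ => by positivity).trans ?_
    rw [← prod_one_add]
    exact TRx.prod_le Q zero_le_two
  have h4 := mul_le_mul_of_nonneg_left h3 T.cast_nonneg
  have e : y ^ (2 * k + 2) = y ^ (k + 1) * y ^ (k + 1) * 1 := by ring
  rw [e]
  linarith

end Pool.Agent.MP_fc7299_nt.AP

end

section
namespace Pool.Agent.MP_fc7299_nt.AP

open Finset Filter

namespace ESx

theorem ex_nonneg {Q : Finset ℕ} (hQ : ∀ q ∈ Q, 2 ≤ q) (i : ℕ) : 0 ≤ EP Q (ex i) := by
  have h := EP_mono hQ (u := fun _ => 0) (v := ex i) fun S _ => by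
    unfold ex
    split_ifs <;> norm_num
  rwa [EP_const] at h

theorem ins0 {Q : Finset ℕ} {q : ℕ} (hq : q ∉ Q) :
    EP (insert q Q) (ex 0) = (1 - 1 / (q : ℝ)) * EP Q (ex 0) := by
  rw [EP_insert hq, EP_congr (u := fun S => ex 0 (insert q S)) (v := fun _ => 0) fun S _ => by
    simp [ex], EP_const]
  ring

theorem insS {Q : Finset ℕ} {q : ℕ} (hq : q ∉ Q) (i : ℕ) :
    EP (insert q Q) (ex (i + 1)) =
      (1 - 1 / (q : ℝ)) * EP Q (ex (i + 1)) + 1 / (q : ℝ) * EP Q (ex i) := by
  rw [EP_insert hq, EP_congr (u := fun S => ex (i + 1) (insert q S)) (v := ex i) fun S hS => by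
    simp [ex, card_insert_of_notMem fun h => hq (hS h)]]

theorem step (Y : ℝ) (hY : 0 < Y) (Q : Finset ℕ) : (∀ q ∈ Q, 2 ≤ q ∧ Y ≤ q) → ∀ i : ℕ,
    EP Q (ex i) * (lam Q - i / Y) ≤ (i + 1) * EP Q (ex (i + 1)) := by
  induction Q using Finset.induction_on with
  | empty =>
    intro _ i
    rcases i with _ | i <;> simp [EP_empty, ex, lam]
  | insert q Q hq ih =>
    intro h i
    have h' : ∀ p ∈ Q, 2 ≤ p ∧ Y ≤ p := fun p hp => h p (mem_insert_of_mem hp)
    have h2 : ∀ p ∈ Q, 2 ≤ p := fun p hp => (h' p hp).1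
    obtain ⟨q2, qY⟩ := h q (mem_insert_self _ _)
    have hl : lam (insert q Q) = 1 / (q : ℝ) + lam Q := sum_insert hq
    have x0 : 0 ≤ 1 / (q : ℝ) := by positivity
    have x1 := one_sub_nonneg q2
    have xY : 1 / (q : ℝ) ≤ 1 / Y := one_div_le_one_div_of_le hY qY
    rcases i with _ | k
    · rw [ins0 hq, insS hq, hl]
      have a := mul_le_mul_of_nonneg_left (ih h' 0) x1
      have b := mul_nonneg (mul_nonneg x0 x0) (ex_nonneg h2 0)
      generalize 1 / (q : ℝ) = x at *
      simp only [Nat.cast_zero, zero_div, sub_zero, zero_add, one_mul] at a ⊢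
      nlinarith
    · rw [insS hq, insS hq, hl]
      have a := mul_le_mul_of_nonneg_left (ih h' (k + 1)) x1
      have a' := mul_le_mul_of_nonneg_left (ih h' k) x0
      have b := mul_nonneg (mul_nonneg x0 x0) (ex_nonneg h2 (k + 1))
      have b' := mul_nonneg (mul_nonneg x0 (sub_nonneg.2 xY)) (ex_nonneg h2 k)
      have e : ((k + 1 : ℕ) : ℝ) / Y = k / Y + 1 / Y := by
        push_cast
        ring
      rw [e] at a ⊢
      push_cast at a ⊢
      generalize 1 / (q : ℝ) = x at *
      generalize 1 / Y = y at *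
      generalize (k : ℝ) / Y = t at *
      nlinarith

theorem sq_le (S : Finset ℕ) : (∀ q ∈ S, q.Prime ∧ 2 < q) → ∀ a : ℝ, 1 ≤ a → (∀ q ∈ S, (q : ℝ) ≤ a) →
    (∏ q ∈ S, (1 - 1 / (q : ℝ))⁻¹) ^ 2 ≤ a := by
  induction S using Finset.induction_on_max with
  | empty =>
    intro _ a ha _
    simpa using ha
  | insert p S hp ih =>
    intro h a _ ha
    have hn : p ∉ S := fun h' => lt_irrefl _ (hp p h')
    obtain ⟨pp, p2⟩ := h p (mem_insert_self _ _)
    have p3 : (3 : ℝ) ≤ p := by exact_mod_cast p2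
    have h1 := ih (fun q hq => h q (mem_insert_of_mem hq)) ((p : ℝ) - 2) (by linarith) fun q hq => by
      obtain ⟨qp, q2⟩ := h q (mem_insert_of_mem hq)
      have o1 := pp.eq_two_or_odd
      have o2 := qp.eq_two_or_odd
      have l := hp q hq
      have : q + 2 ≤ p := by omega
      have : (q : ℝ) + 2 ≤ p := by exact_mod_cast this
      linarith
    have e : (1 - 1 / (p : ℝ))⁻¹ = p / (p - 1) := by
      have : (p : ℝ) - 1 ≠ 0 := by linarith
      have : (p : ℝ) ≠ 0 := by linarith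
      field_simp
    rw [prod_insert hn, mul_pow, e]
    refine le_trans (mul_le_mul_of_nonneg_left h1 (sq_nonneg _)) (le_trans ?_ (ha p (mem_insert_self _ _)))
    rw [div_pow, div_mul_eq_mul_div, div_le_iff₀ (pow_pos (by linarith) 2)]
    nlinarith

end ESx

theorem es : ES := by
  intro Q j Y hY hQ hj
  have h2 : ∀ p ∈ Q, 2 ≤ p := fun p hp => (hQ p hp).1
  have l0 : 0 ≤ lam Q := sum_nonneg fun q _ => by positivity
  suffices H : ∀ i : ℕ, i ≤ j → V Q * (lam Q / 2) ^ i / i.factorial ≤ EP Q (ex i) from H j le_rfl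
  intro i
  induction i with
  | zero =>
    intro _
    rw [EP_congr (v := em) fun S _ => by simp [ex, em], EP_em]
    simp
  | succ i ih =>
    intro hi
    have a := ih (by omega)
    have b := ESx.step Y hY Q hQ i
    have c : (i : ℝ) / Y ≤ lam Q / 2 := by
      have : (i : ℝ) ≤ j := by exact_mod_cast (by omega : i ≤ j)
      rw [div_le_iff₀ hY]
      linarith
    have d := mul_le_mul_of_nonneg_left (show lam Q / 2 ≤ lam Q - i / Y by linarith)
      (ESx.ex_nonneg h2 i)
    have f := mul_le_mul_of_nonneg_right a (show 0 ≤ lam Q / 2 by linarith)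
    have i0 : (0 : ℝ) < i + 1 := by positivity
    have e : V Q * (lam Q / 2) ^ (i + 1) / (i + 1).factorial =
        V Q * (lam Q / 2) ^ i / i.factorial * (lam Q / 2) / (i + 1) := by
      rw [Nat.factorial_succ]
      push_cast
      have : (i.factorial : ℝ) ≠ 0 := by positivity
      field_simp
      ring
    rw [e, div_le_iff₀ i0]
    linarith

theorem vl : VL := by
  intro Q hQ
  have h1 : ∑ q ∈ Q, ((q : ℝ) ^ 2)⁻¹ ≤ 1 := by
    have hs : Q ⊆ Ioc 1 (Q.sup id + 1) := fun q hq =>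
      mem_Ioc.2 ⟨hQ q hq, (le_sup (f := id) hq).trans (Nat.le_succ _)⟩
    refine (sum_le_sum_of_subset_of_nonneg hs fun q _ _ => by positivity).trans ?_
    refine (sum_Ioc_inv_sq_le_sub one_ne_zero (Nat.le_add_left _ _)).trans ?_
    have : (0 : ℝ) ≤ ((Q.sup id + 1 : ℕ) : ℝ)⁻¹ := by positivity
    simpa using this
  have h2 : -lam Q - 2 ≤ ∑ q ∈ Q, -(1 / (q : ℝ) + 2 * ((q : ℝ) ^ 2)⁻¹) := by
    rw [sum_neg_distrib, sum_add_distrib, ← mul_sum, lam]
    linarith
  refine (Real.exp_le_exp.2 h2).trans ?_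
  rw [Real.exp_sum, V]
  refine prod_le_prod (fun q _ => (Real.exp_pos _).le) fun q hq => ?_
  have q2 : (2 : ℝ) ≤ q := by exact_mod_cast hQ q hq
  have e : ((q : ℝ) ^ 2)⁻¹ = (1 / q) ^ 2 := by simp
  have x0 : 0 ≤ 1 / (q : ℝ) := by positivity
  have x1 : 1 / (q : ℝ) ≤ 1 / 2 := one_div_le_one_div_of_le two_pos q2
  rw [e, Real.exp_neg]
  generalize 1 / (q : ℝ) = x at *
  have a := Real.add_one_le_exp (x + 2 * x ^ 2)
  rw [inv_le_iff_one_le_mul₀ (Real.exp_pos _)]
  have b := mul_le_mul_of_nonneg_left a (show 0 ≤ 1 - x by linarith)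
  have c := mul_nonneg (sq_nonneg x) (show 0 ≤ 1 - 2 * x by linarith)
  nlinarith

theorem tel : TEL := by
  intro S
  induction S using Finset.induction_on_max with
  | empty => simp
  | insert p S hp ih =>
    intro h
    have hn : p ∉ S := fun h' => lt_irrefl _ (hp p h')
    obtain ⟨pp, p2⟩ := h p (mem_insert_self _ _)
    have p3 : (3 : ℝ) ≤ p := by exact_mod_cast p2
    have h' : ∀ q ∈ S, q.Prime ∧ 2 < q := fun q hq => h q (mem_insert_of_mem hq)
    have a := ih h'
    have b := Real.le_sqrt_of_sq_le (ESx.sq_le S h' p (by linarith) fun q hq => by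
      exact_mod_cast (hp q hq).le)
    have e : (1 - 1 / (p : ℝ))⁻¹ = 1 + 1 / (p - 1) := by
      have : (p : ℝ) - 1 ≠ 0 := by linarith
      have : (p : ℝ) ≠ 0 := by linarith
      field_simp
      ring
    have s0 : 0 < Real.sqrt p := Real.sqrt_pos.2 (by linarith)
    have c : 1 / ((p : ℝ) - 1) * Real.sqrt p ≤ 2 / Real.sqrt p := by
      rw [le_div_iff₀ s0, mul_assoc, Real.mul_self_sqrt (by linarith), one_div, inv_mul_eq_div,
        div_le_iff₀ (by linarith)]
      linarith
    have d := mul_le_mul_of_nonneg_left b (show 0 ≤ 1 / ((p : ℝ) - 1) from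
      div_nonneg zero_le_one (by linarith))
    rw [prod_insert hn, sum_insert hn, e, add_mul, one_mul]
    linarith

theorem om : OM := by
  intro m z j v hm hz hj hq
  have e : ArithmeticFunction.cardFactors m = ∑ q ∈ m.primeFactors, m.factorization q := by
    rw [ArithmeticFunction.cardFactors_eq_sum_factorization]
    rfl
  rw [e, ← sum_filter_add_sum_filter_not m.primeFactors fun q => q ≤ z]
  refine add_le_add (le_trans ?_ hj) ?_
  · rw [card_eq_sum_ones]
    refine sum_le_sum fun q h => ?_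
    obtain ⟨h1, h2⟩ := mem_filter.1 h
    have pq := Nat.prime_of_mem_primeFactors h1
    by_contra hc
    exact hq q pq h2 ((pq.pow_dvd_iff_le_factorization hm.ne').2 (by omega))
  · have h1 : (z + 1) ^ (∑ q ∈ m.primeFactors.filter fun q => ¬ q ≤ z, m.factorization q) ≤ m := by
      rw [← prod_pow_eq_pow_sum]
      calc _ ≤ ∏ q ∈ m.primeFactors.filter fun q => ¬ q ≤ z, q ^ m.factorization q :=
            prod_le_prod' fun q h => Nat.pow_le_pow_left (by have := (mem_filter.1 h).2; omega) _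
        _ ≤ ∏ q ∈ m.primeFactors, q ^ m.factorization q :=
            prod_le_prod_of_subset_of_one_le' (filter_subset _ _) fun q h _ =>
              Nat.one_le_pow _ _ (Nat.prime_of_mem_primeFactors h).pos
        _ = m := Nat.prod_factorization_pow_eq_self hm.ne'
    have h2 := lt_of_le_of_lt h1 hz
    by_contra hc
    exact absurd h2 (not_lt.2 (Nat.pow_le_pow_right (Nat.succ_pos z) (by omega)))

end Pool.Agent.MP_fc7299_nt.AP

end

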