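import Pool.Agent.MP_fc7299_nt.AP.Defs

section
namespace Pool.Agent.MP_fc7299_nt.AP

open Finset Filter

namespace RO1x

theorem mem_PR {a b q : ℕ} : q ∈ PR a b ↔ (a < q ∧ q ≤ b) ∧ q.Prime := by
  rw [PR, mem_filter, mem_Ioc]

theorem inv_le_exp {q : ℕ} (h : 2 ≤ q) : (1 - 1 / (q : ℝ))⁻¹ ≤ Real.exp (2 * (1 / (q : ℝ))) := by
  have h1 : (2 : ℝ) ≤ q := by exact_mod_cast h
  have h2 : 1 / (q : ℝ) ≤ 1 / 2 := one_div_le_one_div_of_le (by norm_num) h1
  have h3 : 0 ≤ 1 / (q : ℝ) := by positivity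
  generalize 1 / (q : ℝ) = x at h2 h3
  refine le_trans ?_ (Real.add_one_le_exp _)
  rw [inv_eq_one_div, div_le_iff₀ (by linarith)]
  nlinarith

theorem tel32 {K a : ℕ} (hK : 0 < K) (h : K ≤ a) :
    ∑ p ∈ Ioc K a, 1 / ((p : ℝ) * Real.sqrt p) ≤ 2 / Real.sqrt K - 2 / Real.sqrt a := by
  induction a, h using Nat.le_induction with
  | base => simp
  | succ m hm ih =>
    rw [sum_Ioc_succ_top hm]
    have hm0 : (0 : ℝ) < m := by exact_mod_cast hK.trans_le hm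
    have hx : 0 < Real.sqrt m := Real.sqrt_pos.2 hm0
    have hxy : Real.sqrt m ≤ Real.sqrt ((m + 1 : ℕ) : ℝ) :=
      Real.sqrt_le_sqrt (by push_cast; linarith)
    have e1 : Real.sqrt m ^ 2 = m := Real.sq_sqrt hm0.le
    have e2 : Real.sqrt ((m + 1 : ℕ) : ℝ) ^ 2 = ((m + 1 : ℕ) : ℝ) := Real.sq_sqrt (by positivity)
    have e3 : Real.sqrt ((m + 1 : ℕ) : ℝ) ^ 2 = Real.sqrt m ^ 2 + 1 := by
      rw [e1, e2]
      push_cast
      rfl
    have key : 1 / (Real.sqrt ((m + 1 : ℕ) : ℝ) ^ 2 * Real.sqrt ((m + 1 : ℕ) : ℝ)) ≤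
        2 / Real.sqrt m - 2 / Real.sqrt ((m + 1 : ℕ) : ℝ) := by
      generalize Real.sqrt ((m + 1 : ℕ) : ℝ) = y at hxy e3
      generalize Real.sqrt (m : ℝ) = x at hx hxy e3
      have hy : 0 < y := hx.trans_le hxy
      rw [div_sub_div _ _ hx.ne' hy.ne', div_le_div_iff₀ (by positivity) (by positivity)]
      have h1 : (y - x) * (y + x) = 1 := by nlinarith
      have h2 : x * (y + x) ≤ 2 * y ^ 2 := by nlinarith
      have h3 := mul_le_mul_of_nonneg_left h2 (mul_nonneg (sub_nonneg.2 hxy) hy.le)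
      have h4 : (y - x) * y * (x * (y + x)) = x * y := by
        calc (y - x) * y * (x * (y + x)) = (y - x) * (y + x) * (x * y) := by ring
          _ = x * y := by rw [h1, one_mul]
      nlinarith
    rw [e2] at key
    linarith

theorem few {A n x y : ℕ} (hxy : x ≠ y) (hx : x < (A + 1) ^ (n + 1)) (hy : y < (A + 1) ^ (n + 1))
    {S : Finset ℕ} (hS : ∀ q ∈ S, q.Prime ∧ A < q ∧ x ≡ y [MOD q]) (hA : 0 < A) : #S ≤ n := by
  wlog h : x < y generalizing x y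
  · exact this hxy.symm hy hx (fun q hq => ⟨(hS q hq).1, (hS q hq).2.1, (hS q hq).2.2.symm⟩)
      (lt_of_le_of_ne (not_lt.1 h) hxy.symm)
  have h1 : ∏ q ∈ S, q ∣ y - x :=
    Finset.prod_primes_dvd _ (fun q hq => (hS q hq).1.prime)
      fun q hq => (Nat.modEq_iff_dvd' h.le).1 (hS q hq).2.2
  have h2 : (A + 1) ^ #S ≤ ∏ q ∈ S, q := pow_card_le_prod S _ _ fun q hq => (hS q hq).2.1
  have h3 : (A + 1) ^ #S < (A + 1) ^ (n + 1) :=
    (h2.trans (Nat.le_of_dvd (by omega) h1)).trans_lt (by omega)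
  exact Nat.lt_succ_iff.1 ((Nat.pow_lt_pow_iff_right (by omega)).1 h3)

theorem point (hTEL : TEL) {K a A Y n x y : ℕ} {C : ℝ} (hK : 2 ≤ K) (hKa : K ≤ a) (haA : a ≤ A)
    (hxy : x ≠ y) (hx : x < (A + 1) ^ (n + 1)) (hy : y < (A + 1) ^ (n + 1))
    (hC : Real.exp (2 * lam (PR a Y)) ≤ C) :
    H (PR K Y) x y ≤ 1 + C * (∑ q ∈ (PR K a).filter fun q => x ≡ y [MOD q], 2 / Real.sqrt q +
      ∑ q ∈ (PR a A).filter fun q => x ≡ y [MOD q], 2 / (q : ℝ) + 2 * n / A) := by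
  set S := (PR K Y).filter fun q => x ≡ y [MOD q] with hS
  have hm : ∀ q ∈ S, ((K < q ∧ q ≤ Y) ∧ q.Prime) ∧ x ≡ y [MOD q] := fun q hq => by
    rwa [hS, mem_filter, mem_PR] at hq
  have hC0 : 0 ≤ C := (Real.exp_pos _).le.trans hC
  have hA : (0 : ℝ) < A := by exact_mod_cast (by omega : 0 < A)
  have h1 : ∏ q ∈ S.filter (· ≤ a), (1 - 1 / (q : ℝ))⁻¹ ≤
      1 + ∑ q ∈ (PR K a).filter fun q => x ≡ y [MOD q], 2 / Real.sqrt q := by
    refine (hTEL _ fun q hq => ?_).trans (add_le_add_right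
      (sum_le_sum_of_subset_of_nonneg (fun q hq => ?_) fun _ _ _ => by positivity) _)
    · obtain ⟨⟨h1, h2⟩, -⟩ := hm q (mem_filter.1 hq).1
      exact ⟨h2, by omega⟩
    · obtain ⟨⟨h1, h2⟩, h3⟩ := hm q (mem_filter.1 hq).1
      exact mem_filter.2 ⟨mem_PR.2 ⟨⟨h1.1, (mem_filter.1 hq).2⟩, h2⟩, h3⟩
  set u := 2 * lam (S.filter fun q => ¬ q ≤ a) with hu
  have h2 : ∏ q ∈ S.filter (fun q => ¬ q ≤ a), (1 - 1 / (q : ℝ))⁻¹ ≤ Real.exp u := by
    rw [hu, lam, mul_sum, Real.exp_sum]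
    exact prod_le_prod (fun q hq => inv_nonneg.2
      (one_sub_nonneg (hm q (mem_filter.1 hq).1).1.2.two_le))
      fun q hq => inv_le_exp (hm q (mem_filter.1 hq).1).1.2.two_le
  have h3 : Real.exp u ≤ C := by
    refine le_trans (Real.exp_le_exp.2 (mul_le_mul_of_nonneg_left
      (sum_le_sum_of_subset_of_nonneg (fun q hq => ?_) fun _ _ _ => by positivity) zero_le_two)) hC
    obtain ⟨⟨h1, h2⟩, -⟩ := hm q (mem_filter.1 hq).1
    exact mem_PR.2 ⟨⟨not_le.1 (mem_filter.1 hq).2, h1.2⟩, h2⟩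
  have hu0 : 0 ≤ u := mul_nonneg zero_le_two (sum_nonneg fun _ _ => by positivity)
  have h4 : Real.exp u ≤ 1 + C * u := by
    have h5 := Real.add_one_le_exp (-u)
    have h6 : Real.exp u * Real.exp (-u) = 1 := by rw [← Real.exp_add, add_neg_cancel, Real.exp_zero]
    have h7 := mul_le_mul_of_nonneg_left h5 (Real.exp_pos u).le
    have h8 := mul_le_mul_of_nonneg_right h3 hu0
    nlinarith
  have h5 : u ≤ ∑ q ∈ (PR a A).filter fun q => x ≡ y [MOD q], 2 / (q : ℝ) + 2 * n / A := by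
    rw [hu, lam, mul_sum, ← sum_filter_add_sum_filter_not _ (· ≤ A)]
    refine add_le_add ?_ ?_
    · simp only [mul_one_div]
      refine sum_le_sum_of_subset_of_nonneg (fun q hq => ?_) fun _ _ _ => by positivity
      obtain ⟨h6, h7⟩ := mem_filter.1 hq
      obtain ⟨⟨-, h2⟩, h3⟩ := hm q (mem_filter.1 h6).1
      exact mem_filter.2 ⟨mem_PR.2 ⟨⟨not_le.1 (mem_filter.1 h6).2, h7⟩, h2⟩, h3⟩
    · have h6 : #((S.filter fun q => ¬ q ≤ a).filter fun q => ¬ q ≤ A) ≤ n :=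
        few hxy hx hy (fun q hq => by
          obtain ⟨h6, h7⟩ := mem_filter.1 hq
          obtain ⟨⟨-, h2⟩, h3⟩ := hm q (mem_filter.1 h6).1
          exact ⟨h2, not_le.1 h7, h3⟩) (by omega)
      refine (sum_le_card_nsmul _ _ (2 * (1 / (A : ℝ))) fun q hq => mul_le_mul_of_nonneg_left
        (one_div_le_one_div_of_le hA (by exact_mod_cast (not_le.1 (mem_filter.1 hq).2).le))
        zero_le_two).trans ?_
      rw [nsmul_eq_mul]
      exact (mul_le_mul_of_nonneg_right (Nat.cast_le.2 h6) (by positivity)).trans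
        (le_of_eq (by ring))
  have h6 : 0 ≤ ∑ q ∈ (PR K a).filter fun q => x ≡ y [MOD q], 2 / Real.sqrt q :=
    sum_nonneg fun _ _ => by positivity
  have h7 : 0 ≤ ∏ q ∈ S.filter (fun q => ¬ q ≤ a), (1 - 1 / (q : ℝ))⁻¹ :=
    prod_nonneg fun q hq => inv_nonneg.2 (one_sub_nonneg (hm q (mem_filter.1 hq).1).1.2.two_le)
  rw [H, ← hS, ← prod_filter_mul_prod_filter_not S (· ≤ a)]
  refine (mul_le_mul h1 h2 h7 (by linarith)).trans ?_
  have h8 := mul_le_mul_of_nonneg_left h3 h6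
  have h9 := mul_le_mul_of_nonneg_left h5 hC0
  nlinarith

theorem pairs {J : ℕ} {c : ℕ → ℕ} (Q : Finset ℕ) (g : ℕ → ℝ) (hg : ∀ q, 0 ≤ g q)
    (h : ∀ p ∈ Q, ∀ b : ℕ, (#((range J).filter fun s => c s ≡ b [MOD p]) : ℝ) ≤ J / p + p) :
    ∑ s ∈ range J, ∑ s' ∈ (range J).erase s, ∑ q ∈ Q.filter fun q => c s ≡ c s' [MOD q], g q ≤
      J * ∑ q ∈ Q, g q * (J / q + q) := by
  refine (sum_le_card_nsmul _ _ (∑ q ∈ Q, g q * (J / q + q)) fun s _ => ?_).trans
    (by rw [card_range, nsmul_eq_mul])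
  refine (sum_le_sum_of_subset_of_nonneg (erase_subset _ _)
    fun _ _ _ => sum_nonneg fun _ _ => hg _).trans ?_
  simp only [sum_filter]
  rw [sum_comm]
  refine sum_le_sum fun q hq => ?_
  rw [← sum_filter, sum_const, nsmul_eq_mul, mul_comm,
    filter_congr (q := fun s' => c s' ≡ c s [MOD q]) fun _ _ => ⟨Nat.ModEq.symm, Nat.ModEq.symm⟩]
  exact mul_le_mul_of_nonneg_left (h q hq _) (hg q)

end RO1x

theorem ro1 (hTEL : TEL) : RO1 := by
  intro K a A Y J n c C hK hKa haA haY hinj hlt hcl hC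
  have hC0 : 0 ≤ C := (Real.exp_pos _).le.trans hC
  have hJ : (0 : ℝ) ≤ J := J.cast_nonneg
  have ha : (0 : ℝ) < a := by exact_mod_cast (by omega : 0 < a)
  have hA : (0 : ℝ) < A := by exact_mod_cast (by omega : 0 < A)
  have hcard : ∀ z : ℝ, 0 ≤ z → ∑ s ∈ range J, ∑ _s' ∈ (range J).erase s, z ≤ (J : ℝ) ^ 2 * z :=
    fun z hz => by
      refine (sum_le_card_nsmul _ _ (J * z) fun s _ => ?_).trans
        (le_of_eq (by rw [card_range, nsmul_eq_mul]; ring))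
      rw [sum_const, nsmul_eq_mul]
      exact mul_le_mul_of_nonneg_right
        (Nat.cast_le.2 (card_erase_le.trans (card_range J).le)) hz
  have h1 := RO1x.pairs (J := J) (c := c) (PR K a) (fun q => 2 / Real.sqrt q)
    (fun _ => by positivity) fun p hp => hcl p (RO1x.mem_PR.1 hp).2 (RO1x.mem_PR.1 hp).1.1
  have h2 := RO1x.pairs (J := J) (c := c) (PR a A) (fun q => 2 / (q : ℝ))
    (fun _ => by positivity) fun p hp => hcl p (RO1x.mem_PR.1 hp).2
      (hKa.trans_lt (RO1x.mem_PR.1 hp).1.1)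
  have h3 : ∑ q ∈ PR K a, 2 / Real.sqrt q * (J / q + q) ≤
      4 * J / Real.sqrt K + 2 * (a * Real.sqrt a) := by
    have h4 : ∑ q ∈ Ioc K a, 2 / Real.sqrt q * ((J : ℝ) / q + q) ≤
        ∑ q ∈ Ioc K a, (2 * J * (1 / ((q : ℝ) * Real.sqrt q)) + 2 * Real.sqrt a) :=
      sum_le_sum fun q hq => by
        obtain ⟨h5, h6⟩ := mem_Ioc.1 hq
        have hq0 : (0 : ℝ) < q := by exact_mod_cast (by omega : 0 < q)
        have h7 : 0 < Real.sqrt q := Real.sqrt_pos.2 hq0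
        have h8 : Real.sqrt q ≤ Real.sqrt a := Real.sqrt_le_sqrt (by exact_mod_cast h6)
        have h9 : 2 / Real.sqrt q * (q : ℝ) = 2 * Real.sqrt q := by
          rw [div_mul_eq_mul_div, mul_div_assoc, Real.div_sqrt]
        have h10 : 2 / Real.sqrt q * ((J : ℝ) / q) = 2 * J * (1 / ((q : ℝ) * Real.sqrt q)) := by
          field_simp
        rw [mul_add, h9, h10]
        linarith
    refine (sum_le_sum_of_subset_of_nonneg (filter_subset _ _)
      fun _ _ _ => by positivity).trans (h4.trans ?_)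
    rw [sum_add_distrib, ← mul_sum, sum_const, nsmul_eq_mul, Nat.card_Ioc]
    have h5 := RO1x.tel32 (by omega : 0 < K) hKa
    have h6 : (0 : ℝ) ≤ 2 / Real.sqrt a := by positivity
    have h7 := mul_le_mul_of_nonneg_left (h5.trans (sub_le_self _ h6))
      (by positivity : (0 : ℝ) ≤ 2 * J)
    have h8 : ((a - K : ℕ) : ℝ) * (2 * Real.sqrt a) ≤ a * (2 * Real.sqrt a) :=
      mul_le_mul_of_nonneg_right (Nat.cast_le.2 (Nat.sub_le _ _)) (by positivity)
    have h9 : 2 * (J : ℝ) * (2 / Real.sqrt K) = 4 * J / Real.sqrt K := by ring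
    linarith
  have h4 : ∑ q ∈ PR a A, 2 / (q : ℝ) * (J / q + q) ≤ 2 * J / a + 2 * A := by
    have h4 : ∑ q ∈ Ioc a A, 2 / (q : ℝ) * ((J : ℝ) / q + q) =
        ∑ q ∈ Ioc a A, (2 * J * ((q : ℝ) ^ 2)⁻¹ + 2) :=
      sum_congr rfl fun q hq => by
        have hq0 : (0 : ℝ) < q := by
          exact_mod_cast (by have := (mem_Ioc.1 hq).1; omega : 0 < q)
        field_simp
    refine (sum_le_sum_of_subset_of_nonneg (filter_subset _ _)
      fun _ _ _ => by positivity).trans (h4.le.trans ?_)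
    rw [sum_add_distrib, ← mul_sum, sum_const, nsmul_eq_mul, Nat.card_Ioc]
    have h5 := sum_Ioc_inv_sq_le_sub (α := ℝ) (by omega : a ≠ 0) haA
    have h7 := mul_le_mul_of_nonneg_left (h5.trans (sub_le_self _ (by positivity)))
      (by positivity : (0 : ℝ) ≤ 2 * J)
    have h8 : ((A - a : ℕ) : ℝ) * 2 ≤ A * 2 :=
      mul_le_mul_of_nonneg_right (Nat.cast_le.2 (Nat.sub_le _ _)) zero_le_two
    have h9 : 2 * (J : ℝ) * (a : ℝ)⁻¹ = 2 * J / a := by ring
    linarith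
  refine (sum_le_sum fun s hs => sum_le_sum fun s' hs' => RO1x.point hTEL hK hKa haA
    (fun e => (mem_erase.1 hs').1 (hinj (mem_range.1 (mem_erase.1 hs').2) (mem_range.1 hs) e.symm))
    (hlt s (mem_range.1 hs)) (hlt s' (mem_range.1 (mem_erase.1 hs').2)) hC).trans ?_
  simp only [sum_add_distrib, ← mul_sum]
  have h5 := hcard 1 zero_le_one
  have h6 := hcard (2 * n / A) (by positivity)
  have h7 := h1.trans (mul_le_mul_of_nonneg_left h3 hJ)
  have h8 := h2.trans (mul_le_mul_of_nonneg_left h4 hJ)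
  refine add_le_add (by simpa using h5) (mul_le_mul_of_nonneg_left
    ((add_le_add (add_le_add h7 h8) h6).trans (le_of_eq ?_)) hC0)
  ring

end Pool.Agent.MP_fc7299_nt.AP

end

section
namespace Pool.Agent.MP_fc7299_nt.AP

open Finset Filter

namespace ROMx

theorem lam_add {a Y : ℕ} (h : a ≤ Y) : lam (PR 0 a) + lam (PR a Y) = lam (PR 0 Y) := by
  simp only [lam, PR, sum_filter]
  exact sum_Ioc_consecutive _ (Nat.zero_le a) h

theorem lam_le {C : ℝ} (hC : ∀ y : ℝ, 2 ≤ y →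
    |∑ p ∈ MP_48b1c3_nt.H54.PI 0 y, (1 : ℝ) / p - Real.log (Real.log y)| ≤ C) {a Y : ℕ}
    (ha : 2 ≤ a) (haY : a ≤ Y) (hY : Y ≤ a ^ 20) : lam (PR a Y) ≤ 20 + 2 * C := by
  have e : ∀ y : ℕ, ∑ p ∈ MP_48b1c3_nt.H54.PI 0 y, (1 : ℝ) / p = lam (PR 0 y) := fun y => by
    simp [MP_48b1c3_nt.H54.PI, PR, lam]
  have ha' : (2 : ℝ) ≤ a := by exact_mod_cast ha
  have haY' : (a : ℝ) ≤ Y := by exact_mod_cast haY
  have hY' : (Y : ℝ) ≤ (a : ℝ) ^ 20 := by exact_mod_cast hY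
  have h1 := (abs_le.1 (hC a ha')).1
  have h2 := (abs_le.1 (hC Y (ha'.trans haY'))).2
  rw [e] at h1 h2
  have h3 := lam_add haY
  have la : 0 < Real.log a := Real.log_pos (by linarith)
  have lY : 0 < Real.log Y := Real.log_pos (by linarith)
  have h4 : Real.log Y ≤ 20 * Real.log a := by
    have := Real.log_le_log (by linarith) hY'
    rwa [Real.log_pow, Nat.cast_ofNat] at this
  have h5 := Real.log_le_log lY h4
  rw [Real.log_mul (by norm_num) la.ne'] at h5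
  have h6 : Real.log 20 ≤ 20 := Real.log_le_self (by norm_num)
  linarith

theorem num {δ J K a A n b m M : ℝ} (hδ : 0 < δ) (hJ : 0 < J) (ha : 1 ≤ a) (hA : 1 ≤ A)
    (hK : (4 / δ) ^ 2 ≤ K) (haδ : (2 / δ) ^ 2 ≤ a) (haJ : a * a ≤ J) (hb : 2 / δ ≤ b)
    (hAb : A * b ≤ J) (hJA : J ≤ b * (A + 1)) (hn0 : 0 ≤ n) (hM : 0 ≤ M) (hn : n * m ≤ 2 * M * J)
    (hm0 : 0 < m) (hm : 8 * M * b / δ ≤ m) :
    4 * J ^ 2 / Real.sqrt K + 2 * J * (a * Real.sqrt a) + 2 * J ^ 2 / a + 2 * J * A +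
      2 * n * J ^ 2 / A ≤ 5 * δ * J ^ 2 := by
  have s1 : 4 / δ ≤ Real.sqrt K := Real.le_sqrt_of_sq_le hK
  have s2 : 2 / δ ≤ Real.sqrt a := Real.le_sqrt_of_sq_le haδ
  have p1 : 0 < 4 / δ := by positivity
  have p2 : 0 < 2 / δ := by positivity
  have s3 : Real.sqrt a * Real.sqrt a = a := Real.mul_self_sqrt (by linarith)
  have s4 : 1 ≤ Real.sqrt a := Real.one_le_sqrt.2 ha
  have J2 : 0 < J ^ 2 := by positivity
  rw [div_le_iff₀ hδ] at s1 s2 hb hm
  have k0 : 0 < Real.sqrt K := by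
    by_contra h
    nlinarith
  have b0 : 0 < b := by
    by_contra h
    nlinarith
  have t1 : 4 * J ^ 2 / Real.sqrt K ≤ δ * J ^ 2 := by
    rw [div_le_iff₀ k0]
    nlinarith
  have t2 : 2 * J * (a * Real.sqrt a) ≤ δ * J ^ 2 := by
    have h1 : 2 * Real.sqrt a ≤ δ * a := by nlinarith
    have h2 : 2 * Real.sqrt a * a ≤ δ * a * a := by nlinarith
    have h3 : δ * (a * a) ≤ δ * J := mul_le_mul_of_nonneg_left haJ hδ.le
    nlinarith
  have t3 : 2 * J ^ 2 / a ≤ δ * J ^ 2 := by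
    rw [div_le_iff₀ (by linarith)]
    have h1 : Real.sqrt a ≤ a := by nlinarith
    have h2 : 2 ≤ a * δ := by nlinarith
    nlinarith
  have t4 : 2 * J * A ≤ δ * J ^ 2 := by
    have h1 : A * 2 ≤ A * (b * δ) := mul_le_mul_of_nonneg_left hb (by linarith)
    have h2 : A * b * δ ≤ J * δ := mul_le_mul_of_nonneg_right hAb hδ.le
    nlinarith
  have t5 : 2 * n * J ^ 2 / A ≤ δ * J ^ 2 := by
    rw [div_le_iff₀ (by linarith)]
    have h1 : J ≤ 2 * b * A := by nlinarith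
    have h2 : 2 * M * J ≤ 2 * M * (2 * b * A) := mul_le_mul_of_nonneg_left h1 (by positivity)
    have h3 : 8 * M * b * A ≤ m * δ * A := mul_le_mul_of_nonneg_right hm (by linarith)
    have h4 : m * (2 * n) ≤ m * (δ * A) := by nlinarith
    have h5 : 2 * n ≤ δ * A := le_of_mul_le_mul_left h4 hm0
    nlinarith
  linarith

theorem cover (P : ℕ → Prop) {M : ℕ} (hM : 0 < M) (N : ℕ) :
    {n : ℕ | n < N ∧ P n}.ncard ≤
      ∑ r ∈ range M, {t : ℕ | t < N / M + 1 ∧ P (r + M * t)}.ncard := by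
  classical
  have e : ∀ (Q : ℕ → Prop) (T : ℕ), {n : ℕ | n < T ∧ Q n}.ncard = ((range T).filter Q).card :=
    fun Q T => by
      rw [← Set.ncard_coe_finset]
      exact congrArg _ (by ext n; simp)
  simp only [e]
  refine (card_le_card (t := (range M).biUnion fun r =>
    ((range (N / M + 1)).filter fun t => P (r + M * t)).image fun t => r + M * t) ?_).trans
    (card_biUnion_le.trans (sum_le_sum fun r _ => card_image_le))
  intro n hn
  rw [mem_filter, mem_range] at hn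
  simp only [mem_biUnion, mem_image, mem_filter, mem_range]
  refine ⟨n % M, Nat.mod_lt _ hM, n / M, ⟨?_, ?_⟩, Nat.mod_add_div _ _⟩
  · exact Nat.lt_succ_of_le (Nat.div_le_div_right hn.1.le)
  · rw [Nat.mod_add_div]
    exact hn.2

end ROMx

theorem rom (hRO1 : RO1) : ROM := by
  intro ε hε
  obtain ⟨C₀, -, hC₀⟩ := MP_48b1c3_nt.H54.mertens2
  obtain ⟨C, hC⟩ : ∃ C, C = Real.exp (2 * (20 + 2 * C₀)) := ⟨_, rfl⟩
  have C0 : 0 < C := hC ▸ Real.exp_pos _
  obtain ⟨δ, hδ⟩ : ∃ δ, δ = ε / (5 * C) := ⟨_, rfl⟩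
  have δ0 : 0 < δ := by rw [hδ]; positivity
  filter_upwards [eventually_ge_atTop 2, eventually_ge_atTop ⌈(4 / δ) ^ 2⌉₊] with K hK2 hK M hM
  obtain ⟨b, hb⟩ : ∃ b, b = ⌈2 / δ⌉₊ + 1 := ⟨_, rfl⟩
  obtain ⟨m, hm⟩ : ∃ m, m = ⌈8 * (M : ℝ) * b / δ⌉₊ + 1 := ⟨_, rfl⟩
  obtain ⟨N, hN⟩ : ∃ N, N = K + b + 4 ^ m + ⌈(2 / δ) ^ 2⌉₊ + 8 * M := ⟨_, rfl⟩
  filter_upwards [eventually_ge_atTop (2 * M * (N * N))] with L hL J c hLJ hJL hinj hc hcl
  have hNJ : N * N ≤ J := Nat.le_of_mul_le_mul_left (hL.trans hLJ) (by omega)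
  obtain ⟨a, ha⟩ : ∃ a, a = Nat.sqrt J := ⟨_, rfl⟩
  have hNa : N ≤ a := ha ▸ Nat.le_sqrt.2 hNJ
  have haJ : a * a ≤ J := ha ▸ Nat.sqrt_le J
  have hJa : J < (a + 1) * (a + 1) := ha ▸ Nat.lt_succ_sqrt J
  have h4 : 0 < 4 ^ m := by positivity
  have b0 : 0 < b := by omega
  have m0 : 0 < m := by omega
  have a2 : 2 ≤ a := by omega
  have hba : b ≤ a := by omega
  have haA : a ≤ J / b := (Nat.le_div_iff_mul_le b0).2 ((Nat.mul_le_mul_left a hba).trans haJ)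
  have aJ : a ≤ J := (Nat.le_mul_self a).trans haJ
  have haY : a ≤ L ^ 5 := (aJ.trans hJL).trans (Nat.le_self_pow (by norm_num) L)
  have hLa : L ≤ a ^ 4 := by
    have h1 : J ≤ 4 * (a * a) := by nlinarith
    have h2 : 8 * M ≤ a * a := (by omega : 8 * M ≤ a).trans (Nat.le_mul_self a)
    calc L ≤ 2 * M * (4 * (a * a)) := hLJ.trans (Nat.mul_le_mul_left _ h1)
      _ = 8 * M * (a * a) := by ring
      _ ≤ a * a * (a * a) := Nat.mul_le_mul_right _ h2
      _ = a ^ 4 := by ring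
  have hY : L ^ 5 ≤ a ^ 20 := by
    have := Nat.pow_le_pow_left hLa 5
    rwa [← pow_mul] at this
  have hcn : ∀ s < J, c s < (J / b + 1) ^ (L / m + 1) := fun s hs =>
    calc c s ≤ 4 ^ L := hc s hs
      _ < 4 ^ (m * (L / m + 1)) := Nat.pow_lt_pow_right (by norm_num) (Nat.lt_mul_div_succ L m0)
      _ = (4 ^ m) ^ (L / m + 1) := pow_mul _ _ _
      _ ≤ _ := Nat.pow_le_pow_left (by omega) _
  have hl := ROMx.lam_le hC₀ a2 haY hY
  have h := hRO1 K a (J / b) (L ^ 5) J (L / m) c C hK2 (by omega) haA haY hinj hcn hcl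
    (hC ▸ Real.exp_le_exp.2 (by linarith))
  have hn := ROMx.num (δ := δ) (J := J) (K := K) (a := a) (A := (J / b : ℕ)) (n := (L / m : ℕ))
    (b := b) (m := m) (M := M) δ0 (by exact_mod_cast (by omega : 0 < J))
    (by exact_mod_cast (by omega : 1 ≤ a)) (by exact_mod_cast (by omega : 1 ≤ J / b))
    (Nat.ceil_le.1 hK) (Nat.ceil_le.1 (by omega)) (by exact_mod_cast haJ)
    (Nat.ceil_le.1 (by omega)) (by exact_mod_cast Nat.div_mul_le_self J b)
    (by exact_mod_cast (Nat.lt_mul_div_succ J b0).le) (Nat.cast_nonneg _) (Nat.cast_nonneg _)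
    (by exact_mod_cast (Nat.div_mul_le_self L m).trans hLJ) (by exact_mod_cast m0)
    (Nat.ceil_le.1 (by omega))
  have e : C * (5 * δ * (J : ℝ) ^ 2) = ε * (J : ℝ) ^ 2 := by
    rw [hδ]
    field_simp
  have := mul_le_mul_of_nonneg_left hn C0.le
  linarith

theorem fin (hMAIN : MAIN) : FIN := by
  refine Metric.tendsto_nhds.2 fun ε hε => ?_
  obtain ⟨K, hK⟩ := (hMAIN (ε / 4) (by positivity)).exists
  have hM := K.factorial_pos
  have hT : Tendsto (fun N : ℕ => N / K.factorial + 1) atTop atTop :=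
    (tendsto_add_atTop_nat 1).comp (Nat.tendsto_div_const_atTop hM.ne')
  have h1 := hT.eventually ((eventually_all_finset (range K.factorial)).2 fun n _ => hK n)
  filter_upwards [h1, eventually_ge_atTop K.factorial] with N hN hMN
  have N0 : (0 : ℝ) < N := by exact_mod_cast hM.trans_le hMN
  have h2 := ROMx.cover (fun n => ¬ ∃ x y : ℕ, 0 < x ∧ 0 < y ∧ n = x + y ∧
    ArithmeticFunction.cardFactors (2 ^ x + y) ≤ 1081) hM N
  have h3 := (Nat.cast_le (α := ℝ)).2 h2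
  rw [Nat.cast_sum] at h3
  have h4 := h3.trans (sum_le_sum hN)
  rw [sum_const, card_range, nsmul_eq_mul] at h4
  have h5 : (K.factorial : ℝ) * ((N / K.factorial + 1 : ℕ) : ℝ) ≤ 2 * N := by
    have := Nat.mul_div_le N K.factorial
    exact_mod_cast (by rw [mul_add]; omega : K.factorial * (N / K.factorial + 1) ≤ 2 * N)
  rw [Real.dist_eq, sub_zero, abs_of_nonneg (by positivity), div_lt_iff₀ N0]
  have h6 := mul_le_mul_of_nonneg_left h5 (by positivity : 0 ≤ ε / 4)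
  have h7 := mul_pos hε N0
  linarith

end Pool.Agent.MP_fc7299_nt.AP

end

section
namespace Pool.Agent.MP_fc7299_nt.AP

open Finset Filter

-- helper lemmas: put them in namespace CLx (prefix CLx.)

theorem CLx.pw {p : ℕ} (hp : p.Prime) (a : ZMod p) {x M : ℕ} (hx : 0 < x) (h : p - 1 ∣ M) :
    a ^ (x + M) = a ^ x := by
  have := Fact.mk hp
  obtain ⟨k, rfl⟩ := h
  by_cases ha : a = 0
  · rw [ha, zero_pow hx.ne', zero_pow (by omega)]
  · rw [pow_add, pow_mul, ZMod.pow_card_sub_one_eq_one ha, one_pow, mul_one]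

theorem CLx.cast (p n x : ℕ) : ((n + (2 ^ x - x) : ℕ) : ZMod p) = n + 2 ^ x - x := by
  rw [Nat.cast_add, Nat.cast_sub Nat.lt_two_pow_self.le]
  push_cast
  ring

theorem CLx.shift {p K : ℕ} (hp : p.Prime) (hK : p ≤ K) (n s : ℕ) {x : ℕ} (hx : 0 < x) :
    (n : ZMod p) + 2 ^ (x + K.factorial * s) - ((x + K.factorial * s : ℕ) : ZMod p) =
      n + 2 ^ x - x := by
  have h1 : p - 1 ∣ K.factorial * s :=
    (Nat.dvd_factorial (by have := hp.two_le; omega) (by omega)).mul_right s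
  have h2 : ((K.factorial * s : ℕ) : ZMod p) = 0 :=
    (ZMod.natCast_eq_zero_iff _ _).2 ((Nat.dvd_factorial hp.pos hK).mul_right s)
  rw [CLx.pw hp _ hx h1, Nat.cast_add, h2, add_zero]

theorem CLx.base (n K : ℕ) : ∃ x : ℕ, 0 < x ∧ ∀ p : ℕ, p.Prime → p ≤ K →
    (n : ZMod p) + 2 ^ x - x ≠ 0 := by
  induction K with
  | zero => exact ⟨1, one_pos, fun p hp h => absurd hp.pos (by omega)⟩
  | succ K ih =>
    obtain ⟨x, hx, h⟩ := ih
    by_cases h0 : (K + 1).Prime ∧ ((n : ZMod (K + 1)) + 2 ^ x - x = 0)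
    · obtain ⟨hq, h0⟩ := h0
      refine ⟨x + K.factorial * 1, by omega, fun p hp hK => ?_⟩
      rcases Nat.lt_or_ge K p with h1 | h1
      · obtain rfl : p = K + 1 := by omega
        have h2 : K + 1 - 1 ∣ K.factorial * 1 :=
          (Nat.dvd_factorial (by have := hq.two_le; omega) (by omega)).mul_right 1
        rw [CLx.pw hp _ hx h2, Nat.cast_add, ← sub_sub, h0, mul_one, zero_sub, neg_ne_zero]
        intro h3
        have := hq.dvd_factorial.1 ((ZMod.natCast_eq_zero_iff _ _).1 h3)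
        omega
      · rw [CLx.shift hp h1 n 1 hx]
        exact h p hp h1
    · refine ⟨x, hx, fun p hp hK => ?_⟩
      rcases Nat.lt_or_ge K p with h1 | h1
      · obtain rfl : p = K + 1 := by omega
        exact fun h2 => h0 ⟨hp, h2⟩
      · exact h p hp h1

theorem cl1 : CL1 := by
  intro K n
  obtain ⟨x, hx, h⟩ := CLx.base n K
  refine ⟨x, hx, fun s t p hp hK hd => h p hp hK ?_⟩
  have h1 := (ZMod.natCast_eq_zero_iff _ _).2 hd
  have h2 : ((K.factorial * t : ℕ) : ZMod p) = 0 :=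
    (ZMod.natCast_eq_zero_iff _ _).2 ((Nat.dvd_factorial hp.pos hK).mul_right t)
  rwa [Nat.cast_add, h2, add_zero, CLx.cast, CLx.shift hp hK n s hx] at h1

theorem CLx.eq_of {d s s' : ℕ} (h1 : s ≡ s' [MOD d]) (h2 : s / d = s' / d) : s = s' := by
  rw [← Nat.div_add_mod s d, ← Nat.div_add_mod s' d, h2, h1]

theorem CLx.pw2 {p : ℕ} (hp : p.Prime) (h2 : 2 < p) {x y : ℕ} (h : x ≡ y [MOD p - 1]) :
    (2 : ZMod p) ^ x = 2 ^ y := by
  have := Fact.mk hp
  have h0 : (2 : ZMod p) ≠ 0 := fun h0 => by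
    have h1 : ((2 : ℕ) : ZMod p) = 0 := by exact_mod_cast h0
    have := Nat.le_of_dvd two_pos ((ZMod.natCast_eq_zero_iff _ _).1 h1)
    omega
  rw [← Nat.div_add_mod x (p - 1), ← Nat.div_add_mod y (p - 1), pow_add, pow_add, pow_mul, pow_mul,
    ZMod.pow_card_sub_one_eq_one h0, one_pow, one_pow, h]

theorem cl2 : CL2 := by
  intro M n x J p a hp h2 hM
  have hco : (p - 1).Coprime p := (Nat.coprime_self_sub_left hp.pos).2 (Nat.coprime_one_left p)
  have h1 : #((range J).filter fun s => n + (2 ^ (x + M * s) - (x + M * s)) ≡ a [MOD p]) ≤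
      #(range (p - 1) ×ˢ range (J / ((p - 1) * p) + 1)) := by
    refine card_le_card_of_injOn (fun s => (s % (p - 1), s / ((p - 1) * p))) (fun s hs => ?_)
      fun s hs s' hs' h => ?_
    · have hs1 := mem_range.1 (mem_filter.1 (mem_coe.1 hs)).1
      exact mem_coe.2 (mem_product.2 ⟨mem_range.2 (Nat.mod_lt _ (by omega)),
        mem_range.2 (Nat.lt_succ_of_le (Nat.div_le_div_right hs1.le))⟩)
    · have e1 : s ≡ s' [MOD p - 1] := congrArg Prod.fst h
      have e2 : s / ((p - 1) * p) = s' / ((p - 1) * p) := congrArg Prod.snd h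
      have e3 := (ZMod.natCast_eq_natCast_iff _ _ _).2
        ((mem_filter.1 (mem_coe.1 hs)).2.trans (mem_filter.1 (mem_coe.1 hs')).2.symm)
      rw [CLx.cast, CLx.cast, CLx.pw2 hp h2 ((e1.mul_left M).add_left x), sub_right_inj] at e3
      have e4 := Nat.ModEq.add_left_cancel' x ((ZMod.natCast_eq_natCast_iff _ _ _).1 e3)
      have e5 : s ≡ s' [MOD p] :=
        Nat.ModEq.cancel_left_of_coprime (hp.coprime_iff_not_dvd.2 hM) e4
      exact CLx.eq_of ((Nat.modEq_and_modEq_iff_modEq_mul hco).1 ⟨e1, e5⟩) e2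
  rw [card_product, card_range, card_range] at h1
  have h3 : (p - 1) * (J / ((p - 1) * p)) ≤ J / p := by
    rw [mul_comm (p - 1) p, ← Nat.div_div_eq_div_mul]
    exact Nat.mul_div_le _ _
  have h4 : (p - 1) * (J / ((p - 1) * p) + 1) ≤ J / p + p := by
    rw [mul_add, mul_one]
    omega
  have h5 : ((J / p : ℕ) : ℝ) ≤ (J : ℝ) / p := Nat.cast_div_le
  have h6 := (Nat.cast_le (α := ℝ)).2 (h1.trans h4)
  rw [Nat.cast_add] at h6
  linarith

theorem CLx.pf {m L : ℕ} (h : m ≤ 4 ^ L) : #m.primeFactors ≤ 2 * L := by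
  rcases Nat.eq_zero_or_pos m with rfl | hm
  · simp
  have h1 : 2 ^ #m.primeFactors ≤ ∏ p ∈ m.primeFactors, p :=
    pow_card_le_prod _ _ _ fun p hp => (Nat.prime_of_mem_primeFactors hp).two_le
  have h2 := Nat.le_of_dvd hm (Nat.prod_primeFactors_dvd m)
  have h3 : 2 ^ #m.primeFactors ≤ 2 ^ (2 * L) := by
    rw [pow_mul]
    exact h1.trans (h2.trans h)
  exact (Nat.pow_le_pow_iff_right one_lt_two).1 h3

theorem CLx.cnt {d M : ℕ} (h : d.Coprime M) (c T : ℕ) :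
    (#((range T).filter fun t => d ∣ c + M * t) : ℝ) ≤ T / d + 1 := by
  have h1 : #((range T).filter fun t => d ∣ c + M * t) ≤ #(range (T / d + 1)) := by
    refine card_le_card_of_injOn (fun t => t / d) (fun s hs => ?_) fun s hs s' hs' e => ?_
    · have hs1 := mem_range.1 (mem_filter.1 (mem_coe.1 hs)).1
      exact mem_coe.2 (mem_range.2 (Nat.lt_succ_of_le (Nat.div_le_div_right hs1.le)))
    · have e3 : c + M * s ≡ c + M * s' [MOD d] :=
        ((Nat.modEq_zero_iff_dvd).2 (mem_filter.1 (mem_coe.1 hs)).2).trans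
          ((Nat.modEq_zero_iff_dvd).2 (mem_filter.1 (mem_coe.1 hs')).2).symm
      exact CLx.eq_of (Nat.ModEq.cancel_left_of_coprime h (Nat.ModEq.add_left_cancel' c e3)) e
  rw [card_range] at h1
  have h5 : ((T / d : ℕ) : ℝ) ≤ (T : ℝ) / d := Nat.cast_div_le
  have h6 := (Nat.cast_le (α := ℝ)).2 h1
  rw [Nat.cast_add, Nat.cast_one] at h6
  linarith

theorem CLx.dd {J L Y z : ℕ} {c : ℕ → ℕ} (hJ : J ≤ L) (hi : Set.InjOn c (Set.Iio J))
    (hc : ∀ s < J, c s ≤ 4 ^ L) : #(DD J c Y z) ≤ 2 * L ^ 3 := by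
  have h1 : DD J c Y z ⊆ (range J ×ˢ range J).biUnion fun u => (c u.1 - c u.2).primeFactors := by
    intro q hq
    obtain ⟨hq1, s, hs, s', hs', hne, hm⟩ := mem_filter.1 hq
    have hp : q.Prime := (mem_filter.1 hq1).2
    rcases lt_or_gt_of_ne (fun e => hne (hi hs hs' e)) with h | h
    · exact mem_biUnion.2 ⟨(s', s), mem_product.2 ⟨mem_range.2 hs', mem_range.2 hs⟩,
        Nat.mem_primeFactors.2 ⟨hp, (Nat.modEq_iff_dvd' h.le).1 hm, (Nat.sub_pos_of_lt h).ne'⟩⟩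
    · exact mem_biUnion.2 ⟨(s, s'), mem_product.2 ⟨mem_range.2 hs, mem_range.2 hs'⟩,
        Nat.mem_primeFactors.2 ⟨hp, (Nat.modEq_iff_dvd' h.le).1 hm.symm, (Nat.sub_pos_of_lt h).ne'⟩⟩
  have h2 := card_biUnion_le_card_mul (range J ×ˢ range J)
    (fun u => (c u.1 - c u.2).primeFactors) (2 * L) fun u hu =>
      CLx.pf ((Nat.sub_le _ _).trans (hc _ (mem_range.1 (mem_product.1 hu).1)))
  rw [card_product, card_range] at h2
  have h3 : J * J * (2 * L) ≤ L * L * (2 * L) := Nat.mul_le_mul_right _ (Nat.mul_le_mul hJ hJ)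
  calc #(DD J c Y z) ≤ _ := card_le_card h1
    _ ≤ L * L * (2 * L) := h2.trans h3
    _ = 2 * L ^ 3 := by ring

theorem CLx.sq {Y : ℕ} (hY : 0 < Y) (y T : ℕ) :
    ∑ q ∈ PR Y y, ((T : ℝ) / ((q ^ 2 : ℕ) : ℝ) + 1) ≤ T / Y + y := by
  have h1 : ∑ q ∈ PR Y y, ((T : ℝ) / ((q ^ 2 : ℕ) : ℝ) + 1) ≤
      ∑ q ∈ Ioc Y y, ((T : ℝ) / ((q ^ 2 : ℕ) : ℝ) + 1) :=
    sum_le_sum_of_subset_of_nonneg (filter_subset _ _) fun q _ _ => by positivity
  have h2 : ∑ q ∈ Ioc Y y, ((q : ℝ) ^ 2)⁻¹ ≤ (Y : ℝ)⁻¹ := by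
    rcases le_or_gt Y y with h | h
    · have h3 := sum_Ioc_inv_sq_le_sub (α := ℝ) hY.ne' h
      have h4 : 0 ≤ (y : ℝ)⁻¹ := by positivity
      linarith
    · rw [Ioc_eq_empty (by omega), sum_empty]
      positivity
  have h3 : ∑ q ∈ Ioc Y y, (T : ℝ) / ((q ^ 2 : ℕ) : ℝ) = T * ∑ q ∈ Ioc Y y, ((q : ℝ) ^ 2)⁻¹ := by
    rw [mul_sum]
    exact sum_congr rfl fun q _ => by rw [Nat.cast_pow, div_eq_mul_inv]
  have h4 : (#(Ioc Y y) : ℝ) ≤ y := by
    rw [Nat.card_Ioc]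
    exact_mod_cast Nat.sub_le _ _
  refine h1.trans ?_
  rw [sum_add_distrib, h3, sum_const, nsmul_eq_mul, mul_one]
  have h5 := mul_le_mul_of_nonneg_left h2 (Nat.cast_nonneg (α := ℝ) T)
  rw [div_eq_mul_inv (T : ℝ) Y]
  linarith

theorem CLx.bi {ι : Type} (I : Finset ι) (f : ι → Finset ℕ) (b : ι → ℝ)
    (h : ∀ i ∈ I, (#(f i) : ℝ) ≤ b i) : (#(I.biUnion f) : ℝ) ≤ ∑ i ∈ I, b i := by
  have h1 := (Nat.cast_le (α := ℝ)).2 (card_biUnion_le (s := I) (t := f))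
  rw [Nat.cast_sum] at h1
  exact h1.trans (sum_le_sum h)

theorem exc : EXC := by
  intro M J L T Y y z c hY hJ hi hc hM
  have hD := CLx.dd (Y := Y) (z := z) hJ hi hc
  refine ⟨hD, ?_⟩
  have hY' : (0 : ℝ) < Y := by exact_mod_cast hY
  have hPR : ∀ b q : ℕ, q ∈ PR Y b → Y < q ∧ q.Coprime M := fun b q hq => by
    have h1 := mem_filter.1 hq
    have h2 := (mem_Ioc.1 h1.1).1
    exact ⟨h2, h1.2.coprime_iff_not_dvd.2 (hM q h1.2 h2)⟩
  have h1 : ((range T).filter fun t => ∃ s < J,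
      (∃ q ∈ DD J c Y z, q ∣ c s + M * t) ∨ ∃ q ∈ PR Y y, q ^ 2 ∣ c s + M * t) ⊆
      (range J).biUnion fun s =>
        ((DD J c Y z).biUnion fun q => (range T).filter fun t => q ∣ c s + M * t) ∪
          (PR Y y).biUnion fun q => (range T).filter fun t => q ^ 2 ∣ c s + M * t := by
    intro t ht
    obtain ⟨ht1, s, hs, h⟩ := mem_filter.1 ht
    refine mem_biUnion.2 ⟨s, mem_range.2 hs, ?_⟩
    rcases h with ⟨q, hq, h⟩ | ⟨q, hq, h⟩
    · exact mem_union_left _ (mem_biUnion.2 ⟨q, hq, mem_filter.2 ⟨ht1, h⟩⟩)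
    · exact mem_union_right _ (mem_biUnion.2 ⟨q, hq, mem_filter.2 ⟨ht1, h⟩⟩)
  refine ((Nat.cast_le (α := ℝ)).2 (card_le_card h1)).trans ?_
  refine (CLx.bi _ _ (fun _ => 2 * (L : ℝ) ^ 3 * (T / Y + 1) + (T / Y + y)) fun s _ => ?_).trans ?_
  · refine ((Nat.cast_le (α := ℝ)).2 (card_union_le _ _)).trans ?_
    rw [Nat.cast_add]
    refine add_le_add ?_ ?_
    · refine (CLx.bi _ _ (fun _ => (T : ℝ) / Y + 1) fun q hq => ?_).trans ?_
      · obtain ⟨h2, h3⟩ := hPR z q (mem_filter.1 hq).1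
        refine (CLx.cnt h3 _ _).trans ?_
        have h4 : (Y : ℝ) ≤ q := by exact_mod_cast h2.le
        have h5 := div_le_div_of_nonneg_left (Nat.cast_nonneg (α := ℝ) T) hY' h4
        linarith
      · rw [sum_const, nsmul_eq_mul]
        exact mul_le_mul_of_nonneg_right (by exact_mod_cast hD) (by positivity)
    · exact (CLx.bi _ _ (fun q => (T : ℝ) / ((q ^ 2 : ℕ) : ℝ) + 1) fun q hq =>
        CLx.cnt ((hPR y q hq).2.pow_left 2) _ _).trans (CLx.sq hY y T)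
  · rw [sum_const, card_range, nsmul_eq_mul]
    have h2 : (J : ℝ) ≤ L := by exact_mod_cast hJ
    refine (mul_le_mul_of_nonneg_right h2 (by positivity)).trans (le_of_eq ?_)
    ring

end Pool.Agent.MP_fc7299_nt.AP

end

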