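import Pool.Agent.MP_fc7299_nt.AP.Defs3

section
namespace Pool.Agent.MP_fc7299_nt.AP

open Finset Filter

namespace UPz

open SELAx

theorem wt (U : Finset ℕ) : (∀ q ∈ U, 2 ≤ q) → ∀ f : Finset ℕ → ℝ,
    EP U f = V U * ∑ A ∈ U.powerset, f A * ∏ q ∈ A, 1 / ((q : ℝ) - 1) := by
  induction U using Finset.induction_on with
  | empty => intro _ f; simp [EP_empty, V]
  | insert q U hq ih =>
    intro h f
    have q2 : (2 : ℝ) ≤ q := by exact_mod_cast h q (mem_insert_self q U)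
    have h' : ∀ p ∈ U, 2 ≤ p := fun p hp => h p (mem_insert_of_mem hp)
    have q1 : (q : ℝ) - 1 ≠ 0 := by linarith
    rw [EP_insert hq, ih h', ih h', ins hq, V, V, prod_insert hq]
    field_simp

theorem loc (U : Finset ℕ) (Λ : ℝ) (S : Finset ℕ) : sw U Λ (S ∩ U) = sw U Λ S := by
  refine sum_congr rfl fun A hA => congrArg _ (prod_congr rfl fun p hp => ?_)
  simp only [eta, mem_inter, mem_powerset.1 hA hp, and_true]

theorem lin (Q : Finset ℕ) (f : ℕ → ℝ) : EP Q (fun S => ∑ q ∈ S, f q) = ∑ q ∈ Q, f q / q := by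
  induction Q using Finset.induction_on with
  | empty => simp [EP_empty]
  | insert q Q hq ih =>
    have e : EP Q (fun S => ∑ p ∈ insert q S, f p) = EP Q (fun S => f q + ∑ p ∈ S, f p) :=
      EP_congr fun S hS => sum_insert fun k => hq (hS k)
    rw [EP_insert hq, e, EP_add, EP_const, ih, sum_insert hq]
    ring

theorem qua (Q : Finset ℕ) (f : ℕ → ℝ) : EP Q (fun S => (∑ q ∈ S, f q) ^ 2) ≤
    (∑ q ∈ Q, f q / q) ^ 2 + ∑ q ∈ Q, f q ^ 2 / q := by
  induction Q using Finset.induction_on with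
  | empty => simp [EP_empty]
  | insert q Q hq ih =>
    have e : EP Q (fun S => (∑ p ∈ insert q S, f p) ^ 2) =
        EP Q (fun S => f q ^ 2 + 2 * f q * ∑ p ∈ S, f p + (∑ p ∈ S, f p) ^ 2) :=
      EP_congr fun S hS => by rw [sum_insert fun k => hq (hS k)]; ring
    rw [EP_insert hq, e, EP_add, EP_add, EP_const, EP_smul, lin, sum_insert hq, sum_insert hq,
      div_eq_mul_one_div (f q), div_eq_mul_one_div (f q ^ 2)]
    nlinarith [sq_nonneg (f q * (1 / (q : ℝ)))]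

theorem one {U : Finset ℕ} {Λ : ℝ} (h : ∀ q ∈ U, 2 ≤ q) (L0 : 0 < Λ) {q : ℕ} (hq : q ∈ U) :
    EP U (fun S => sw U Λ S ^ 2 * if q ∈ S then 1 else 0) ≤
      Real.log q ^ 2 / q * ((∑ A ∈ U.powerset, ∏ p ∈ A, 1 / ((p : ℝ) - 1)) / Λ ^ 2) := by
  have n := notMem_erase q U
  have h' : ∀ p ∈ U.erase q, 2 ≤ p := fun p hp => h p (mem_of_mem_erase hp)
  have e := EP_insert n fun S => sw U Λ S ^ 2 * if q ∈ S then 1 else 0
  rw [insert_erase hq] at e
  have e0 : EP (U.erase q) (fun S => sw U Λ S ^ 2 * if q ∈ S then 1 else 0) = 0 :=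
    (EP_congr fun S hS => by rw [if_neg fun k => n (hS k), mul_zero]).trans (EP_const _ 0)
  have e1 : EP (U.erase q) (fun S => sw U Λ (insert q S) ^ 2 * if q ∈ insert q S then 1 else 0) =
      ∑ A ∈ (U.erase q).powerset, (psi Λ A - psi Λ (insert q A)) ^ 2 *
        ∏ p ∈ A, 1 / ((p : ℝ) - 1) := by
    rw [← ort (U.erase q) (fun A => psi Λ A - psi Λ (insert q A)) h']
    refine EP_congr fun S _ => ?_
    have k := ins n (psi Λ) fun p => eta p (insert q S)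
    rw [insert_erase hq, eta_ins n, eta_ins n, show eta q (insert q S) = -1 by simp [eta]] at k
    rw [if_pos (mem_insert_self q S), mul_one, sw, k]
    simp only [sub_mul, sum_sub_distrib]
    ring
  have e2 : ∑ A ∈ (U.erase q).powerset, (psi Λ A - psi Λ (insert q A)) ^ 2 *
      ∏ p ∈ A, 1 / ((p : ℝ) - 1) ≤ (Real.log q / Λ) ^ 2 *
        ∑ A ∈ (U.erase q).powerset, ∏ p ∈ A, 1 / ((p : ℝ) - 1) := by
    rw [mul_sum]
    exact sum_le_sum fun A hA => mul_le_mul_of_nonneg_right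
      (psi_diff L0 fun k => n (mem_powerset.1 hA k))
      (g_nonneg fun p hp => h' p (mem_powerset.1 hA hp))
  rw [e, e0, e1, mul_zero, zero_add]
  refine (mul_le_mul_of_nonneg_left (e2.trans (mul_le_mul_of_nonneg_left
    (g_mono h (erase_subset q U)) (sq_nonneg _))) (by positivity)).trans (le_of_eq ?_)
  ring

theorem num {v N E a b : ℝ} (v0 : 0 < v) (a0 : 0 < a) (h1 : a ≤ v * N) (b0 : 0 ≤ b)
    (h2 : v * E ≤ b) : (1 / N) ^ 2 * E ≤ v * (b / a ^ 2) := by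
  have N0 : 0 < N := (mul_pos_iff_of_pos_left v0).1 (a0.trans_le h1)
  rw [show (1 / N) ^ 2 * E = v * (v * E / (v * N) ^ 2) by field_simp]
  exact mul_le_mul_of_nonneg_left
    (div_le_div₀ b0 h2 (by positivity) (pow_le_pow_left₀ a0.le h1 2)) v0.le

end UPz

theorem up : UP := by
  intro U U₁ Λ m σ h1 hU L0 hm mL hσ
  have h : ∀ q ∈ U, 2 ≤ q := fun q hq => h1 q (hU hq)
  have red : ∀ u : Finset ℕ → ℝ, (∀ S, u (S ∩ U) = u S) → EP U₁ u = EP U u := fun u hu => by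
    have s := spl U (U₁ \ U) u (fun _ => 1) disjoint_sdiff
    rw [union_sdiff_of_subset hU] at s
    simpa only [EP_const, mul_one, hu] using s
  have v0 : 0 < V U := prod_pos fun q hq => by
    have : (2 : ℝ) ≤ q := by exact_mod_cast h q hq
    rw [sub_pos, div_lt_one (by linarith)]
    linarith
  have v1 : V U ≤ 1 := prod_le_one (fun q hq => one_sub_nonneg (h q hq)) fun q _ => by
    have : 0 ≤ 1 / (q : ℝ) := by positivity
    linarith
  have s0 : 0 ≤ ∑ q ∈ U, Real.log q ^ 2 / q := sum_nonneg fun q _ => by positivity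
  have l1 := UPz.lin U fun q => Real.log q
  have l2 := UPz.qua U fun q => Real.log q
  have g1 := UPz.wt U h fun _ => 1
  have n1 : EP U (fun S => 1 - 1 / Λ * ∑ q ∈ S, Real.log q) ≤ V U * sw U Λ ∅ := by
    have e := UPz.wt U h (psi Λ)
    have e' : sw U Λ ∅ = ∑ A ∈ U.powerset, psi Λ A * ∏ q ∈ A, 1 / ((q : ℝ) - 1) := by
      simp only [sw, eta, notMem_empty, if_false]
    rw [e', ← e]
    refine EP_mono h fun S _ => le_trans (le_of_eq ?_) (le_max_right _ _)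
    ring
  have n2 : V U * EP U (fun S => sw U Λ S ^ 2) ≤ EP U (fun S =>
      1 - 2 / Λ * ∑ q ∈ S, Real.log q + 1 / Λ ^ 2 * (∑ q ∈ S, Real.log q) ^ 2) := by
    have e := ort U (psi Λ) h
    simp only [sw]
    rw [e, ← UPz.wt U h fun A => psi Λ A ^ 2]
    refine EP_mono h fun S _ => ?_
    rw [psi, show 1 - 2 / Λ * ∑ q ∈ S, Real.log q + 1 / Λ ^ 2 * (∑ q ∈ S, Real.log q) ^ 2 =
      (1 - (∑ q ∈ S, Real.log q) / Λ) ^ 2 by ring]
    generalize 1 - (∑ q ∈ S, Real.log q) / Λ = x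
    rcases le_total 0 x with k | k
    · rw [max_eq_right k]
    · rw [max_eq_left k]; nlinarith
  have n3 : EP U (fun S => sw U Λ S ^ 2 * #(S ∩ U)) =
      ∑ q ∈ U, EP U (fun S => sw U Λ S ^ 2 * if q ∈ S then 1 else 0) := by
    rw [← EP_sum]
    refine EP_congr fun S _ => ?_
    rw [← mul_sum, sum_ite_mem, inter_comm, sum_const, nsmul_one]
  have n4 := sum_le_sum fun q hq => UPz.one h L0 hq (U := U)
  rw [← sum_mul, ← n3] at n4
  rw [EP_sub, EP_const, EP_smul, l1] at n1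
  rw [EP_add, EP_sub, EP_const, EP_smul, EP_smul, l1] at n2
  simp only [EP_const, one_mul] at g1
  generalize ∑ A ∈ U.powerset, ∏ p ∈ A, 1 / ((p : ℝ) - 1) = G at *
  generalize ∑ q ∈ U, Real.log q / q = m0 at *
  generalize ∑ q ∈ U, Real.log q ^ 2 / q = σ0 at *
  have d0 : 0 < Λ - m := by linarith
  have a1 : 1 - 1 / Λ * m0 = (Λ - m0) / Λ := by field_simp
  have a2 : 1 / 2 ≤ (Λ - m0) / Λ := (le_div_iff₀ L0).2 (by linarith)
  have a0 : 0 < (Λ - m0) / Λ := by linarith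
  have d1 : 0 < Λ - m0 := by linarith
  rw [a1] at n1
  have N0 : 0 < sw U Λ ∅ := (mul_pos_iff_of_pos_left v0).1 (a0.trans_le n1)
  have mo : σ0 / (Λ - m0) ^ 2 ≤ σ / (Λ - m) ^ 2 :=
    div_le_div₀ (s0.trans hσ) hσ (by positivity) (pow_le_pow_left₀ d0.le (by linarith) 2)
  have ens : ∀ S, ns U Λ S = (1 / sw U Λ ∅) ^ 2 * sw U Λ S ^ 2 := fun S => by rw [ns]; ring
  refine ⟨by nlinarith, ?_, ?_, fun S hS => ?_⟩
  · rw [red _ fun S => by rw [ns, ns, UPz.loc], EP_congr fun S _ => ens S, EP_smul]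
    have b2 : V U * EP U (fun S => sw U Λ S ^ 2) ≤ ((Λ - m0) / Λ) ^ 2 + σ0 / Λ ^ 2 := by
      have := mul_le_mul_of_nonneg_left l2 (show 0 ≤ 1 / Λ ^ 2 by positivity)
      refine (n2.trans (add_le_add_right this _)).trans (le_of_eq ?_)
      field_simp
      ring
    refine (UPz.num v0 a0 n1 (by positivity) b2).trans (mul_le_mul_of_nonneg_left ?_ v0.le)
    refine le_trans (le_of_eq ?_) (add_le_add_right mo 1)
    field_simp
  · rw [red _ fun S => by rw [ns, ns, UPz.loc, inter_assoc, inter_self],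
      EP_congr fun S _ => by rw [ens S, mul_assoc], EP_smul]
    have b2 : V U * EP U (fun S => sw U Λ S ^ 2 * #(S ∩ U)) ≤ σ0 / Λ ^ 2 := by
      refine (mul_le_mul_of_nonneg_left n4 v0.le).trans (le_of_eq ?_)
      rw [show V U * (σ0 * (G / Λ ^ 2)) = V U * G * (σ0 / Λ ^ 2) by ring, ← g1, one_mul]
    refine (UPz.num v0 a0 n1 (by positivity) b2).trans (mul_le_mul_of_nonneg_left ?_ v0.le)
    refine le_trans (le_of_eq ?_) mo
    field_simp
  · rw [ns, ← UPz.loc U Λ S, hS, div_self N0.ne', one_pow]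

end Pool.Agent.MP_fc7299_nt.AP

end

section
namespace Pool.Agent.MP_fc7299_nt.AP

open Finset Filter

namespace PQ1z

theorem mem_PR {a b q : ℕ} (h : q ∈ PR a b) : a < q ∧ q ≤ b ∧ q.Prime := by
  simp only [PR, mem_filter, mem_Ioc] at h
  exact ⟨h.1.1, h.1.2, h.2⟩

theorem V_nonneg {U : Finset ℕ} (h : ∀ q ∈ U, 2 ≤ q) : 0 ≤ V U :=
  prod_nonneg fun q hq => one_sub_nonneg (h q hq)

theorem tele (a n : ℕ) (ha : 1 ≤ a) :
    ∑ q ∈ Ioc a (a + n), (1 / ((q : ℝ) - 1) - 1 / q) = 1 / a - 1 / ((a + n : ℕ) : ℝ) := by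
  induction n with
  | zero => simp
  | succ n ih =>
    rw [← add_assoc, sum_Ioc_succ_top (Nat.le_add_right a n), ih]
    push_cast
    ring

theorem fac {q : ℕ} (h : 2 ≤ q) : 1 ≤ (1 - 1 / (q : ℝ)) * Real.exp (1 / ((q : ℝ) - 1)) := by
  have h2 : (2 : ℝ) ≤ q := by exact_mod_cast h
  have h3 := mul_le_mul_of_nonneg_left (Real.add_one_le_exp (1 / ((q : ℝ) - 1))) (one_sub_nonneg h)
  have h4 : (1 - 1 / (q : ℝ)) * (1 / ((q : ℝ) - 1) + 1) = 1 := by
    have : (q : ℝ) - 1 ≠ 0 := by linarith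
    field_simp
    ring
  linarith

theorem gap {q : ℕ} (h : 2 ≤ q) : 0 ≤ 1 / ((q : ℝ) - 1) - 1 / q := by
  have h2 : (2 : ℝ) ≤ q := by exact_mod_cast h
  exact sub_nonneg.2 (one_div_le_one_div_of_le (by linarith) (by linarith))

theorem s1 {U : Finset ℕ} {a : ℕ} (h : U ⊆ PR 0 a) : ∑ q ∈ U, Real.log q / q ≤ m1 a :=
  sum_le_sum_of_subset_of_nonneg h fun q _ _ => div_nonneg (Real.log_natCast_nonneg q) q.cast_nonneg

theorem s2 {U : Finset ℕ} {a : ℕ} (h : U ⊆ PR 0 a) : ∑ q ∈ U, Real.log q ^ 2 / q ≤ m2 a :=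
  sum_le_sum_of_subset_of_nonneg h fun q _ _ => div_nonneg (sq_nonneg _) q.cast_nonneg

theorem m2_nonneg (a : ℕ) : 0 ≤ m2 a :=
  sum_nonneg fun q _ => div_nonneg (sq_nonneg _) q.cast_nonneg

theorem ns_insert {U : Finset ℕ} {q : ℕ} (hq : q ∉ U) (Λ : ℝ) (S : Finset ℕ) :
    ns U Λ (insert q S) = ns U Λ S := by
  have h : sw U Λ (insert q S) = sw U Λ S := by
    refine sum_congr rfl fun A hA => congrArg _ (prod_congr rfl fun p hp => ?_)
    have hp' : p ≠ q := fun e => hq (e ▸ mem_powerset.1 hA hp)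
    simp only [eta, mem_insert, hp', false_or]
  rw [ns, ns, h]

theorem EP_ind {Q U : Finset ℕ} {q : ℕ} (hq : q ∈ Q) (hU : q ∉ U) (Λ t : ℝ) :
    EP Q (fun S => if q ∈ S then t * ns U Λ S else 0) = t / q * EP (Q.erase q) (ns U Λ) := by
  have h := EP_insert (notMem_erase q Q) fun S => if q ∈ S then t * ns U Λ S else 0
  rw [insert_erase hq] at h
  have h0 : EP (Q.erase q) (fun S => if q ∈ S then t * ns U Λ S else 0) = 0 := by
    rw [EP_congr (v := fun _ => 0) fun S hS => if_neg fun h => notMem_erase q Q (hS h), EP_const]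
  have h1 : EP (Q.erase q) (fun S => if q ∈ insert q S then t * ns U Λ (insert q S) else 0) =
      t * EP (Q.erase q) (ns U Λ) := by
    rw [← EP_smul]
    exact EP_congr fun S _ => by rw [if_pos (mem_insert_self q S), ns_insert hU]
  rw [h, h0, h1]
  ring

end PQ1z

theorem vr : VR := by
  intro U a z ha hU
  have hW : U.filter (fun p => ¬ p ≤ a) ⊆ PR a z := fun q hq => by
    obtain ⟨h1, h2⟩ := mem_filter.1 hq
    obtain ⟨_, h3, h4⟩ := PQ1z.mem_PR (hU h1)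
    exact mem_filter.2 ⟨mem_Ioc.2 ⟨not_le.1 h2, h3⟩, h4⟩
  have h2 : ∀ q ∈ U, 2 ≤ q := fun q hq => (PQ1z.mem_PR (hU hq)).2.2.two_le
  have hV : V U = V (U.filter fun p => p ≤ a) * V (U.filter fun p => ¬ p ≤ a) :=
    (prod_filter_mul_prod_filter_not U _ _).symm
  have h0 : 0 ≤ V (U.filter fun p => p ≤ a) := PQ1z.V_nonneg fun q hq => h2 q (mem_filter.1 hq).1
  generalize U.filter (fun p => ¬ p ≤ a) = W at hW hV
  have h3 : ∀ q ∈ W, 2 ≤ q := fun q hq => (PQ1z.mem_PR (hW hq)).2.2.two_le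
  have h4 : 1 ≤ V W * Real.exp (∑ q ∈ W, 1 / ((q : ℝ) - 1)) := by
    rw [Real.exp_sum, V, ← prod_mul_distrib]
    have h := prod_le_prod (s := W) (f := fun _ => (1 : ℝ)) (fun _ _ => zero_le_one)
      fun q hq => PQ1z.fac (h3 q hq)
    rwa [prod_const_one] at h
  have h5 : lam W ≤ lam (PR a z) :=
    sum_le_sum_of_subset_of_nonneg hW fun q _ _ => by positivity
  have h6 : ∑ q ∈ W, (1 / ((q : ℝ) - 1) - 1 / q) ≤
      ∑ q ∈ Ioc a (a + z), (1 / ((q : ℝ) - 1) - 1 / q) :=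
    sum_le_sum_of_subset_of_nonneg (fun q hq => by
      obtain ⟨h1, h2, _⟩ := PQ1z.mem_PR (hW hq)
      exact mem_Ioc.2 ⟨h1, by omega⟩) fun q hq _ => PQ1z.gap (by have := (mem_Ioc.1 hq).1; omega)
  rw [PQ1z.tele a z ha, sum_sub_distrib] at h6
  have h7 : (0 : ℝ) ≤ 1 / ((a + z : ℕ) : ℝ) := by positivity
  have h8 : Real.exp (∑ q ∈ W, 1 / ((q : ℝ) - 1)) ≤ Real.exp (lam (PR a z) + 1 / a) := by
    refine Real.exp_le_exp.2 ?_
    unfold lam at h5 ⊢
    linarith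
  have h9 := h4.trans (mul_le_mul_of_nonneg_left h8 (PQ1z.V_nonneg h3))
  rw [hV, mul_assoc]
  exact le_mul_of_one_le_right h0 h9

theorem pq1 (hUP : UP) (hVR : VR) : PQ1 := by
  intro U U₁ z z' Λ Z zq Lq sd
  have h2 : ∀ q ∈ U₁, 2 ≤ q := fun q hq => by
    by_cases h : q ∈ U
    · exact (PQ1z.mem_PR (sd.lo h)).2.2.two_le
    · exact (PQ1z.mem_PR (sd.hi (Finset.mem_sdiff.2 ⟨hq, h⟩))).2.2.two_le
  have hV : 0 ≤ V U := PQ1z.V_nonneg fun q hq => h2 q (sd.sub hq)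
  obtain ⟨-, -, u3, u4⟩ := hUP U U₁ Λ (m1 z) (m2 z) h2 sd.sub sd.L0 (PQ1z.s1 sd.lo) sd.L1
    (PQ1z.s2 sd.lo)
  constructor
  · have h := spl U (U₁ \ U) em (fun _ => 1) disjoint_sdiff
    rw [union_sdiff_of_subset sd.sub, EP_const, EP_em, mul_one] at h
    rw [← h]
    refine EP_mono h2 fun S _ => ?_
    rw [mul_one, em]
    split_ifs with hS
    · exact (u4 S hS).ge
    · exact sq_nonneg _
  · have ht : ∀ q ∈ PR z z', 0 ≤ t4 Z q := fun q hq => by
      obtain ⟨_, h3, h4⟩ := PQ1z.mem_PR hq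
      have h5 : Real.log q ≤ Real.log z' :=
        Real.log_le_log (by exact_mod_cast h4.pos) (by exact_mod_cast h3)
      have h6 : Real.log q / Z ≤ 1 := (div_le_one sd.Z0).2 (h5.trans sd.Z1)
      unfold t4
      linarith
    have hP : ∀ q, 0 ≤ Ph z (zq q) (Lq q) := fun q =>
      mul_nonneg (Real.exp_pos _).le
        (add_nonneg zero_le_one (div_nonneg (PQ1z.m2_nonneg _) (sq_nonneg _)))
    have e1 : EP U₁ (q3 U Λ Z zq Lq) = EP U₁ (fun S => ns U Λ S * #(S ∩ U)) +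
        ∑ q ∈ U₁ \ U, EP U₁ fun S =>
          if q ∈ S then t4 Z q * ns (U.filter fun p => p ≤ zq q) (Lq q) S else 0 := by
      rw [← EP_sum, ← EP_add]
      refine EP_congr fun S hS => ?_
      rw [q3, ← sum_filter]
      congr 2
      ext q
      simp only [mem_filter, Finset.mem_sdiff]
      exact ⟨fun h => ⟨⟨hS h.1, h.2⟩, h.1⟩, fun h => ⟨h.2, h.1.2⟩⟩
    have e2 : ∀ q ∈ U₁ \ U, EP U₁ (fun S =>
        if q ∈ S then t4 Z q * ns (U.filter fun p => p ≤ zq q) (Lq q) S else 0) ≤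
        V U * (t4 Z q / q * Ph z (zq q) (Lq q)) := fun q hq => by
      obtain ⟨hq1, hq2⟩ := Finset.mem_sdiff.1 hq
      obtain ⟨a1, a2, a3⟩ := sd.q1 q
      have hs : U.filter (fun p => p ≤ zq q) ⊆ PR 0 (zq q) := fun p hp => by
        obtain ⟨b1, b2⟩ := mem_filter.1 hp
        obtain ⟨b3, _, b4⟩ := PQ1z.mem_PR (sd.lo b1)
        exact mem_filter.2 ⟨mem_Ioc.2 ⟨b3, b2⟩, b4⟩
      obtain ⟨-, v2, -, -⟩ := hUP (U.filter fun p => p ≤ zq q) (U₁.erase q) (Lq q) (m1 (zq q))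
        (m2 (zq q)) (fun p hp => h2 p (mem_of_mem_erase hp))
        (fun p hp => mem_erase.2 ⟨fun e => hq2 (e ▸ (mem_filter.1 hp).1), sd.sub (mem_filter.1 hp).1⟩)
        a2 (PQ1z.s1 hs) a3 (PQ1z.s2 hs)
      have v3 := mul_le_mul_of_nonneg_right (hVR U (zq q) z a1 sd.lo)
        (add_nonneg zero_le_one (div_nonneg (PQ1z.m2_nonneg (zq q)) (sq_nonneg (Lq q - m1 (zq q)))))
      have v4 := mul_le_mul_of_nonneg_left (v2.trans v3)
        (div_nonneg (ht q (sd.hi hq)) q.cast_nonneg)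
      rw [PQ1z.EP_ind hq1 fun h => hq2 (mem_filter.1 h).1]
      refine v4.trans_eq ?_
      rw [Ph]
      ring
    have e3 := sum_le_sum e2
    rw [← mul_sum] at e3
    have e4 : ∑ q ∈ U₁ \ U, t4 Z q / q * Ph z (zq q) (Lq q) ≤ 0.92 :=
      (sum_le_sum_of_subset_of_nonneg sd.hi fun q hq _ =>
        mul_nonneg (div_nonneg (ht q hq) q.cast_nonneg) (hP q)).trans sd.q2
    have e5 := mul_le_mul_of_nonneg_left e4 hV
    have e6 := mul_le_mul_of_nonneg_left sd.L2 hV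
    rw [e1]
    linarith

end Pool.Agent.MP_fc7299_nt.AP

end

section
namespace Pool.Agent.MP_fc7299_nt.AP

open Finset Filter

namespace PQ2z

theorem memPR {a b q : ℕ} : q ∈ PR a b ↔ (a < q ∧ q ≤ b) ∧ q.Prime := by
  rw [PR, mem_filter, mem_Ioc]

theorem ns_nonneg (U : Finset ℕ) (Λ : ℝ) (S : Finset ℕ) : 0 ≤ ns U Λ S := sq_nonneg _

theorem ns_le {U U₁ : Finset ℕ} (hUU : U ⊆ U₁) {Λ : ℝ} (hΛ : 0 < Λ) (h : 1 / 2 ≤ sw U Λ ∅)
    (S : Finset ℕ) : ns U Λ S ≤ 4 * (∏ q ∈ U₁, (1 + |eta q S|)) ^ 2 := by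
  have h0 : |sw U Λ S| ≤ ∏ q ∈ U₁, (1 + |eta q S|) :=
    (SFy.sw_abs U hΛ S).trans (prod_le_prod_of_subset_of_one_le hUU
      (fun q _ => by positivity) fun q _ _ => le_add_of_nonneg_right (abs_nonneg _))
  have h1 : sw U Λ S ^ 2 ≤ (∏ q ∈ U₁, (1 + |eta q S|)) ^ 2 := by
    rw [← sq_abs (sw U Λ S)]
    exact pow_le_pow_left₀ (abs_nonneg _) h0 2
  have h2 : 1 / 4 ≤ sw U Λ ∅ ^ 2 := by nlinarith
  rw [ns, div_pow, div_le_iff₀ (by linarith)]
  nlinarith [sq_nonneg (∏ q ∈ U₁, (1 + |eta q S|))]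

theorem big {U₁ : Finset ℕ} (hU : ∀ q ∈ U₁, 2 ≤ q) (f : Finset ℕ → ℝ)
    (hf : ∀ S ⊆ U₁, 0 ≤ f S ∧ f S ≤ 4 * (∏ q ∈ U₁, (1 + |eta q S|)) ^ 2 * 2 ^ #S) :
    EP U₁ (fun S => f S ^ 2) ≤ 16 * Real.exp (80 * lam U₁) := by
  have key : ∀ S ⊆ U₁, f S ^ 2 ≤
      16 * ∏ q ∈ U₁, if q ∈ S then (64 : ℝ) else (1 + 1 / ((q : ℝ) - 1)) ^ 4 := by
    intro S hS
    refine (pow_le_pow_left₀ (hf S hS).1 (hf S hS).2 2).trans (le_of_eq ?_)
    have h2 : (4 : ℝ) ^ #S = ∏ q ∈ U₁, if q ∈ S then (4 : ℝ) else 1 := by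
      rw [prod_ite, prod_const_one, mul_one, prod_const, filter_mem_eq_inter, inter_eq_right.2 hS]
    have e : ((2 : ℝ) ^ #S) ^ 2 = 4 ^ #S := by rw [← pow_mul, mul_comm, pow_mul]; norm_num
    have e2 : (4 * (∏ q ∈ U₁, (1 + |eta q S|)) ^ 2 * 2 ^ #S) ^ 2 =
        16 * ((∏ q ∈ U₁, (1 + |eta q S|)) ^ 4 * ((2 : ℝ) ^ #S) ^ 2) := by ring
    rw [e2, e, h2, ← prod_pow, ← prod_mul_distrib]
    refine congrArg _ (prod_congr rfl fun q hq => ?_)
    rw [SFy.eta_abs (hU q hq)]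
    split_ifs
    · norm_num
    · rw [mul_one]
  refine (EP_mono hU key).trans ?_
  rw [EP_smul, EP_prod U₁ (fun _ => 64) fun q => (1 + 1 / ((q : ℝ) - 1)) ^ 4, lam, mul_sum,
    Real.exp_sum]
  refine mul_le_mul_of_nonneg_left
    (prod_le_prod (fun q hq => ?_) fun q hq => SFy.fac (hU q hq)) (by norm_num)
  have := one_sub_nonneg (hU q hq)
  positivity

theorem m1_le {U : Finset ℕ} {a : ℕ} (h : U ⊆ PR 0 a) : ∑ q ∈ U, Real.log q / q ≤ m1 a :=
  sum_le_sum_of_subset_of_nonneg h fun q _ _ =>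
    div_nonneg (Real.log_natCast_nonneg q) (Nat.cast_nonneg q)

end PQ2z

theorem pq2 (hUP : UP) : PQ2 := by
  intro U U₁ z z' Λ Z zq Lq h
  have h2 : ∀ q ∈ U₁, 2 ≤ q := fun q hq => by
    by_cases hU : q ∈ U
    · exact (PQ2z.memPR.1 (h.lo hU)).2.two_le
    · exact (PQ2z.memPR.1 (h.hi (mem_sdiff.2 ⟨hq, hU⟩))).2.two_le
  have u0 := hUP U U₁ Λ (m1 z) _ h2 h.sub h.L0 (PQ2z.m1_le h.lo) h.L1 le_rfl
  have sq : ∀ q, (U.filter fun p => p ≤ zq q) ⊆ U₁ := fun q => (filter_subset _ _).trans h.sub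
  have uq := fun q => hUP (U.filter fun p => p ≤ zq q) U₁ (Lq q) (m1 (zq q)) _ h2 (sq q)
    (h.q1 q).2.1 (PQ2z.m1_le fun p hp => PQ2z.memPR.2
      ⟨⟨(PQ2z.memPR.1 (h.lo (mem_filter.1 hp).1)).1.1, (mem_filter.1 hp).2⟩,
        (PQ2z.memPR.1 (h.lo (mem_filter.1 hp).1)).2⟩) (h.q1 q).2.2 le_rfl
  have ht : ∀ S ⊆ U₁, ∀ q ∈ S \ U, 0 ≤ t4 Z q ∧ t4 Z q ≤ 1 := fun S hS q hq => by
    have hq' := PQ2z.memPR.1 (h.hi (sdiff_subset_sdiff hS (Subset.refl _) hq))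
    have l0 : 0 ≤ Real.log q := Real.log_natCast_nonneg q
    have l1 : Real.log q ≤ Z := (Real.log_le_log (by exact_mod_cast hq'.2.pos)
      (by exact_mod_cast hq'.1.2)).trans h.Z1
    have a0 := div_nonneg l0 h.Z0.le
    have a1 := (div_le_one h.Z0).2 l1
    unfold t4
    constructor <;> linarith
  have s0 : ∀ S ⊆ U₁, 0 ≤ ∑ q ∈ S \ U, t4 Z q * ns (U.filter fun p => p ≤ zq q) (Lq q) S :=
    fun S hS => sum_nonneg fun q hq => mul_nonneg (ht S hS q hq).1 (PQ2z.ns_nonneg _ _ _)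
  have q0 : ∀ S ⊆ U₁, 0 ≤ q3 U Λ Z zq Lq S := fun S hS =>
    add_nonneg (mul_nonneg (PQ2z.ns_nonneg _ _ _) (Nat.cast_nonneg _)) (s0 S hS)
  refine ⟨PQ2z.big h2 _ fun S _ => ⟨PQ2z.ns_nonneg _ _ _, ?_⟩,
    PQ2z.big h2 _ fun S hS => ⟨q0 S hS, ?_⟩, fun S hS => ⟨q0 S hS, fun hlt => ?_⟩⟩
  · exact (PQ2z.ns_le h.sub h.L0 u0.1 S).trans
      (le_mul_of_one_le_right (by positivity) (one_le_pow₀ (by norm_num)))
  · have a1 := PQ2z.ns_le h.sub h.L0 u0.1 S
    have a2 : ∑ q ∈ S \ U, t4 Z q * ns (U.filter fun p => p ≤ zq q) (Lq q) S ≤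
        #(S \ U) • (4 * (∏ q ∈ U₁, (1 + |eta q S|)) ^ 2) :=
      sum_le_card_nsmul _ _ _ fun q hq =>
        (mul_le_of_le_one_left (PQ2z.ns_nonneg _ _ _) (ht S hS q hq).2).trans
          (PQ2z.ns_le (sq q) (h.q1 q).2.1 (uq q).1 S)
    have a3 : (#(S \ U) : ℝ) + #(S ∩ U) = #S := by exact_mod_cast card_sdiff_add_card_inter S U
    have a4 : (#S : ℝ) < 2 ^ #S := by exact_mod_cast (#S).lt_two_pow_self
    have a5 : (0 : ℝ) ≤ 4 * (∏ q ∈ U₁, (1 + |eta q S|)) ^ 2 := by positivity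
    have a6 := mul_le_mul_of_nonneg_right a1 (Nat.cast_nonneg (α := ℝ) #(S ∩ U))
    have a7 := mul_le_mul_of_nonneg_left a4.le a5
    rw [nsmul_eq_mul] at a2
    rw [← a3] at a7
    unfold q3
    linarith
  · have e : S ∩ U = ∅ := by
      by_contra hne
      have c1 : (1 : ℝ) ≤ #(S ∩ U) := by
        exact_mod_cast card_pos.2 (nonempty_iff_ne_empty.2 hne)
      have c2 := le_mul_of_one_le_right (PQ2z.ns_nonneg U Λ S) c1
      have c3 := s0 S hS
      unfold q3 at hlt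
      linarith
    refine ⟨e, ?_⟩
    have e1 : S \ U = S := sdiff_eq_self_of_disjoint (disjoint_iff_inter_eq_empty.2 e)
    have e2 : ∀ q, ns (U.filter fun p => p ≤ zq q) (Lq q) S = 1 := fun q =>
      (uq q).2.2.2 S (subset_empty.1 (e ▸ inter_subset_inter_left (filter_subset _ _)))
    simpa only [q3, e, e1, e2, u0.2.2.2 S e, card_empty, Nat.cast_zero, mul_zero, zero_add,
      mul_one] using hlt

end Pool.Agent.MP_fc7299_nt.AP

end

section
namespace Pool.Agent.MP_fc7299_nt.AP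

open Finset Filter

theorem OGz.em_le (S : Finset ℕ) : |em S| ≤ 1 := by
  unfold em
  split_ifs <;> simp

theorem OGz.em_sq (S : Finset ℕ) : em S ^ 2 = em S := by
  unfold em
  split_ifs <;> simp

theorem OGz.tau (N : Finset ℕ) (hN : ∀ q ∈ N, 2 ≤ q) (k j : ℕ) (hj : k ≤ j) :
    EP N (fun S => (tr j em S - em S) ^ 2) ≤ 4 * (1 / 2) ^ k * Real.exp (17 * lam N) := by
  refine (tr2 tr1 j em N hN OGz.em_le).trans ?_
  have h : ((1 : ℝ) / 2) ^ j ≤ (1 / 2) ^ k := pow_le_pow_of_le_one (by norm_num) (by norm_num) hj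
  exact mul_le_mul_of_nonneg_right (by linarith) (Real.exp_pos _).le

theorem OGz.mean (N : Finset ℕ) (hN : ∀ q ∈ N, 2 ≤ q) (j : ℕ) (τ : ℝ)
    (h : EP N (fun S => (tr j em S - em S) ^ 2) ≤ τ) :
    V N - τ ≤ EP N (tr j em) ∧ EP N (tr j em) ≤ V N + τ ∧
      EP N (fun S => tr j em S ^ 2) ≤ 2 * V N + 2 * τ := by
  have h1 : EP N (fun S => em S - (tr j em S - em S) ^ 2) ≤ EP N (tr j em) :=
    EP_mono hN fun S _ => by have := (abs_le.1 (bon j S).2.2).1; linarith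
  have h2 : EP N (tr j em) ≤ EP N (fun S => em S + (tr j em S - em S) ^ 2) :=
    EP_mono hN fun S _ => by have := (abs_le.1 (bon j S).2.2).2; linarith
  have h3 : EP N (fun S => tr j em S ^ 2) ≤
      EP N (fun S => 2 * em S + 2 * (tr j em S - em S) ^ 2) :=
    EP_mono hN fun S _ => by
      have := OGz.em_sq S
      nlinarith [sq_nonneg (tr j em S - 2 * em S)]
  rw [EP_sub, EP_em] at h1
  rw [EP_add, EP_em] at h2
  rw [EP_add, EP_smul, EP_smul, EP_em] at h3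
  exact ⟨by linarith, by linarith, by linarith⟩

theorem og_main : OG := by
  intro N U₁ k P Q v W h2 hd h0 hv ha hb hc he hτ
  have hN : ∀ q ∈ N, 2 ≤ q := fun q hq => h2 q (mem_union_left _ hq)
  have hU₁ : ∀ q ∈ U₁, 2 ≤ q := fun q hq => h2 q (mem_union_right _ hq)
  obtain ⟨p1, -, p3⟩ := OGz.mean N hN (2 * k + 1) (V N / 500)
    ((OGz.tau N hN (2 * k) _ (Nat.le_succ _)).trans hτ)
  obtain ⟨r1, r2, r3⟩ := OGz.mean N hN (2 * k) (V N / 500)
    ((OGz.tau N hN (2 * k) _ le_rfl).trans hτ)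
  have hV : 0 ≤ V N := prod_nonneg fun q hq => one_sub_nonneg (hN q hq)
  refine ⟨?_, ?_, ?_⟩
  · have e : EP (N ∪ U₁) (og N U₁ k P Q) =
        EP N (tr (2 * k + 1) em) * EP U₁ P - EP N (tr (2 * k) em) * EP U₁ Q := by
      rw [← spl N U₁ _ _ hd, ← spl N U₁ _ _ hd, ← EP_sub]
      rfl
    rw [e]
    generalize EP N (tr (2 * k + 1) em) = t1 at *
    generalize EP N (tr (2 * k) em) = t2 at *
    generalize EP U₁ P = a1 at *
    generalize EP U₁ Q = a2 at *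
    have i1 : (V N - V N / 500) * v ≤ t1 * a1 := mul_le_mul p1 ha hv (by linarith)
    have i2 : t2 * a2 ≤ t2 * (0.97 * v) := mul_le_mul_of_nonneg_left hb (by linarith)
    have i3 : t2 * (0.97 * v) ≤ (V N + V N / 500) * (0.97 * v) :=
      mul_le_mul_of_nonneg_right r2 (by linarith)
    have i4 : 0 ≤ V N * v := mul_nonneg hV hv
    nlinarith
  · have e : EP (N ∪ U₁) (fun S => og N U₁ k P Q S ^ 2) ≤
        EP (N ∪ U₁) (fun S => 2 * (tr (2 * k + 1) em (S ∩ N) ^ 2 * P (S ∩ U₁) ^ 2) +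
          2 * (tr (2 * k) em (S ∩ N) ^ 2 * Q (S ∩ U₁) ^ 2)) :=
      EP_mono h2 fun S _ => by
        unfold og
        nlinarith [sq_nonneg (tr (2 * k + 1) em (S ∩ N) * P (S ∩ U₁) +
          tr (2 * k) em (S ∩ N) * Q (S ∩ U₁))]
    rw [EP_add, EP_smul, EP_smul,
      spl N U₁ (fun S => tr (2 * k + 1) em S ^ 2) (fun S => P S ^ 2) hd,
      spl N U₁ (fun S => tr (2 * k) em S ^ 2) (fun S => Q S ^ 2) hd] at e
    have n1 : 0 ≤ EP U₁ (fun S => P S ^ 2) := by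
      rw [← EP_const U₁ 0]
      exact EP_mono hU₁ fun S _ => sq_nonneg _
    have n2 : 0 ≤ EP U₁ (fun S => Q S ^ 2) := by
      rw [← EP_const U₁ 0]
      exact EP_mono hU₁ fun S _ => sq_nonneg _
    have i1 := mul_le_mul (p3.trans (by linarith : _ ≤ 4 * V N)) hc n1 (by linarith)
    have i2 := mul_le_mul (r3.trans (by linarith : _ ≤ 4 * V N)) he n2 (by linarith)
    linarith
  · intro S hS
    obtain ⟨s0, t0⟩ := h0 (S ∩ U₁) inter_subset_right
    have i1 := mul_le_mul_of_nonneg_right (bon k (S ∩ N)).1 s0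
    have i2 := mul_le_mul_of_nonneg_right (bon k (S ∩ N)).2.1 t0
    unfold og at hS
    by_cases h : S ∩ N = ∅
    · rw [em, if_pos h] at i1 i2
      exact ⟨h, by linarith⟩
    · rw [em, if_neg h] at i1 i2
      exact absurd hS (by linarith)

theorem om4 : OM4 := by
  intro m z S Z hm hZ hz hl hS hSz ht h1 hq
  have e : ArithmeticFunction.cardFactors m = ∑ q ∈ m.primeFactors, m.factorization q := by
    rw [ArithmeticFunction.cardFactors_eq_sum_factorization]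
    rfl
  have hsub : S ⊆ m.primeFactors.filter fun q => q ≤ z := fun q h => mem_filter.2 ⟨hS h, hSz q h⟩
  have a1 : ∑ q ∈ m.primeFactors.filter fun q => q ≤ z, m.factorization q ≤ #S + 1 := by
    refine le_trans (b := #(m.primeFactors.filter fun q => q ≤ z)) ?_ ?_
    · rw [card_eq_sum_ones]
      refine sum_le_sum fun q h => ?_
      obtain ⟨h2, h3⟩ := mem_filter.1 h
      have pq := Nat.prime_of_mem_primeFactors h2
      by_contra hc
      exact hq q pq h3 ((pq.pow_dvd_iff_le_factorization hm.ne').2 (by omega))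
    · have := card_sdiff_add_card_eq_card hsub
      omega
  have lg : Real.log m = ∑ q ∈ m.primeFactors, (m.factorization q : ℝ) * Real.log q := by
    rw [Real.log_nat_eq_sum_factorization]
    rfl
  have a2 : ∑ q ∈ S, Real.log q ≤
      ∑ q ∈ m.primeFactors.filter fun q => q ≤ z, (m.factorization q : ℝ) * Real.log q := by
    refine le_trans (sum_le_sum fun q h => ?_) (sum_le_sum_of_subset_of_nonneg hsub fun q _ _ =>
      mul_nonneg (Nat.cast_nonneg _) (Real.log_natCast_nonneg q))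
    have h2 : 1 ≤ m.factorization q :=
      (Nat.prime_of_mem_primeFactors (hS h)).factorization_pos_of_dvd hm.ne'
        (Nat.dvd_of_mem_primeFactors (hS h))
    have h3 : (1 : ℝ) ≤ m.factorization q := by exact_mod_cast h2
    exact le_mul_of_one_le_left (Real.log_natCast_nonneg q) h3
  have a3 : ((∑ q ∈ m.primeFactors.filter fun q => ¬ q ≤ z, m.factorization q : ℕ) : ℝ) * Z ≤
      ∑ q ∈ m.primeFactors.filter fun q => ¬ q ≤ z, (m.factorization q : ℝ) * Real.log q := by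
    rw [Nat.cast_sum, sum_mul]
    refine sum_le_sum fun q h => mul_le_mul_of_nonneg_left (hz.trans ?_) (Nat.cast_nonneg _)
    have h2 : z + 1 ≤ q := by
      have := (mem_filter.1 h).2
      omega
    exact Real.log_le_log (by positivity) (by exact_mod_cast h2)
  have a4 : (#S : ℝ) * Z < 1.7 * Z + ∑ q ∈ S, Real.log q := by
    have h2 : ∑ q ∈ S, t4 Z q = 10 / 17 * ((#S : ℝ) - (∑ q ∈ S, Real.log q) / Z) := by
      simp only [t4, ← mul_sum, ← sum_div, sum_sub_distrib, sum_const, nsmul_eq_mul, mul_one]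
    rw [h2] at ht
    have h3 : (#S : ℝ) - 1.7 < (∑ q ∈ S, Real.log q) / Z := by linarith
    rw [lt_div_iff₀ hZ] at h3
    linarith
  rw [← sum_filter_add_sum_filter_not m.primeFactors fun q => q ≤ z] at lg
  rw [e, ← sum_filter_add_sum_filter_not m.primeFactors fun q => q ≤ z]
  generalize ∑ q ∈ m.primeFactors.filter fun q => ¬ q ≤ z, m.factorization q = b at *
  have a5 : ((#S + b : ℕ) : ℝ) * Z < (4 : ℕ) * Z := by
    push_cast
    linarith
  have a6 : #S + b < 4 := by exact_mod_cast lt_of_mul_lt_mul_right a5 hZ.le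
  omega

end Pool.Agent.MP_fc7299_nt.AP

end

section
namespace Pool.Agent.MP_fc7299_nt.AP

open Finset Filter

namespace SC6z

theorem ns_sc (hUP : UP) {P M a : ℕ} (c : ℕ) {W U U₁ : Finset ℕ} {Λ : ℝ} (h : Ok P M U₁)
    (hW : W ⊆ U) (hU : U ⊆ U₁) (ha : W ⊆ PR 0 a) (hΛ : 0 < Λ) (hm : m1 a ≤ Λ / 2) :
    Sc P (fun t => ns W Λ (B U₁ M c t)) (4 * Real.exp (8 * lam U) * Real.exp (2 * Λ)) := by
  have h1 := (hUP W U₁ Λ (m1 a) _ h.two (hW.trans hU) hΛ
    (sum_le_sum_of_subset_of_nonneg ha fun q _ _ =>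
      div_nonneg (Real.log_natCast_nonneg q) (Nat.cast_nonneg q)) hm le_rfl).1
  have s1 := sc4 sc2 sc3 P M c W U₁ Λ h (hW.trans hU) hΛ
  have k := sc2 P _ _ _ _ (Sc.const P (1 / sw W Λ ∅ ^ 2)) (sc2 P _ _ _ _ s1 s1)
  have e : (fun t => ns W Λ (B U₁ M c t)) = fun t =>
      1 / sw W Λ ∅ ^ 2 * (sw W Λ (B U₁ M c t) * sw W Λ (B U₁ M c t)) := by
    funext t
    rw [ns]
    ring
  rw [e]
  refine k.mono ?_
  have h2 : |1 / sw W Λ ∅ ^ 2| ≤ 4 := by
    rw [abs_of_nonneg (by positivity), div_le_iff₀ (by positivity)]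
    nlinarith
  have h3 : lam W ≤ lam U := sum_le_sum_of_subset_of_nonneg hW fun q _ _ => by positivity
  have h4 : Real.exp Λ * Real.exp (4 * lam W) * (Real.exp Λ * Real.exp (4 * lam W)) ≤
      Real.exp (8 * lam U) * Real.exp (2 * Λ) := by
    simp only [← Real.exp_add]
    exact Real.exp_le_exp.2 (by linarith)
  rw [mul_assoc 4]
  exact mul_le_mul h2 h4 (by positivity) (by norm_num)

theorem card_sc {P M z : ℕ} (c : ℕ) {U U₁ : Finset ℕ} (h : Ok P M U₁) (hU : U ⊆ U₁)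
    (hz : U ⊆ PR 0 z) : Sc P (fun t => (#(B U₁ M c t ∩ U) : ℝ)) z := by
  have k := Sc.sum U (φ := fun q t => if q ∣ c + M * t then (1 : ℝ) else 0) (b := fun _ => |1|)
    fun q hq => sc3 P M c q 1 (h.2.1 q (hU hq)).1 (h.2.1 q (hU hq)).2 (SDy.dvd h (hU hq))
  have e : (fun t => (#(B U₁ M c t ∩ U) : ℝ)) =
      fun t => ∑ q ∈ U, if q ∣ c + M * t then (1 : ℝ) else 0 := by
    funext t
    rw [B_inter hU, B, sum_boole]
  rw [e]
  refine k.mono ?_
  have h3 : #U ≤ #(Ioc 0 z) := card_le_card (hz.trans (filter_subset _ _))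
  rw [Nat.card_Ioc, Nat.sub_zero] at h3
  rw [abs_one, sum_const, nsmul_eq_mul, mul_one]
  exact Nat.cast_le.2 h3

theorem t4_abs {z z' q : ℕ} {Z : ℝ} (hZ : 0 < Z) (h1 : Real.log z' ≤ Z) (hq : q ∈ PR z z') :
    |t4 Z q| ≤ 1 := by
  obtain ⟨h2, h3⟩ := mem_filter.1 hq
  have h4 : Real.log q ≤ Real.log z' :=
    Real.log_le_log (by exact_mod_cast h3.pos) (by exact_mod_cast (mem_Ioc.1 h2).2)
  have h5 : Real.log q / Z ≤ 1 := (div_le_one hZ).2 (h4.trans h1)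
  have h6 : 0 ≤ Real.log q / Z := div_nonneg (Real.log_natCast_nonneg q) hZ.le
  rw [t4, abs_le]
  constructor <;> linarith

theorem hi_sc (hUP : UP) {P M z z' : ℕ} (c : ℕ) {U U₁ : Finset ℕ} {Λ Z b : ℝ} {zq : ℕ → ℕ}
    {Lq : ℕ → ℝ} (h : Ok P M U₁) (hS : Sd U U₁ z z' Λ Z zq Lq)
    (hb : ∑ q ∈ PR z z', Real.exp (2 * Lq q) ≤ b) :
    Sc P (fun t => ∑ q ∈ B U₁ M c t \ U,
      t4 Z q * ns (U.filter fun p => p ≤ zq q) (Lq q) (B U₁ M c t))
      (4 * Real.exp (8 * lam U) * b) := by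
  have k := Sc.sum (P := P) (U₁ \ U) (φ := fun q t => (if q ∣ c + M * t then t4 Z q else 0) *
      ns (U.filter fun p => p ≤ zq q) (Lq q) (B U₁ M c t))
    (b := fun q => 4 * Real.exp (8 * lam U) * Real.exp (2 * Lq q)) fun q hq => by
      have hq' := (Finset.mem_sdiff.1 hq).1
      refine (sc2 P _ _ _ _ (sc3 P M c q (t4 Z q) (h.2.1 q hq').1 (h.2.1 q hq').2 (SDy.dvd h hq'))
        (ns_sc hUP (a := zq q) c h (filter_subset _ _) hS.sub (fun p hp => ?_) (hS.q1 q).2.1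
          (hS.q1 q).2.2)).mono
        (mul_le_of_le_one_left (by positivity) (t4_abs hS.Z0 hS.Z1 (hS.hi hq)))
      obtain ⟨p1, p2⟩ := mem_filter.1 hp
      have p3 := (mem_filter.1 (hS.lo p1)).2
      exact mem_filter.2 ⟨mem_Ioc.2 ⟨p3.pos, p2⟩, p3⟩
  have e : (fun t => ∑ q ∈ B U₁ M c t \ U,
      t4 Z q * ns (U.filter fun p => p ≤ zq q) (Lq q) (B U₁ M c t)) = fun t => ∑ q ∈ U₁ \ U,
        (if q ∣ c + M * t then t4 Z q else 0) *
          ns (U.filter fun p => p ≤ zq q) (Lq q) (B U₁ M c t) := by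
    funext t
    have e1 : B U₁ M c t \ U = (U₁ \ U).filter fun q => q ∣ c + M * t := by
      ext q
      simp only [B, Finset.mem_sdiff, mem_filter]
      tauto
    rw [e1, sum_filter]
    exact sum_congr rfl fun q _ => by rw [ite_mul, zero_mul]
  rw [e]
  refine k.mono ?_
  rw [← mul_sum]
  exact mul_le_mul_of_nonneg_left
    ((sum_le_sum_of_subset_of_nonneg hS.hi fun q _ _ => (Real.exp_pos _).le).trans hb)
    (by positivity)

end SC6z

theorem sc6 (hUP : UP) : SC6 := by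
  intro P M c k N U U₁ z z' Λ Z y b zq Lq h hS hy hN hb
  have hN' : Ok P M N := h.mono subset_union_left
  have hU' : Ok P M U₁ := h.mono subset_union_right
  have t1 := sc0 P _ _ h.1 (tr3 sh3 P M c (2 * k + 1) em N y hN' hy hN SDy.em_abs)
  have t2 := sc0 P _ _ h.1 (tr3 sh3 P M c (2 * k) em N y hN' hy hN SDy.em_abs)
  have s1 := SC6z.ns_sc hUP c hU' subset_rfl hS.sub hS.lo hS.L0 hS.L1
  have s2 := (sc2 P _ _ _ _ s1 (SC6z.card_sc c hU' hS.sub hS.lo)).add (SC6z.hi_sc hUP c hU' hS hb)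
  have k1 := (sc2 P _ _ _ _ t1 s1).add (sc2 P _ _ _ _ (Sc.const P (-1)) (sc2 P _ _ _ _ t2 s2))
  have e : (fun t => og N U₁ k (ns U Λ) (q3 U Λ Z zq Lq) (B (N ∪ U₁) M c t)) = fun t =>
      tr (2 * k + 1) em (B N M c t) * ns U Λ (B U₁ M c t) +
        -1 * (tr (2 * k) em (B N M c t) * (ns U Λ (B U₁ M c t) * (#(B U₁ M c t ∩ U) : ℝ) +
          ∑ q ∈ B U₁ M c t \ U,
            t4 Z q * ns (U.filter fun p => p ≤ zq q) (Lq q) (B U₁ M c t))) := by
    funext t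
    rw [og, B_inter subset_union_left, B_inter subset_union_right, q3]
    ring
  rw [e]
  refine k1.mono ?_
  have h1 : (1 : ℝ) ≤ 2 * y ^ 2 := by nlinarith
  have h2 : (2 * y ^ 2) ^ (2 * k) ≤ (2 * y ^ 2) ^ (2 * k + 1) :=
    pow_le_pow_right₀ h1 (Nat.le_succ _)
  have h5 := mul_le_mul_of_nonneg_right h2 s2.nonneg
  rw [abs_neg, abs_one, one_mul]
  refine (add_le_add le_rfl h5).trans (le_of_eq ?_)
  ring

end Pool.Agent.MP_fc7299_nt.AP

end

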