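import Pool.Agent.MP_48b1c3_nt.H54.Mertens

/-! Almost all `n` are `x + y` with `2 ^ x + y` an almost prime: definitions and row statements. -/

namespace Pool.Agent.MP_fc7299_nt.AP

open Finset Filter

noncomputable section

/-- mean over one period -/
def E (P : ℕ) (φ : ℕ → ℝ) : ℝ := (∑ t ∈ range P, φ t) / P

/-- sums of periodic functions; the cost of one piece is period times size -/
inductive Sh (P : ℕ) : (ℕ → ℝ) → ℝ → Prop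
  | base (φ : ℕ → ℝ) (d : ℕ) (c : ℝ) :
      d ∣ P → Function.Periodic φ d → (∀ t, |φ t| ≤ c) → Sh P φ (d * c)
  | add {φ ψ : ℕ → ℝ} {B C : ℝ} : Sh P φ B → Sh P ψ C → Sh P (fun t => φ t + ψ t) (B + C)
  | mono {φ : ℕ → ℝ} {B C : ℝ} : Sh P φ B → B ≤ C → Sh P φ C

/-- the members of `Q` dividing `c + M t` -/
def B (Q : Finset ℕ) (M c t : ℕ) : Finset ℕ := Q.filter fun q => q ∣ c + M * t

/-- mean of `u` at a random subset of `Q` containing `q` with probability `1/q`, independently -/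
def EP (Q : Finset ℕ) (u : Finset ℕ → ℝ) : ℝ :=
  ∑ S ∈ Q.powerset, ((∏ q ∈ S, 1 / (q : ℝ)) * ∏ q ∈ Q \ S, (1 - 1 / (q : ℝ))) * u S

def Ok (P M : ℕ) (Q : Finset ℕ) : Prop :=
  0 < P ∧ (∀ q ∈ Q, q.Prime ∧ ¬ q ∣ M) ∧ (∏ q ∈ Q, q) ∣ P

def V (Q : Finset ℕ) : ℝ := ∏ q ∈ Q, (1 - 1 / (q : ℝ))

def lam (Q : Finset ℕ) : ℝ := ∑ q ∈ Q, 1 / (q : ℝ)

def H (R : Finset ℕ) (c c' : ℕ) : ℝ := ∏ q ∈ R.filter fun q => c ≡ c' [MOD q], (1 - 1 / (q : ℝ))⁻¹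

def eta (q : ℕ) (S : Finset ℕ) : ℝ := if q ∈ S then -1 else 1 / ((q : ℝ) - 1)

def psi (Λ : ℝ) (A : Finset ℕ) : ℝ := max 0 (1 - (∑ q ∈ A, Real.log q) / Λ)

def sw (U : Finset ℕ) (Λ : ℝ) (S : Finset ℕ) : ℝ := ∑ A ∈ U.powerset, psi Λ A * ∏ q ∈ A, eta q S

/-- Selberg's lower bound weight -/
def w (U : Finset ℕ) (Λ : ℝ) (S : Finset ℕ) : ℝ := sw U Λ S ^ 2 * (1 - (#S : ℝ))

/-- truncated Moebius expansion -/
def tr (k : ℕ) (f : Finset ℕ → ℝ) (S : Finset ℕ) : ℝ :=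
  ∑ A ∈ S.powerset.filter fun A => #A ≤ k, ∑ T ∈ A.powerset, (-1) ^ #(A \ T) * f T

def em (S : Finset ℕ) : ℝ := if S = ∅ then 1 else 0

def ex (j : ℕ) (S : Finset ℕ) : ℝ := if #S = j then 1 else 0

def fl (R A : Finset ℕ) (j : ℕ) (S : Finset ℕ) : ℝ := em (S ∩ R) * ex j (S ∩ A)

/-- primes in `(a, b]` -/
def PR (a b : ℕ) : Finset ℕ := (Ioc a b).filter Nat.Prime

/-- the standing hypotheses of the second moment -/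
structure Cfg (P M J : ℕ) (c : ℕ → ℕ) (R A U : Finset ℕ) (Λ ε : ℝ) : Prop where
  ok : Ok P M (R ∪ A ∪ U)
  dRA : Disjoint R A
  dRU : Disjoint R U
  dAU : Disjoint A U
  J0 : 0 < J
  big : ∀ q ∈ A ∪ U, J + 1 ≤ q
  sep : ∀ q ∈ A ∪ U, ∀ s < J, ∀ s' < J, s ≠ s' → ¬ c s ≡ c s' [MOD q]
  e0 : 0 ≤ ε
  rom : ∑ s ∈ range J, ∑ s' ∈ (range J).erase s, H R (c s) (c s') ≤ (1 + ε) * (J : ℝ) ^ 2
  L0 : 0 < Λ
  L1 : ∀ q ∈ U, Real.log q ≤ Λ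
  L2 : ∑ q ∈ U, Real.log q / ((q : ℝ) - 1) ≤ Λ / 4

/-! ### rows -/

def SH1 : Prop := ∀ (P T : ℕ) (φ : ℕ → ℝ) (b : ℝ), 0 < P → Sh P φ b →
  |∑ t ∈ range T, φ t - T * E P φ| ≤ 2 * b

def SH2 : Prop := ∀ (P : ℕ) (φ ψ : ℕ → ℝ) (b c : ℝ), 0 < P → Sh P φ b → Sh P ψ c →
  Sh P (fun t => φ t * ψ t) (b * c)

def SH3 : Prop := ∀ (P M c : ℕ) (Q : Finset ℕ) (F : Finset (Finset ℕ)) (D b : ℝ)
  (φ : Finset ℕ → Finset ℕ → ℝ), Ok P M Q → F ⊆ Q.powerset → 0 ≤ D → 0 ≤ b →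
  (∀ A ∈ F, ∏ q ∈ A, (q : ℝ) ≤ D) → (∀ A ∈ F, ∀ S, |φ A S| ≤ b) →
  Sh P (fun t => ∑ A ∈ F, φ A (B A M c t)) (D * D * b)

def IND : Prop := ∀ (P a b : ℕ) (φ ψ : ℕ → ℝ), 0 < P → a.Coprime b → a * b ∣ P →
  Function.Periodic φ a → Function.Periodic ψ b → E P (fun t => φ t * ψ t) = E P φ * E P ψ

/-- one prime: the density of a class, and of two different classes together -/
def PRI : Prop := ∀ (P M q c : ℕ), 0 < P → q.Prime → ¬ q ∣ M → q ∣ P →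
  E P (fun t => if q ∣ c + M * t then 1 else 0) = 1 / (q : ℝ)

def ONE : Prop := ∀ (P M c : ℕ) (Q : Finset ℕ) (u : Finset ℕ → ℝ), Ok P M Q →
  E P (fun t => u (B Q M c t)) = EP Q u

def TWO : Prop := ∀ (P M c c' : ℕ) (Q : Finset ℕ) (u : Finset ℕ → ℝ) (θ : ℝ), Ok P M Q → 0 ≤ θ →
  (∀ q ∈ Q, ¬ c ≡ c' [MOD q] ∧ 1 / ((q : ℝ) - 1) ≤ θ) →
  E P (fun t => u (B Q M c t) * u (B Q M c' t)) ≤ EP Q u ^ 2 + θ * EP Q fun S => u S ^ 2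

def RR : Prop := ∀ (P M c c' : ℕ) (R : Finset ℕ), Ok P M R →
  E P (fun t => em (B R M c t) * em (B R M c' t)) ≤ V R ^ 2 * H R c c'

def ORT : Prop := ∀ (U : Finset ℕ) (a : Finset ℕ → ℝ), (∀ q ∈ U, 2 ≤ q) →
  EP U (fun S => (∑ A ∈ U.powerset, a A * ∏ q ∈ A, eta q S) ^ 2) =
    ∑ A ∈ U.powerset, a A ^ 2 * ∏ q ∈ A, 1 / ((q : ℝ) - 1)

def SEL1 : Prop := ∀ (U : Finset ℕ) (Λ : ℝ), (∀ q ∈ U, 2 ≤ q) → 0 < Λ →
  (∀ q ∈ U, Real.log q ≤ Λ) → ∑ q ∈ U, Real.log q / ((q : ℝ) - 1) ≤ Λ / 4 → 1 / 4 ≤ EP U (w U Λ)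

def SEL2 : Prop := ∀ (U : Finset ℕ) (Λ : ℝ), (∀ q ∈ U, 2 ≤ q) → 0 < Λ →
  EP U (fun S => w U Λ S ^ 2) ≤ Real.exp (80 * lam U)

def SEL3 : Prop := ∀ (P M c : ℕ) (U : Finset ℕ) (Λ z : ℝ), Ok P M U → 0 < Λ → 1 ≤ z →
  (∀ q ∈ U, (q : ℝ) ≤ z) → Sh P (fun t => w U Λ (B U M c t)) (Real.exp (4 * Λ) * (1 + z ^ 2))

def TR1 : Prop := ∀ (k : ℕ) (f : Finset ℕ → ℝ) (S : Finset ℕ), #S ≤ k → tr k f S = f S

def TR2 : Prop := ∀ (k : ℕ) (f : Finset ℕ → ℝ) (Q : Finset ℕ), (∀ q ∈ Q, 2 ≤ q) → (∀ S, |f S| ≤ 1) →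
  EP Q (fun S => (tr k f S - f S) ^ 2) ≤ 4 * (1 / 2) ^ k * Real.exp (17 * lam Q)

def TR3 : Prop := ∀ (P M c k : ℕ) (f : Finset ℕ → ℝ) (Q : Finset ℕ) (y : ℝ), Ok P M Q → 1 ≤ y →
  (∀ q ∈ Q, (q : ℝ) ≤ y) → (∀ S, |f S| ≤ 1) → Sh P (fun t => tr k f (B Q M c t)) ((2 * y ^ 2) ^ k)

def TR4 : Prop := ∀ (P M c k T : ℕ) (Q : Finset ℕ) (y : ℝ), Ok P M Q → 1 ≤ y →
  (∀ q ∈ Q, (q : ℝ) ≤ y) → (#((range T).filter fun t => k < #(B Q M c t)) : ℝ) ≤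
    T * ((1 / 2) ^ k * Real.exp (2 * lam Q)) + 2 * y ^ (2 * k + 2)

def ES : Prop := ∀ (Q : Finset ℕ) (j : ℕ) (Y : ℝ), 0 < Y → (∀ q ∈ Q, 2 ≤ q ∧ Y ≤ q) →
  2 * (j : ℝ) ≤ Y * lam Q → V Q * (lam Q / 2) ^ j / j.factorial ≤ EP Q (ex j)

def VL : Prop := ∀ Q : Finset ℕ, (∀ q ∈ Q, 2 ≤ q) → Real.exp (-lam Q - 2) ≤ V Q

def SPL : Prop := ∀ (Q Q' : Finset ℕ) (u v : Finset ℕ → ℝ), Disjoint Q Q' →
  EP (Q ∪ Q') (fun S => u (S ∩ Q) * v (S ∩ Q')) = EP Q u * EP Q' v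

/-- second moment in the model -/
def CO1 : Prop := ∀ (P M J j : ℕ) (c : ℕ → ℕ) (R A U : Finset ℕ) (Λ ε κ : ℝ),
  Cfg P M J c R A U Λ ε → 0 < κ → κ ≤ J * V R * EP A (ex j) →
  E P (fun t => ((∑ s ∈ range J, fl R A j (B (R ∪ A) M (c s) t) * w U Λ (B U M (c s) t)) /
      (J * V R * EP A (ex j) * EP U (w U Λ)) - 1) ^ 2) ≤ ε + 32 * Real.exp (80 * lam U) / κ

/-- the count on an interval -/
def CO2 : Prop := ∀ (P M J j k T : ℕ) (c : ℕ → ℕ) (R A U : Finset ℕ) (Λ ε κ y z : ℝ),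
  Cfg P M J c R A U Λ ε → 0 < κ → κ ≤ J * V R * EP A (ex j) → 1 ≤ y → 1 ≤ z →
  (∀ q ∈ R ∪ A, (q : ℝ) ≤ y) → (∀ q ∈ U, (q : ℝ) ≤ z) →
  (#((range T).filter fun t => ∀ s < J,
      ¬ (B R M (c s) t = ∅ ∧ #(B A M (c s) t) = j ∧ B U M (c s) t = ∅)) : ℝ) ≤
    T * (2 * ε + 64 * Real.exp (80 * lam U) / κ +
      128 * (J : ℝ) ^ 2 * (1 / 2) ^ k * Real.exp (17 * lam (R ∪ A)) * Real.exp (80 * lam U) / κ ^ 2 +
      J * ((1 / 2) ^ k * Real.exp (2 * lam (R ∪ A)))) +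
    2 * (4 * J * ((2 * y ^ 2) ^ k * (Real.exp (4 * Λ) * (1 + z ^ 2))) / κ + 1) ^ 2 +
    2 * J * y ^ (2 * k + 2)

/-- products over odd primes, expanded along the largest prime -/
def TEL : Prop := ∀ S : Finset ℕ, (∀ q ∈ S, q.Prime ∧ 2 < q) →
  ∏ q ∈ S, (1 - 1 / (q : ℝ))⁻¹ ≤ 1 + ∑ q ∈ S, 2 / Real.sqrt q

/-- Romanoff type average, finite form -/
def RO1 : Prop := ∀ (K a A Y J n : ℕ) (c : ℕ → ℕ) (C : ℝ), 2 ≤ K → K ≤ a → a ≤ A → a ≤ Y →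
  Set.InjOn c (Set.Iio J) → (∀ s < J, c s < (A + 1) ^ (n + 1)) →
  (∀ p : ℕ, p.Prime → K < p → ∀ b : ℕ,
    (#((range J).filter fun s => c s ≡ b [MOD p]) : ℝ) ≤ J / p + p) →
  Real.exp (2 * lam (PR a Y)) ≤ C →
  ∑ s ∈ range J, ∑ s' ∈ (range J).erase s, H (PR K Y) (c s) (c s') ≤ (J : ℝ) ^ 2 +
    C * (4 * (J : ℝ) ^ 2 / Real.sqrt K + 2 * J * (a * Real.sqrt a) + 2 * (J : ℝ) ^ 2 / a +
      2 * J * A + 2 * n * (J : ℝ) ^ 2 / A)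

/-- Romanoff type average -/
def ROM : Prop := ∀ ε : ℝ, 0 < ε → ∀ᶠ K : ℕ in atTop, ∀ M : ℕ, 0 < M → ∀ᶠ L : ℕ in atTop,
  ∀ (J : ℕ) (c : ℕ → ℕ), L ≤ 2 * M * J → J ≤ L → Set.InjOn c (Set.Iio J) → (∀ s < J, c s ≤ 4 ^ L) →
  (∀ p : ℕ, p.Prime → K < p → ∀ a : ℕ,
    (#((range J).filter fun s => c s ≡ a [MOD p]) : ℝ) ≤ J / p + p) →
  ∑ s ∈ range J, ∑ s' ∈ (range J).erase s, H (PR K (L ^ 5)) (c s) (c s') ≤ (1 + ε) * (J : ℝ) ^ 2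

/-- no covering obstruction -/
def CL1 : Prop := ∀ K n : ℕ, ∃ x₀ : ℕ, 0 < x₀ ∧ ∀ s t p : ℕ, p.Prime → p ≤ K →
  ¬ p ∣ n + (2 ^ (x₀ + K.factorial * s) - (x₀ + K.factorial * s)) + K.factorial * t

def CL2 : Prop := ∀ M n x₀ J p a : ℕ, p.Prime → 2 < p → ¬ p ∣ M →
  (#((range J).filter fun s => n + (2 ^ (x₀ + M * s) - (x₀ + M * s)) ≡ a [MOD p]) : ℝ) ≤ J / p + p

def OM : Prop := ∀ m z j v : ℕ, 0 < m → m < (z + 1) ^ (v + 1) →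
  #(m.primeFactors.filter fun q => q ≤ z) ≤ j → (∀ q : ℕ, q.Prime → q ≤ z → ¬ q ^ 2 ∣ m) →
  ArithmeticFunction.cardFactors m ≤ j + v

/-- primes `> Y` dividing a difference of two shifts -/
def DD (J : ℕ) (c : ℕ → ℕ) (Y z : ℕ) : Finset ℕ :=
  (PR Y z).filter fun q => ∃ s < J, ∃ s' < J, s ≠ s' ∧ c s ≡ c s' [MOD q]

def EXC : Prop := ∀ (M J L T Y y z : ℕ) (c : ℕ → ℕ), 0 < Y → J ≤ L → Set.InjOn c (Set.Iio J) →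
  (∀ s < J, c s ≤ 4 ^ L) → (∀ q : ℕ, q.Prime → Y < q → ¬ q ∣ M) →
  #(DD J c Y z) ≤ 2 * L ^ 3 ∧
  (#((range T).filter fun t => ∃ s < J,
      (∃ q ∈ DD J c Y z, q ∣ c s + M * t) ∨ ∃ q ∈ PR Y y, q ^ 2 ∣ c s + M * t) : ℝ) ≤
    2 * (L : ℝ) ^ 4 * (T / Y + 1) + L * (T / Y + y)

/-- parameters: prime sums -/
def PA1 : Prop := ∃ C : ℝ, 0 < C ∧ ∀ᶠ T : ℕ in atTop, ∀ X l : ℝ, ∀ L y z : ℕ, X = Real.log T →
  l = Real.log X → L = Nat.log 2 T → y = ⌊Real.exp (X / (1000 * l))⌋₊ → z = ⌊Real.exp (X / 1000)⌋₊ →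
  X ≤ L ∧ (L : ℝ) ≤ 2 * X ∧ L ^ 5 ≤ y ∧ y ≤ z ∧ Real.log z ≤ X / 40 ∧
  ∑ q ∈ PR 0 z, Real.log q / ((q : ℝ) - 1) ≤ X / 40 / 4 ∧ lam (PR 0 y) ≤ l + C ∧
  l / 2 + 1 ≤ lam (PR (L ^ 5) y) ∧ Real.exp (80 * lam (PR y z)) ≤ C * l ^ 80

/-- parameters: sizes -/
def PA2 : Prop := ∀ C γ δ : ℝ, 0 < C → 0 < γ → 0 < δ → ∀ C₀ : ℕ, ∀ᶠ T : ℕ in atTop,
  ∀ X l : ℝ, ∀ L k y z : ℕ, X = Real.log T → l = Real.log X → X ≤ L → (L : ℝ) ≤ 2 * X →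
  k = ⌈40 * l⌉₊ → y = ⌊Real.exp (X / (1000 * l))⌋₊ → z = ⌊Real.exp (X / 1000)⌋₊ →
  1 ≤ l ∧ C₀ * T < (z + 1) ^ 1001 ∧
  64 * (C * l ^ 80) / (γ * l ^ 81) +
    128 * (L : ℝ) ^ 2 * (1 / 2) ^ k * Real.exp (17 * (l + C)) * (C * l ^ 80) / (γ * l ^ 81) ^ 2 +
    L * ((1 / 2) ^ k * Real.exp (2 * (l + C))) ≤ δ ∧
  2 * (4 * L * ((2 * (y : ℝ) ^ 2) ^ k * (Real.exp (4 * (X / 40)) * (1 + (z : ℝ) ^ 2))) /
      (γ * l ^ 81) + 1) ^ 2 + 2 * L * (y : ℝ) ^ (2 * k + 2) +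
    (2 * (L : ℝ) ^ 4 * (T / (L : ℝ) ^ 5 + 1) + L * (T / (L : ℝ) ^ 5 + y)) + (C₀ + L) ≤ δ * T

/-- one residue class -/
def MAIN : Prop := ∀ ε : ℝ, 0 < ε → ∀ᶠ K : ℕ in atTop, ∀ n : ℕ, ∀ᶠ T : ℕ in atTop,
  ({t : ℕ | t < T ∧ ¬ ∃ x y : ℕ, 0 < x ∧ 0 < y ∧ n + K.factorial * t = x + y ∧
    ArithmeticFunction.cardFactors (2 ^ x + y) ≤ 1081}.ncard : ℝ) ≤ ε * T

def FIN : Prop := Tendsto (fun N : ℕ => ({n : ℕ | n < N ∧ ¬ ∃ x y : ℕ,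
  0 < x ∧ 0 < y ∧ n = x + y ∧ ArithmeticFunction.cardFactors (2 ^ x + y) ≤ 1081}.ncard : ℝ) / N)
  atTop (nhds 0)

/-! ### basic facts -/

theorem EP_empty (u : Finset ℕ → ℝ) : EP ∅ u = u ∅ := by simp [EP]

theorem EP_insert {Q : Finset ℕ} {q : ℕ} (hq : q ∉ Q) (u : Finset ℕ → ℝ) :
    EP (insert q Q) u = (1 - 1 / (q : ℝ)) * EP Q u + 1 / (q : ℝ) * EP Q fun S => u (insert q S) := by
  simp only [EP, sum_powerset_insert hq, mul_sum]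
  congr 1 <;> refine sum_congr rfl fun S hS => ?_
  · have h : q ∉ S := fun h => hq (mem_powerset.1 hS h)
    rw [insert_sdiff_of_notMem _ h, prod_insert fun h' => hq (mem_sdiff.1 h').1]
    ring
  · have h : q ∉ S := fun h => hq (mem_powerset.1 hS h)
    rw [insert_sdiff_insert, sdiff_insert_of_notMem hq, prod_insert h]
    ring

theorem EP_congr {Q : Finset ℕ} {u v : Finset ℕ → ℝ} (h : ∀ S ⊆ Q, u S = v S) : EP Q u = EP Q v :=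
  sum_congr rfl fun S hS => by rw [h S (mem_powerset.1 hS)]

theorem EP_add (Q : Finset ℕ) (u v : Finset ℕ → ℝ) :
    EP Q (fun S => u S + v S) = EP Q u + EP Q v := by simp only [EP, mul_add, sum_add_distrib]

theorem EP_sub (Q : Finset ℕ) (u v : Finset ℕ → ℝ) :
    EP Q (fun S => u S - v S) = EP Q u - EP Q v := by simp only [EP, mul_sub, sum_sub_distrib]

theorem EP_smul (Q : Finset ℕ) (a : ℝ) (u : Finset ℕ → ℝ) :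
    EP Q (fun S => a * u S) = a * EP Q u := by
  simp only [EP, mul_sum]
  exact sum_congr rfl fun S _ => by ring

theorem EP_sum {ι : Type} (Q : Finset ℕ) (I : Finset ι) (u : ι → Finset ℕ → ℝ) :
    EP Q (fun S => ∑ i ∈ I, u i S) = ∑ i ∈ I, EP Q (u i) := by
  simp only [EP, mul_sum]
  exact sum_comm

theorem one_sub_nonneg {q : ℕ} (h : 2 ≤ q) : 0 ≤ 1 - 1 / (q : ℝ) := by
  have : (2 : ℝ) ≤ q := by exact_mod_cast h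
  rw [sub_nonneg, div_le_one (by linarith)]
  linarith

theorem EP_mono {Q : Finset ℕ} (hQ : ∀ q ∈ Q, 2 ≤ q) {u v : Finset ℕ → ℝ}
    (h : ∀ S ⊆ Q, u S ≤ v S) : EP Q u ≤ EP Q v :=
  sum_le_sum fun S hS => mul_le_mul_of_nonneg_left (h S (mem_powerset.1 hS))
    (mul_nonneg (prod_nonneg fun q _ => by positivity)
      (prod_nonneg fun q hq => one_sub_nonneg (hQ q (mem_sdiff.1 hq).1)))

theorem EP_prod (Q : Finset ℕ) (a b : ℕ → ℝ) :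
    EP Q (fun S => ∏ q ∈ Q, if q ∈ S then a q else b q) =
      ∏ q ∈ Q, (1 / (q : ℝ) * a q + (1 - 1 / (q : ℝ)) * b q) := by
  rw [prod_add, EP]
  refine sum_congr rfl fun S hS => ?_
  have hS' := mem_powerset.1 hS
  rw [prod_ite, filter_mem_eq_inter, inter_eq_right.2 hS', filter_notMem_eq_sdiff, prod_mul_distrib,
    prod_mul_distrib]
  ring

theorem EP_const (Q : Finset ℕ) (a : ℝ) : EP Q (fun _ => a) = a := by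
  have h := EP_prod Q (fun _ => 1) fun _ => 1
  have h' := EP_smul Q a fun _ => 1
  simp only [ite_self, prod_const_one, mul_one, add_sub_cancel] at h h'
  rw [h', h, mul_one]

theorem EP_em (Q : Finset ℕ) : EP Q em = V Q := by
  rw [EP, sum_eq_single ∅]
  · simp [em, V]
  · intro S _ h
    simp [em, h]
  · simp

theorem E_add (P : ℕ) (φ ψ : ℕ → ℝ) : E P (fun t => φ t + ψ t) = E P φ + E P ψ := by
  simp only [E, sum_add_distrib, add_div]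

theorem E_sub (P : ℕ) (φ ψ : ℕ → ℝ) : E P (fun t => φ t - ψ t) = E P φ - E P ψ := by
  simp only [E, sum_sub_distrib, sub_div]

theorem E_smul (P : ℕ) (a : ℝ) (φ : ℕ → ℝ) : E P (fun t => a * φ t) = a * E P φ := by
  simp only [E, ← mul_sum, mul_div_assoc]

theorem E_sum {ι : Type} (P : ℕ) (I : Finset ι) (φ : ι → ℕ → ℝ) :
    E P (fun t => ∑ i ∈ I, φ i t) = ∑ i ∈ I, E P (φ i) := by
  simp only [E, ← sum_div]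
  rw [sum_comm]

theorem E_mono (P : ℕ) {φ ψ : ℕ → ℝ} (h : ∀ t, φ t ≤ ψ t) : E P φ ≤ E P ψ :=
  div_le_div_of_nonneg_right (sum_le_sum fun t _ => h t) P.cast_nonneg

theorem E_const {P : ℕ} (hP : 0 < P) (a : ℝ) : E P (fun _ => a) = a := by
  have : (P : ℝ) ≠ 0 := by positivity
  simp [E, this]

theorem B_per (Q : Finset ℕ) (M c : ℕ) {α : Type} (u : Finset ℕ → α) :
    Function.Periodic (fun t => u (B Q M c t)) (∏ q ∈ Q, q) := fun t => by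
  refine congrArg u (filter_congr fun q hq => ?_)
  rw [mul_add, ← add_assoc]
  exact (Nat.dvd_add_iff_left ((dvd_prod_of_mem _ hq).mul_left M)).symm

theorem B_inter {Q Q' : Finset ℕ} (h : Q' ⊆ Q) (M c t : ℕ) : B Q M c t ∩ Q' = B Q' M c t := by
  ext q
  simp only [B, mem_inter, mem_filter]
  exact ⟨fun a => ⟨a.2, a.1.2⟩, fun a => ⟨⟨h a.1, a.2⟩, a.1⟩⟩

theorem Ok.mono {P M : ℕ} {Q Q' : Finset ℕ} (h : Ok P M Q) (hQ : Q' ⊆ Q) : Ok P M Q' :=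
  ⟨h.1, fun q hq => h.2.1 q (hQ hq), (prod_dvd_prod_of_subset _ _ _ hQ).trans h.2.2⟩

theorem Ok.two {P M : ℕ} {Q : Finset ℕ} (h : Ok P M Q) : ∀ q ∈ Q, 2 ≤ q :=
  fun q hq => (h.2.1 q hq).1.two_le

/-- products of two disjoint sets of primes -/
theorem Ok.split {P M : ℕ} {Q Q' : Finset ℕ} (h : Ok P M (Q ∪ Q')) (hd : Disjoint Q Q') :
    (∏ q ∈ Q, q).Coprime (∏ q ∈ Q', q) ∧ (∏ q ∈ Q, q) * (∏ q ∈ Q', q) ∣ P := by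
  refine ⟨Nat.coprime_prod_left_iff.2 fun q hq => Nat.coprime_prod_right_iff.2 fun q' hq' => ?_,
    by have := h.2.2; rwa [prod_union hd] at this⟩
  exact (Nat.coprime_primes (h.2.1 q (mem_union_left _ hq)).1 (h.2.1 q' (mem_union_right _ hq')).1).2
    fun e => disjoint_left.1 hd hq (e ▸ hq')

theorem Sh.nonneg {P : ℕ} {φ : ℕ → ℝ} {b : ℝ} (h : Sh P φ b) : 0 ≤ b := by
  induction h with
  | base φ d c _ _ h => exact mul_nonneg d.cast_nonneg ((abs_nonneg _).trans (h 0))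
  | add _ _ h1 h2 => exact add_nonneg h1 h2
  | mono _ h h1 => exact h1.trans h

theorem Sh.const (P : ℕ) (a : ℝ) : Sh P (fun _ => a) |a| := by
  simpa using Sh.base (P := P) (fun _ => a) 1 |a| (one_dvd _) (fun _ => rfl) fun _ => le_rfl

theorem Sh.sum {ι : Type} {P : ℕ} (I : Finset ι) {φ : ι → ℕ → ℝ} {b : ι → ℝ}
    (h : ∀ i ∈ I, Sh P (φ i) (b i)) : Sh P (fun t => ∑ i ∈ I, φ i t) (∑ i ∈ I, b i) := by
  classical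
  induction I using Finset.induction_on with
  | empty => simpa using Sh.const P 0
  | insert i I hi ih =>
    simp only [sum_insert hi]
    exact (h i (mem_insert_self _ _)).add (ih fun i' hi' => h i' (mem_insert_of_mem hi'))

end

end Pool.Agent.MP_fc7299_nt.AP
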