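import Pool.Agent.MP_fc7299_nt.AP.A
import Pool.Agent.MP_fc7299_nt.AP.B

/-! Five prime factors: weighted sieve, definitions and row statements. -/

namespace Pool.Agent.MP_fc7299_nt.AP

open Finset Filter

noncomputable section

/-- combinations of residue classes; the cost is the sum of the coefficients -/
inductive Sc (P : ℕ) : (ℕ → ℝ) → ℝ → Prop
  | base (d r : ℕ) (c : ℝ) : d ∣ P → Sc P (fun t => if t ≡ r [MOD d] then c else 0) |c|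
  | add {φ ψ : ℕ → ℝ} {B C : ℝ} : Sc P φ B → Sc P ψ C → Sc P (fun t => φ t + ψ t) (B + C)
  | mono {φ : ℕ → ℝ} {B C : ℝ} : Sc P φ B → B ≤ C → Sc P φ C

/-- logarithmic weight -/
def th (Z : ℝ) (q : ℕ) : ℝ := (1 - Real.log q / Z) / 2

def w2 (U : Finset ℕ) (Λ Z : ℝ) (S : Finset ℕ) : ℝ := sw U Λ S ^ 2 * ∑ q ∈ S, th Z q

/-- the weight on the middle range `N` and the upper range `U₁ ⊇ U` -/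
def ow (N U U₁ : Finset ℕ) (Λ Z : ℝ) (k : ℕ) (S : Finset ℕ) : ℝ :=
  tr (2 * k + 1) em (S ∩ N) * sw U Λ (S ∩ U₁) ^ 2 - tr (2 * k) em (S ∩ N) * w2 U Λ Z (S ∩ U₁)

structure Cf (P M J : ℕ) (c : ℕ → ℕ) (R A U : Finset ℕ) (ε : ℝ) : Prop where
  ok : Ok P M (R ∪ A ∪ U)
  dRA : Disjoint R A
  dRU : Disjoint R U
  dAU : Disjoint A U
  J0 : 0 < J
  big : ∀ q ∈ A ∪ U, J + 1 ≤ q
  sep : ∀ q ∈ A ∪ U, ∀ s < J, ∀ s' < J, s ≠ s' → ¬ c s ≡ c s' [MOD q]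
  e0 : 0 ≤ ε
  rom : ∑ s ∈ range J, ∑ s' ∈ (range J).erase s, H R (c s) (c s') ≤ (1 + ε) * (J : ℝ) ^ 2

def SC0 : Prop := ∀ (P : ℕ) (φ : ℕ → ℝ) (b : ℝ), 0 < P → Sh P φ b → Sc P φ b

def SC1 : Prop := ∀ (P T : ℕ) (φ : ℕ → ℝ) (b : ℝ), 0 < P → Sc P φ b →
  |∑ t ∈ range T, φ t - T * E P φ| ≤ 2 * b

def SC2 : Prop := ∀ (P : ℕ) (φ ψ : ℕ → ℝ) (b c : ℝ), Sc P φ b → Sc P ψ c →
  Sc P (fun t => φ t * ψ t) (b * c)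

def SC3 : Prop := ∀ (P M c q : ℕ) (a : ℝ), q.Prime → ¬ q ∣ M → q ∣ P →
  Sc P (fun t => if q ∣ c + M * t then a else 0) |a|

def SC4 : Prop := ∀ (P M c : ℕ) (U U₁ : Finset ℕ) (Λ : ℝ), Ok P M U₁ → U ⊆ U₁ → 0 < Λ →
  Sc P (fun t => sw U Λ (B U₁ M c t)) (Real.exp Λ * Real.exp (4 * lam U))

def SC5 : Prop := ∀ (P M c k : ℕ) (N U U₁ : Finset ℕ) (Λ Z y z : ℝ), Ok P M (N ∪ U₁) → U ⊆ U₁ →
  0 < Λ → 1 ≤ y → 1 ≤ z → (∀ q ∈ N, (q : ℝ) ≤ y) → (∀ q ∈ U₁, (q : ℝ) ≤ z ∧ |th Z q| ≤ 1) →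
  Sc P (fun t => ow N U U₁ Λ Z k (B (N ∪ U₁) M c t))
    (2 * (2 * y ^ 2) ^ (2 * k + 1) * (Real.exp Λ * Real.exp (4 * lam U)) ^ 2 * z)

def SE1 : Prop := ∀ (U U₁ : Finset ℕ) (Λ Z : ℝ), (∀ q ∈ U₁, 2 ≤ q) → U ⊆ U₁ → 0 < Λ → 0 < Z →
  (∀ q ∈ U, Real.log q ≤ Λ / 3) → ∑ q ∈ U, Real.log q / ((q : ℝ) - 1) ≤ 0.334 * Λ →
  (∀ q ∈ U₁, Real.log q ≤ Z) → ∑ q ∈ U₁ \ U, th Z q / q ≤ 0.82 →
  0.332 ≤ EP U₁ (fun S => sw U Λ S ^ 2) ∧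
    EP U₁ (w2 U Λ Z) ≤ 0.988 * EP U₁ (fun S => sw U Λ S ^ 2)

def SE2 : Prop := ∀ (U U₁ : Finset ℕ) (Λ Z : ℝ), (∀ q ∈ U₁, 2 ≤ q ∧ |th Z q| ≤ 1) → U ⊆ U₁ → 0 < Λ →
  EP U₁ (fun S => (sw U Λ S ^ 2) ^ 2) ≤ Real.exp (80 * lam U₁) ∧
    EP U₁ (fun S => w2 U Λ Z S ^ 2) ≤ Real.exp (80 * lam U₁)

/-- Bonferroni -/
def BON : Prop := ∀ (k : ℕ) (S : Finset ℕ), tr (2 * k + 1) em S ≤ em S ∧ em S ≤ tr (2 * k) em S ∧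
  |tr k em S - em S| ≤ (tr k em S - em S) ^ 2

def OW : Prop := ∀ (N U U₁ : Finset ℕ) (Λ Z : ℝ) (k : ℕ), (∀ q ∈ N ∪ U₁, 2 ≤ q) → Disjoint N U₁ →
  U ⊆ U₁ → 0 < Λ → 0 < Z → (∀ q ∈ U, Real.log q ≤ Λ / 3) →
  ∑ q ∈ U, Real.log q / ((q : ℝ) - 1) ≤ 0.334 * Λ → (∀ q ∈ U₁, Real.log q ≤ Z) →
  ∑ q ∈ U₁ \ U, th Z q / q ≤ 0.82 →
  4 * (1 / 2) ^ (2 * k) * Real.exp (17 * lam N) ≤ V N / 500 →
  V N / 1000 ≤ EP (N ∪ U₁) (ow N U U₁ Λ Z k) ∧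
    EP (N ∪ U₁) (fun S => ow N U U₁ Λ Z k S ^ 2) ≤ 16 * V N * Real.exp (80 * lam U₁) ∧
    ∀ S, 0 < ow N U U₁ Λ Z k S → S ∩ N = ∅ ∧ ∑ q ∈ S ∩ U₁, th Z q < 1

/-- second moment in the model, any weight -/
def CA1 : Prop := ∀ (P M J j : ℕ) (c : ℕ → ℕ) (R A U : Finset ℕ) (ε : ℝ) (ω : Finset ℕ → ℝ),
  Cf P M J c R A U ε → 0 < J * V R * EP A (ex j) → 0 < EP U ω →
  E P (fun t => ((∑ s ∈ range J, fl R A j (B (R ∪ A) M (c s) t) * ω (B U M (c s) t)) /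
      (J * V R * EP A (ex j) * EP U ω) - 1) ^ 2) ≤
    ε + 2 * EP U (fun S => ω S ^ 2) / (J * V R * EP A (ex j) * EP U ω ^ 2)

/-- the count on an interval, any weight -/
def CA2 : Prop := ∀ (P M J j k T : ℕ) (c : ℕ → ℕ) (R A U : Finset ℕ) (ε μ W ρ b y : ℝ)
  (ω : Finset ℕ → ℝ), Cf P M J c R A U ε → 0 < μ → 0 < EP U ω →
  μ ≤ J * V R * EP A (ex j) * EP U ω → EP U (fun S => ω S ^ 2) ≤ W →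
  EP U (fun S => ω S ^ 2) ≤ ρ * (J * V R * EP A (ex j) * EP U ω ^ 2) → 1 ≤ y →
  (∀ q ∈ R ∪ A, (q : ℝ) ≤ y) → (∀ s < J, Sc P (fun t => ω (B U M (c s) t)) b) →
  (#((range T).filter fun t => ∀ s < J,
      ¬ (B R M (c s) t = ∅ ∧ #(B A M (c s) t) = j ∧ 0 < ω (B U M (c s) t))) : ℝ) ≤
    T * (2 * ε + 4 * ρ + 8 * (J : ℝ) ^ 2 * (1 / 2) ^ k * Real.exp (17 * lam (R ∪ A)) * W / μ ^ 2 +
      J * ((1 / 2) ^ k * Real.exp (2 * lam (R ∪ A)))) +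
    2 * (J * ((2 * y ^ 2) ^ k * b) / μ + 1) ^ 2 + 2 * J * y ^ (2 * k + 2)

def OM5 : Prop := ∀ (m z : ℕ) (S : Finset ℕ) (Z : ℝ), 0 < m → 0 < Z → Z ≤ Real.log (z + 1) →
  Real.log m ≤ 3 * Z → S ⊆ m.primeFactors → (∀ q ∈ S, q ≤ z) → ∑ q ∈ S, th Z q < 1 →
  #((m.primeFactors.filter fun q => q ≤ z) \ S) ≤ 1 → (∀ q : ℕ, q.Prime → q ≤ z → ¬ q ^ 2 ∣ m) →
  ArithmeticFunction.cardFactors m ≤ 5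

/-- first theorem of Mertens -/
def ME1 : Prop := ∃ C : ℝ, 0 < C ∧ ∀ a b : ℕ, 1 ≤ a → a ≤ b →
  |∑ q ∈ PR a b, Real.log q / q - (Real.log b - Real.log a)| ≤ C ∧
    ∑ q ∈ PR 0 b, Real.log q / ((q : ℝ) - 1) ≤ Real.log b + C

def ME2 : Prop := ∀ᶠ ξ : ℝ in atTop,
  ∑ q ∈ PR ⌊Real.exp (4 * ξ)⌋₊ ⌊Real.exp (50 * ξ)⌋₊, th (50 * ξ) q / q ≤ 0.82

/-- parameters: prime sums -/
def PB1 : Prop := ∃ C : ℝ, 0 < C ∧ ∀ᶠ T : ℕ in atTop, ∀ X l m : ℝ, ∀ L y y' z z' : ℕ,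
  X = Real.log T → l = Real.log X → m = Real.log l → L = Nat.log 2 T →
  y = ⌊Real.exp (X / (100000 * l))⌋₊ → y' = ⌊Real.exp (X / (100000 * m))⌋₊ →
  z = ⌊Real.exp (4 * (X / 149))⌋₊ → z' = ⌊Real.exp (50 * (X / 149))⌋₊ →
  X ≤ L ∧ (L : ℝ) ≤ 2 * X ∧ L ^ 5 ≤ y ∧ y ≤ y' ∧ y' ≤ z ∧ z ≤ z' ∧
  Real.log z ≤ 12 * (X / 149) / 3 ∧
  ∑ q ∈ PR 0 z, Real.log q / ((q : ℝ) - 1) ≤ 0.334 * (12 * (X / 149)) ∧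
  Real.log z' ≤ 50 * (X / 149) ∧ 50 * (X / 149) ≤ Real.log (z' + 1) ∧
  ∑ q ∈ PR z z', th (50 * (X / 149)) q / q ≤ 0.82 ∧ lam (PR 0 z') ≤ l + C ∧
  l / 2 + 1 ≤ lam (PR (L ^ 5) y) ∧ lam (PR y y') ≤ m + C ∧
  Real.exp (80 * lam (PR y' z')) ≤ C * m ^ 80

/-- parameters: sizes -/
def PB2 : Prop := ∀ C γ δ : ℝ, 0 < C → 0 < γ → 0 < δ → ∀ C₀ : ℕ, 0 < C₀ → ∀ᶠ T : ℕ in atTop,
  ∀ X l m : ℝ, ∀ L k k' y y' z' : ℕ, X = Real.log T → l = Real.log X → m = Real.log l → X ≤ L →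
  (L : ℝ) ≤ 2 * X → k = ⌈40 * l⌉₊ → k' = ⌈20 * m⌉₊ →
  y = ⌊Real.exp (X / (100000 * l))⌋₊ → y' = ⌊Real.exp (X / (100000 * m))⌋₊ →
  z' = ⌊Real.exp (50 * (X / 149))⌋₊ →
  1 ≤ l ∧ Real.log (C₀ * T) ≤ 3 * (50 * (X / 149)) ∧
  4 * (1 / 2) ^ (2 * k') * Real.exp (17 * (m + C)) ≤ Real.exp (-(m + C) - 2) / 500 ∧
  4 * (16000 * (C * m ^ 80) / (γ * l)) +
    8 * (L : ℝ) ^ 2 * (1 / 2) ^ k * Real.exp (17 * (l + C)) * (16 * (C * m ^ 80)) / (γ * l) ^ 2 +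
    L * ((1 / 2) ^ k * Real.exp (2 * (l + C))) ≤ δ ∧
  2 * (L * ((2 * (y : ℝ) ^ 2) ^ k * (2 * (2 * (y' : ℝ) ^ 2) ^ (2 * k' + 1) *
      (Real.exp (12 * (X / 149)) * Real.exp (4 * (l + C))) ^ 2 * z')) / (γ * l) + 1) ^ 2 +
    2 * L * (y : ℝ) ^ (2 * k + 2) +
    (2 * (L : ℝ) ^ 4 * (T / (L : ℝ) ^ 5 + 1) + L * (T / (L : ℝ) ^ 5 + z')) + (C₀ + L) ≤ δ * T

def MAIN5 : Prop := ∀ ε : ℝ, 0 < ε → ∀ᶠ K : ℕ in atTop, ∀ n : ℕ, ∀ᶠ T : ℕ in atTop,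
  ({t : ℕ | t < T ∧ ¬ ∃ x y : ℕ, 0 < x ∧ 0 < y ∧ n + K.factorial * t = x + y ∧
    ArithmeticFunction.cardFactors (2 ^ x + y) ≤ 5}.ncard : ℝ) ≤ ε * T

def FIN5 : Prop := Tendsto (fun N : ℕ => ({n : ℕ | n < N ∧ ¬ ∃ x y : ℕ,
  0 < x ∧ 0 < y ∧ n = x + y ∧ ArithmeticFunction.cardFactors (2 ^ x + y) ≤ 5}.ncard : ℝ) / N)
  atTop (nhds 0)

theorem Sc.nonneg {P : ℕ} {φ : ℕ → ℝ} {b : ℝ} (h : Sc P φ b) : 0 ≤ b := by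
  induction h with
  | base d r c _ => exact abs_nonneg _
  | add _ _ h1 h2 => exact add_nonneg h1 h2
  | mono _ h h1 => exact h1.trans h

theorem Sc.const (P : ℕ) (a : ℝ) : Sc P (fun _ => a) |a| := by
  simpa only [Nat.modEq_one, if_true] using Sc.base (P := P) 1 0 a (one_dvd _)

theorem Sc.sum {ι : Type} {P : ℕ} (I : Finset ι) {φ : ι → ℕ → ℝ} {b : ι → ℝ}
    (h : ∀ i ∈ I, Sc P (φ i) (b i)) : Sc P (fun t => ∑ i ∈ I, φ i t) (∑ i ∈ I, b i) := by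
  classical
  induction I using Finset.induction_on with
  | empty => simpa using Sc.const P 0
  | insert i I hi ih =>
    simp only [sum_insert hi]
    exact (h i (mem_insert_self _ _)).add (ih fun i' hi' => h i' (mem_insert_of_mem hi'))

end

end Pool.Agent.MP_fc7299_nt.AP
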