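import Pool.Agent.MP_fc7299_nt.AP.C

/-! Four prime factors: a separate Selberg weight for each large prime. -/

namespace Pool.Agent.MP_fc7299_nt.AP

open Finset Filter

noncomputable section

/-- logarithmic weight -/
def t4 (Z : ℝ) (q : ℕ) : ℝ := 10 / 17 * (1 - Real.log q / Z)

def m1 (a : ℕ) : ℝ := ∑ q ∈ PR 0 a, Real.log q / q

def m2 (a : ℕ) : ℝ := ∑ q ∈ PR 0 a, Real.log q ^ 2 / q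

/-- normalised Selberg square -/
def ns (U : Finset ℕ) (Λ : ℝ) (S : Finset ℕ) : ℝ := (sw U Λ S / sw U Λ ∅) ^ 2

def q3 (U : Finset ℕ) (Λ Z : ℝ) (zq : ℕ → ℕ) (Lq : ℕ → ℝ) (S : Finset ℕ) : ℝ :=
  ns U Λ S * #(S ∩ U) + ∑ q ∈ S \ U, t4 Z q * ns (U.filter fun p => p ≤ zq q) (Lq q) S

def og (N U₁ : Finset ℕ) (k : ℕ) (P Q : Finset ℕ → ℝ) (S : Finset ℕ) : ℝ :=
  tr (2 * k + 1) em (S ∩ N) * P (S ∩ U₁) - tr (2 * k) em (S ∩ N) * Q (S ∩ U₁)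

/-- the loss of the upper bound sieve with the primes `≤ a` and level `2 L` -/
def Ph (z a : ℕ) (L : ℝ) : ℝ := Real.exp (lam (PR a z) + 1 / a) * (1 + m2 a / (L - m1 a) ^ 2)

/-- the sieve data: `U ⊆ (0, z]`, `U₁ \ U ⊆ (z, z']` -/
structure Sd (U U₁ : Finset ℕ) (z z' : ℕ) (Λ Z : ℝ) (zq : ℕ → ℕ) (Lq : ℕ → ℝ) : Prop where
  sub : U ⊆ U₁
  lo : U ⊆ PR 0 z
  hi : U₁ \ U ⊆ PR z z'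
  zz : z ≤ z'
  z0 : 0 < z'
  Z0 : 0 < Z
  Z1 : Real.log z' ≤ Z
  L0 : 0 < Λ
  L1 : m1 z ≤ Λ / 2
  L2 : m2 z / (Λ - m1 z) ^ 2 ≤ 0.05
  q1 : ∀ q, 1 ≤ zq q ∧ 0 < Lq q ∧ m1 (zq q) ≤ Lq q / 2
  q2 : ∑ q ∈ PR z z', t4 Z q / q * Ph z (zq q) (Lq q) ≤ 0.92

def UP : Prop := ∀ (U U₁ : Finset ℕ) (Λ m σ : ℝ), (∀ q ∈ U₁, 2 ≤ q) → U ⊆ U₁ → 0 < Λ →
  ∑ q ∈ U, Real.log q / q ≤ m → m ≤ Λ / 2 → ∑ q ∈ U, Real.log q ^ 2 / q ≤ σ →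
  1 / 2 ≤ sw U Λ ∅ ∧ EP U₁ (ns U Λ) ≤ V U * (1 + σ / (Λ - m) ^ 2) ∧
    EP U₁ (fun S => ns U Λ S * #(S ∩ U)) ≤ V U * (σ / (Λ - m) ^ 2) ∧
    ∀ S, S ∩ U = ∅ → ns U Λ S = 1

def VR : Prop := ∀ (U : Finset ℕ) (a z : ℕ), 1 ≤ a → U ⊆ PR 0 z →
  V (U.filter fun p => p ≤ a) ≤ V U * Real.exp (lam (PR a z) + 1 / a)

/-- means -/
def PQ1 : Prop := ∀ (U U₁ : Finset ℕ) (z z' : ℕ) (Λ Z : ℝ) (zq : ℕ → ℕ) (Lq : ℕ → ℝ),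
  Sd U U₁ z z' Λ Z zq Lq → V U ≤ EP U₁ (ns U Λ) ∧ EP U₁ (q3 U Λ Z zq Lq) ≤ 0.97 * V U

/-- sizes and support -/
def PQ2 : Prop := ∀ (U U₁ : Finset ℕ) (z z' : ℕ) (Λ Z : ℝ) (zq : ℕ → ℕ) (Lq : ℕ → ℝ),
  Sd U U₁ z z' Λ Z zq Lq →
  EP U₁ (fun S => ns U Λ S ^ 2) ≤ 16 * Real.exp (80 * lam U₁) ∧
    EP U₁ (fun S => q3 U Λ Z zq Lq S ^ 2) ≤ 16 * Real.exp (80 * lam U₁) ∧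
    ∀ S ⊆ U₁, 0 ≤ q3 U Λ Z zq Lq S ∧
      (q3 U Λ Z zq Lq S < ns U Λ S → S ∩ U = ∅ ∧ ∑ q ∈ S, t4 Z q < 1)

def OG : Prop := ∀ (N U₁ : Finset ℕ) (k : ℕ) (P Q : Finset ℕ → ℝ) (v W : ℝ),
  (∀ q ∈ N ∪ U₁, 2 ≤ q) → Disjoint N U₁ → (∀ S ⊆ U₁, 0 ≤ P S ∧ 0 ≤ Q S) → 0 ≤ v →
  v ≤ EP U₁ P → EP U₁ Q ≤ 0.97 * v → EP U₁ (fun S => P S ^ 2) ≤ W → EP U₁ (fun S => Q S ^ 2) ≤ W →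
  4 * (1 / 2) ^ (2 * k) * Real.exp (17 * lam N) ≤ V N / 500 →
  V N * v / 100 ≤ EP (N ∪ U₁) (og N U₁ k P Q) ∧
    EP (N ∪ U₁) (fun S => og N U₁ k P Q S ^ 2) ≤ 16 * V N * W ∧
    ∀ S, 0 < og N U₁ k P Q S → S ∩ N = ∅ ∧ Q (S ∩ U₁) < P (S ∩ U₁)

def SC6 : Prop := ∀ (P M c k : ℕ) (N U U₁ : Finset ℕ) (z z' : ℕ) (Λ Z y b : ℝ) (zq : ℕ → ℕ)
  (Lq : ℕ → ℝ), Ok P M (N ∪ U₁) → Sd U U₁ z z' Λ Z zq Lq → 1 ≤ y → (∀ q ∈ N, (q : ℝ) ≤ y) →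
  ∑ q ∈ PR z z', Real.exp (2 * Lq q) ≤ b →
  Sc P (fun t => og N U₁ k (ns U Λ) (q3 U Λ Z zq Lq) (B (N ∪ U₁) M c t))
    ((2 * y ^ 2) ^ (2 * k + 1) * (4 * Real.exp (8 * lam U) * (Real.exp (2 * Λ) * (1 + z) + b)))

def OM4 : Prop := ∀ (m z : ℕ) (S : Finset ℕ) (Z : ℝ), 0 < m → 0 < Z → Z ≤ Real.log (z + 1) →
  Real.log m ≤ 2.3 * Z → S ⊆ m.primeFactors → (∀ q ∈ S, q ≤ z) → ∑ q ∈ S, t4 Z q < 1 →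
  #((m.primeFactors.filter fun q => q ≤ z) \ S) ≤ 1 → (∀ q : ℕ, q.Prime → q ≤ z → ¬ q ^ 2 ∣ m) →
  ArithmeticFunction.cardFactors m ≤ 4

def MR1 : Prop := ∀ α β δ : ℝ, 0 < α → α ≤ β → 0 < δ → ∀ᶠ ξ : ℝ in atTop,
  lam (PR ⌊Real.exp (α * ξ)⌋₊ ⌊Real.exp (β * ξ)⌋₊) ≤ Real.log (β / α) + δ

def MR2 : Prop := ∀ α : ℝ, 0 < α → ∀ᶠ ξ : ℝ in atTop,
  m1 ⌊Real.exp (α * ξ)⌋₊ ≤ 1.001 * (α * ξ) ∧ m2 ⌊Real.exp (α * ξ)⌋₊ ≤ 0.51 * (α * ξ) ^ 2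

def MR3 : Prop := ∀ α β ζ δ : ℝ, 0 < α → α ≤ β → 0 < ζ → 0 < δ → ∀ᶠ ξ : ℝ in atTop,
  ∑ q ∈ PR ⌊Real.exp (α * ξ)⌋₊ ⌊Real.exp (β * ξ)⌋₊, t4 (ζ * ξ) q / q ≤
    10 / 17 * (Real.log (β / α) - (β - α) / ζ) + δ

/-- one block: primes in `(e^(α ξ), e^(β ξ)]` are sieved with the primes `≤ e^(a ξ)` at level `199 - β` -/
def BL (α β a r : ℝ) : Prop := ∀ᶠ ξ : ℝ in atTop,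
  (1 ≤ ⌊Real.exp (a * ξ)⌋₊ ∧ 0 < (199 - β) / 2 * ξ ∧ m1 ⌊Real.exp (a * ξ)⌋₊ ≤ (199 - β) / 2 * ξ / 2) ∧
  ∑ q ∈ PR ⌊Real.exp (α * ξ)⌋₊ ⌊Real.exp (β * ξ)⌋₊,
    t4 (174 * ξ) q / q * Ph ⌊Real.exp (20 * ξ)⌋₊ ⌊Real.exp (a * ξ)⌋₊ ((199 - β) / 2 * ξ) ≤ r

/-- general block bound -/
def BLG : Prop := ∀ α β a r φ s : ℝ, 0 < α → α ≤ β → β ≤ 174 → 0 < a → a ≤ 20 →
  1.001 * a ≤ (199 - β) / 4 → 20 / a * (1 + 0.51 * a ^ 2 / ((199 - β) / 2 - 1.001 * a) ^ 2) ≤ φ →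
  10 / 17 * (Real.log (β / α) - (β - α) / 174) ≤ s → φ * s < r → BL α β a r

def BLS : Prop := BL 20 46 20 0.432 ∧ BL 46 74 20 0.21 ∧ BL 74 98 20 0.106 ∧ BL 98 118 20 0.065 ∧
  BL 118 137 14 0.048 ∧ BL 137 156 10 0.037 ∧ BL 156 174 5 0.02

def NB : Prop := ∀ᶠ ξ : ℝ in atTop, ∃ (zq : ℕ → ℕ) (Lq : ℕ → ℝ),
  (∀ q, 1 ≤ zq q ∧ 0 < Lq q ∧ m1 (zq q) ≤ Lq q / 2) ∧
  ∑ q ∈ PR ⌊Real.exp (20 * ξ)⌋₊ ⌊Real.exp (174 * ξ)⌋₊,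
    t4 (174 * ξ) q / q * Ph ⌊Real.exp (20 * ξ)⌋₊ (zq q) (Lq q) ≤ 0.92 ∧
  ∑ q ∈ PR ⌊Real.exp (20 * ξ)⌋₊ ⌊Real.exp (174 * ξ)⌋₊, Real.exp (2 * Lq q) ≤ 7 * Real.exp (199 * ξ) ∧
  m1 ⌊Real.exp (20 * ξ)⌋₊ ≤ 89.5 * ξ / 2 ∧
  m2 ⌊Real.exp (20 * ξ)⌋₊ / (89.5 * ξ - m1 ⌊Real.exp (20 * ξ)⌋₊) ^ 2 ≤ 0.05

/-- parameters: prime sums -/
def PC1 : Prop := ∃ C : ℝ, 0 < C ∧ ∀ᶠ T : ℕ in atTop, ∀ X l m : ℝ, ∀ L y y' z z' : ℕ,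
  X = Real.log T → l = Real.log X → m = Real.log l → L = Nat.log 2 T →
  y = ⌊Real.exp (X / (100000 * l))⌋₊ → y' = ⌊Real.exp (X / (100000 * m))⌋₊ →
  z = ⌊Real.exp (20 * (X / 400))⌋₊ → z' = ⌊Real.exp (174 * (X / 400))⌋₊ →
  X ≤ L ∧ (L : ℝ) ≤ 2 * X ∧ L ^ 5 ≤ y ∧ y ≤ y' ∧ y' ≤ z ∧ z ≤ z' ∧
  Real.log z' ≤ 174 * (X / 400) ∧ 174 * (X / 400) ≤ Real.log (z' + 1) ∧ lam (PR 0 z') ≤ l + C ∧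
  l / 2 + 1 ≤ lam (PR (L ^ 5) y) ∧ lam (PR y y') ≤ m + C ∧
  Real.exp (81 * lam (PR y' z') + 2) ≤ C * m ^ 81

/-- parameters: sizes -/
def PC2 : Prop := ∀ C γ δ : ℝ, 0 < C → 0 < γ → 0 < δ → ∀ C₀ : ℕ, 0 < C₀ → ∀ᶠ T : ℕ in atTop,
  ∀ X l m : ℝ, ∀ L k k' y y' z z' : ℕ, X = Real.log T → l = Real.log X → m = Real.log l → X ≤ L →
  (L : ℝ) ≤ 2 * X → k = ⌈40 * l⌉₊ → k' = ⌈20 * m⌉₊ →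
  y = ⌊Real.exp (X / (100000 * l))⌋₊ → y' = ⌊Real.exp (X / (100000 * m))⌋₊ →
  z = ⌊Real.exp (20 * (X / 400))⌋₊ → z' = ⌊Real.exp (174 * (X / 400))⌋₊ →
  1 ≤ l ∧ Real.log (C₀ * T) ≤ 2.3 * (174 * (X / 400)) ∧
  4 * (1 / 2) ^ (2 * k') * Real.exp (17 * (m + C)) ≤ Real.exp (-(m + C) - 2) / 500 ∧
  4 * (25600 * (C * m ^ 81) / (γ * l)) +
    8 * (L : ℝ) ^ 2 * (1 / 2) ^ k * Real.exp (17 * (l + C)) * (256 * (C * m ^ 81)) / (γ * l) ^ 2 +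
    L * ((1 / 2) ^ k * Real.exp (2 * (l + C))) ≤ δ ∧
  2 * (L * ((2 * (y : ℝ) ^ 2) ^ k * ((2 * (y' : ℝ) ^ 2) ^ (2 * k' + 1) * (4 * Real.exp (8 * (l + C)) *
      (Real.exp (2 * (89.5 * (X / 400))) * (1 + z) + 7 * Real.exp (199 * (X / 400)))))) / (γ * l) + 1) ^ 2 +
    2 * L * (y : ℝ) ^ (2 * k + 2) +
    (2 * (L : ℝ) ^ 4 * (T / (L : ℝ) ^ 5 + 1) + L * (T / (L : ℝ) ^ 5 + z')) + (C₀ + L) ≤ δ * T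

def MAIN4 : Prop := ∀ ε : ℝ, 0 < ε → ∀ᶠ K : ℕ in atTop, ∀ n : ℕ, ∀ᶠ T : ℕ in atTop,
  ({t : ℕ | t < T ∧ ¬ ∃ x y : ℕ, 0 < x ∧ 0 < y ∧ n + K.factorial * t = x + y ∧
    ArithmeticFunction.cardFactors (2 ^ x + y) ≤ 4}.ncard : ℝ) ≤ ε * T

def FIN4 : Prop := Tendsto (fun N : ℕ => ({n : ℕ | n < N ∧ ¬ ∃ x y : ℕ,
  0 < x ∧ 0 < y ∧ n = x + y ∧ ArithmeticFunction.cardFactors (2 ^ x + y) ≤ 4}.ncard : ℝ) / N)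
  atTop (nhds 0)

end

end Pool.Agent.MP_fc7299_nt.AP
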