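import Pool.Agent.MP_fc7299_nt.AP.Defs3

section
namespace Pool.Agent.MP_fc7299_nt.AP

open Finset Filter

namespace MR1z

theorem one_le {u : ℝ} (hu : 0 ≤ u) : 1 ≤ ⌊Real.exp u⌋₊ :=
  Nat.le_floor (by simpa using Real.one_le_exp hu)

theorem log_le {u : ℝ} (hu : 0 ≤ u) : Real.log ⌊Real.exp u⌋₊ ≤ u := by
  have h1 : (1 : ℝ) ≤ ⌊Real.exp u⌋₊ := by exact_mod_cast one_le hu
  have := Real.log_le_log (by linarith) (Nat.floor_le (Real.exp_pos u).le)
  rwa [Real.log_exp] at this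

theorem le_log {u : ℝ} (hu : 0 ≤ u) : u - 1 ≤ Real.log ⌊Real.exp u⌋₊ := by
  have h1 : (1 : ℝ) ≤ ⌊Real.exp u⌋₊ := by exact_mod_cast one_le hu
  have h2 := Nat.lt_floor_add_one (Real.exp u)
  have h3 : (2 : ℝ) ≤ Real.exp 1 := by have := Real.add_one_le_exp (1 : ℝ); linarith
  rw [Real.le_log_iff_exp_le (by linarith), Real.exp_sub, div_le_iff₀ (Real.exp_pos 1)]
  nlinarith

theorem mono {u v : ℝ} (h : u ≤ v) : ⌊Real.exp u⌋₊ ≤ ⌊Real.exp v⌋₊ :=
  Nat.floor_mono (Real.exp_le_exp.2 h)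

theorem piece {C ρ : ℝ} (hρ : 1 ≤ ρ)
    (h : ∀ a b : ℕ, 1 ≤ a → a ≤ b →
      |∑ q ∈ PR a b, Real.log q / q - (Real.log b - Real.log a)| ≤ C)
    {u : ℝ} (hu : 0 < u) :
    lam (PR ⌊Real.exp u⌋₊ ⌊Real.exp (u * ρ)⌋₊) ≤ ρ - 1 + (C + 1) / u := by
  have h0 : u ≤ u * ρ := le_mul_of_one_le_right hu.le hρ
  have h1 := (abs_le.1 (h _ _ (one_le hu.le) (mono h0))).2
  have h2 := log_le (hu.le.trans h0)
  have h3 := le_log hu.le
  have h4 : lam (PR ⌊Real.exp u⌋₊ ⌊Real.exp (u * ρ)⌋₊) * u ≤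
      ∑ q ∈ PR ⌊Real.exp u⌋₊ ⌊Real.exp (u * ρ)⌋₊, Real.log q / q := by
    rw [lam, sum_mul]
    refine sum_le_sum fun q hq => ?_
    have hq1 : ⌊Real.exp u⌋₊ < q := (mem_Ioc.1 (mem_filter.1 hq).1).1
    have hq2 : Real.exp u < q := (Nat.floor_lt (Real.exp_pos u).le).1 hq1
    have hq3 : u ≤ Real.log q :=
      (Real.le_log_iff_exp_le ((Real.exp_pos u).trans hq2)).2 hq2.le
    rw [one_div, inv_mul_eq_div]
    exact div_le_div_of_nonneg_right hq3 (Nat.cast_nonneg q)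
  have h5 : (ρ - 1 + (C + 1) / u) * u = u * ρ - u + (C + 1) := by field_simp
  refine le_of_mul_le_mul_right ?_ hu
  rw [h5]
  linarith

theorem split {a b c : ℕ} : lam (PR a c) ≤ lam (PR a b) + lam (PR b c) := by
  have h : PR a c ⊆ PR a b ∪ PR b c := by
    intro q hq
    simp only [PR, mem_union, mem_filter, mem_Ioc] at hq ⊢
    by_cases e : q ≤ b
    · exact Or.inl ⟨⟨hq.1.1, e⟩, hq.2⟩
    · exact Or.inr ⟨⟨by omega, hq.1.2⟩, hq.2⟩
  have h1 : lam (PR a c) ≤ lam (PR a b ∪ PR b c) :=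
    sum_le_sum_of_subset_of_nonneg h fun q _ _ => by positivity
  have h2 := sum_union_inter (s₁ := PR a b) (s₂ := PR b c) (f := fun q : ℕ => 1 / (q : ℝ))
  have h3 : 0 ≤ ∑ q ∈ PR a b ∩ PR b c, 1 / (q : ℝ) := sum_nonneg fun q _ => by positivity
  simp only [lam] at h1 ⊢
  linarith

theorem chain {C ρ : ℝ} (hC : 0 < C) (hρ : 1 ≤ ρ)
    (h : ∀ a b : ℕ, 1 ≤ a → a ≤ b →
      |∑ q ∈ PR a b, Real.log q / q - (Real.log b - Real.log a)| ≤ C)
    {x : ℝ} (hx : 0 < x) (n : ℕ) :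
    lam (PR ⌊Real.exp x⌋₊ ⌊Real.exp (x * ρ ^ n)⌋₊) ≤ n * (ρ - 1 + (C + 1) / x) := by
  induction n with
  | zero => simp [lam, PR]
  | succ n ih =>
    have h1 : x ≤ x * ρ ^ n := le_mul_of_one_le_right hx.le (one_le_pow₀ hρ)
    have h2 := piece hρ h (hx.trans_le h1)
    have h3 : (C + 1) / (x * ρ ^ n) ≤ (C + 1) / x :=
      div_le_div_of_nonneg_left (by linarith) hx h1
    have h4 := split (a := ⌊Real.exp x⌋₊) (b := ⌊Real.exp (x * ρ ^ n)⌋₊)
      (c := ⌊Real.exp (x * ρ ^ n * ρ)⌋₊)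
    rw [pow_succ, ← mul_assoc]
    push_cast
    linarith

theorem nodes {s δ : ℝ} (hs : 0 ≤ s) (hδ : 0 < δ) :
    ∃ (n : ℕ) (ρ : ℝ), 1 ≤ ρ ∧ ρ ^ n = Real.exp s ∧ n * (ρ - 1) ≤ s + δ := by
  obtain ⟨n, hn⟩ := exists_nat_gt (s + s ^ 2 / δ)
  have h0 : 0 ≤ s ^ 2 / δ := by positivity
  have hn0 : (0 : ℝ) < n := by linarith
  have h1 : 0 ≤ s / n := by positivity
  have h2 : s / n ≤ 1 := by rw [div_le_one hn0]; linarith
  have h3 := (abs_le.1 (Real.abs_exp_sub_one_sub_id_le (x := s / n)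
    (by rw [abs_of_nonneg h1]; exact h2))).2
  refine ⟨n, Real.exp (s / n), Real.one_le_exp h1, ?_, ?_⟩
  · rw [← Real.exp_nat_mul, mul_div_cancel₀ _ hn0.ne']
  · have h4 : (n : ℝ) * (s / n + (s / n) ^ 2) = s + s ^ 2 / n := by field_simp
    have h5 : s ^ 2 / n ≤ δ := by
      rw [div_le_iff₀ hn0]
      have : s ^ 2 / δ ≤ n := by linarith
      rw [div_le_iff₀ hδ] at this
      linarith
    have h6 : (n : ℝ) * (Real.exp (s / n) - 1) ≤ n * (s / n + (s / n) ^ 2) :=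
      mul_le_mul_of_nonneg_left (by linarith) hn0.le
    linarith

end MR1z

theorem mr1 : MR1 := by
  intro α β δ hα hαβ hδ
  obtain ⟨C, hC, h⟩ := me1
  have h' := fun a b h1 h2 => (h a b h1 h2).1
  have hq : 1 ≤ β / α := by rw [le_div_iff₀ hα]; linarith
  obtain ⟨n, ρ, hρ, e, hn⟩ := MR1z.nodes (Real.log_nonneg hq) (half_pos hδ)
  rw [Real.exp_log (by linarith)] at e
  filter_upwards [eventually_gt_atTop 0, eventually_ge_atTop (n * (C + 1) / (α * (δ / 2)))]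
    with ξ h0 hξ
  have hx : 0 < α * ξ := mul_pos hα h0
  have h1 := MR1z.chain hC hρ h' hx n
  have h2 : α * ξ * ρ ^ n = β * ξ := by rw [e]; field_simp
  rw [h2, mul_add] at h1
  have h3 : n * ((C + 1) / (α * ξ)) ≤ δ / 2 := by
    rw [div_le_iff₀ (by positivity)] at hξ
    rw [← mul_div_assoc, div_le_iff₀ hx]
    linarith
  linarith

theorem mr3 (hMR1 : MR1) : MR3 := by
  intro α β ζ δ hα hαβ hζ hδ
  obtain ⟨C, hC, h⟩ := me1
  have h' := fun a b h1 h2 => (h a b h1 h2).1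
  filter_upwards [hMR1 α β (δ / 2) hα hαβ (half_pos hδ), eventually_gt_atTop 0,
    eventually_ge_atTop ((C + 1) / (ζ * (δ / 2)))] with ξ h1 h0 hξ
  have hx : 0 < α * ξ := mul_pos hα h0
  have hxy : α * ξ ≤ β * ξ := mul_le_mul_of_nonneg_right hαβ h0.le
  have hz : 0 < ζ * ξ := mul_pos hζ h0
  have h4 := (abs_le.1 (h' _ _ (MR1z.one_le hx.le) (MR1z.mono hxy))).1
  have h5 := MR1z.log_le hx.le
  have h6 := MR1z.le_log (hx.le.trans hxy)
  have h7 : ∑ q ∈ PR ⌊Real.exp (α * ξ)⌋₊ ⌊Real.exp (β * ξ)⌋₊, t4 (ζ * ξ) q / q =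
      10 / 17 * (lam (PR ⌊Real.exp (α * ξ)⌋₊ ⌊Real.exp (β * ξ)⌋₊) -
        (∑ q ∈ PR ⌊Real.exp (α * ξ)⌋₊ ⌊Real.exp (β * ξ)⌋₊, Real.log q / q) / (ζ * ξ)) := by
    rw [lam, sum_div, ← sum_sub_distrib, mul_sum]
    refine sum_congr rfl fun q _ => ?_
    rw [t4]
    ring
  have h9 : (β - α) / ζ - δ / 2 ≤
      (∑ q ∈ PR ⌊Real.exp (α * ξ)⌋₊ ⌊Real.exp (β * ξ)⌋₊, Real.log q / q) / (ζ * ξ) := by
    rw [le_div_iff₀ hz]
    rw [div_le_iff₀ (by positivity)] at hξ
    have : ((β - α) / ζ - δ / 2) * (ζ * ξ) = β * ξ - α * ξ - ξ * (ζ * (δ / 2)) := by field_simp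
    rw [this]
    linarith
  rw [h7]
  linarith

end Pool.Agent.MP_fc7299_nt.AP

end

section
namespace Pool.Agent.MP_fc7299_nt.AP

open Finset Filter

namespace MR2z

theorem one {C : ℝ} (hC : ∀ z : ℝ, 1 ≤ z →
    |∑ p ∈ (Icc 1 ⌊z⌋₊).filter Nat.Prime, Real.log p / p - Real.log z| ≤ C) {u : ℝ} (hu : 0 ≤ u) :
    u - C ≤ m1 ⌊Real.exp u⌋₊ ∧ m1 ⌊Real.exp u⌋₊ ≤ u + C := by
  have h := abs_le.1 (hC (Real.exp u) (Real.one_le_exp hu))
  rw [Real.log_exp] at h
  unfold m1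
  rw [ME1y.pr_eq]
  constructor <;> linarith [h.1, h.2]

theorem step {u v : ℝ} (huv : u ≤ v) :
    m2 ⌊Real.exp v⌋₊ - m2 ⌊Real.exp u⌋₊ ≤ v * (m1 ⌊Real.exp v⌋₊ - m1 ⌊Real.exp u⌋₊) := by
  have h : ⌊Real.exp u⌋₊ ≤ ⌊Real.exp v⌋₊ := Nat.floor_le_floor (Real.exp_le_exp.2 huv)
  unfold m1 m2
  rw [← ME1y.pr_sub h, ← ME1y.pr_sub h, mul_sum]
  refine sum_le_sum fun q hq => ?_
  have h1 := mem_filter.1 hq
  have h2 : (0 : ℝ) < q := by exact_mod_cast h1.2.pos
  have h3 : (q : ℝ) ≤ Real.exp v :=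
    (Nat.cast_le.2 (mem_Ioc.1 h1.1).2).trans (Nat.floor_le (Real.exp_pos v).le)
  have h4 : Real.log q ≤ v := by
    have := Real.log_le_log h2 h3
    rwa [Real.log_exp] at this
  have h5 : 0 ≤ Real.log q / q := div_nonneg (Real.log_natCast_nonneg q) h2.le
  have h6 : Real.log q ^ 2 / q = Real.log q * (Real.log q / q) := by ring
  rw [h6]
  exact mul_le_mul_of_nonneg_right h4 h5

theorem two {C : ℝ} (hC : ∀ z : ℝ, 1 ≤ z →
    |∑ p ∈ (Icc 1 ⌊z⌋₊).filter Nat.Prime, Real.log p / p - Real.log z| ≤ C) {h : ℝ} (hh : 0 ≤ h)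
    (n : ℕ) : m2 ⌊Real.exp (n * h)⌋₊ ≤ h * (h + 2 * C) * (n * (n + 1) / 2) := by
  induction n with
  | zero =>
    have h0 : PR 0 1 = ∅ := by decide
    simp [m2, h0]
  | succ n ih =>
    have h0 : (0 : ℝ) ≤ n := Nat.cast_nonneg n
    have h1 : (0 : ℝ) ≤ n * h := mul_nonneg h0 hh
    have h2 : (n : ℝ) * h ≤ (n + 1) * h := by linarith
    have h3 := step h2
    have h4 := (one hC h1).1
    have h5 := (one hC (h1.trans h2)).2
    have h6 := mul_le_mul_of_nonneg_left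
      (show m1 ⌊Real.exp ((n + 1) * h)⌋₊ - m1 ⌊Real.exp (n * h)⌋₊ ≤ h + 2 * C by linarith)
      (h1.trans h2)
    push_cast
    linarith

end MR2z

theorem mr2 : MR2 := by
  intro α hα
  obtain ⟨C, hC⟩ := ME1y.mertens
  have h0 : 0 ≤ C := (abs_nonneg _).trans (hC 1 le_rfl)
  have ht : Tendsto (fun ξ : ℝ => α * ξ) atTop atTop := tendsto_id.const_mul_atTop hα
  filter_upwards [ht.eventually_ge_atTop (20200 * C)] with ξ hξ
  generalize α * ξ = u at hξ ⊢
  have hu : 0 ≤ u := by linarith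
  constructor
  · linarith [(MR2z.one hC hu).2]
  · have h1 := MR2z.two hC (h := u / 100) (by linarith) 100
    have h2 : ((100 : ℕ) : ℝ) * (u / 100) = u := by
      push_cast
      ring
    rw [h2] at h1
    push_cast at h1
    nlinarith [mul_le_mul_of_nonneg_left hξ hu]

end Pool.Agent.MP_fc7299_nt.AP

end

section
namespace Pool.Agent.MP_fc7299_nt.AP

open Finset Filter

namespace BLGz

theorem pick {φ s r : ℝ} (h : φ * s < r) : ∃ d : ℝ, 0 < d ∧ φ * Real.exp (2 * d) * (s + d) < r := by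
  have hc : Continuous fun d : ℝ => φ * Real.exp (2 * d) * (s + d) := by fun_prop
  have h0 : ∀ᶠ d in nhds (0 : ℝ), φ * Real.exp (2 * d) * (s + d) < r :=
    hc.continuousAt.eventually_lt continuousAt_const (by simpa using h)
  have h1 : ∀ᶠ d in nhdsWithin (0 : ℝ) (Set.Ioi 0),
      0 < d ∧ φ * Real.exp (2 * d) * (s + d) < r := by
    filter_upwards [self_mem_nhdsWithin, h0.filter_mono nhdsWithin_le_nhds] with d h2 h3
    exact ⟨h2, h3⟩
  exact h1.exists

theorem le_floor (u : ℝ) : u ≤ ⌊Real.exp u⌋₊ := by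
  have h1 := Nat.lt_floor_add_one (Real.exp u)
  have h2 := Real.add_one_le_exp u
  linarith

theorem t4_nonneg {u Z : ℝ} (hZ : 0 < Z) (hu : u ≤ Z) {a q : ℕ} (hq : q ∈ PR a ⌊Real.exp u⌋₊) :
    0 ≤ t4 Z q := by
  have h1 : q ≤ ⌊Real.exp u⌋₊ := (mem_Ioc.1 (mem_filter.1 hq).1).2
  have h2 : (0 : ℝ) < q := by exact_mod_cast (mem_filter.1 hq).2.pos
  have h3 : (q : ℝ) ≤ Real.exp u := (Nat.le_floor_iff (Real.exp_pos u).le).1 h1
  have h4 : Real.log q ≤ u := (Real.log_le_iff_le_exp h2).2 h3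
  have h5 : Real.log q / Z ≤ 1 := by rw [div_le_one hZ]; linarith
  rw [t4]
  linarith

end BLGz

theorem blg (hMR1 : MR1) (hMR2 : MR2) (hMR3 : MR3) : BLG := by
  intro α β a r φ s hα hαβ hβ ha ha20 hL hφ hs hr
  obtain ⟨d, hd, hdr⟩ := BLGz.pick hr
  filter_upwards [hMR1 a 20 d ha ha20 hd, hMR2 a ha, hMR3 α β 174 d hα hαβ (by norm_num) hd,
    eventually_gt_atTop 0, eventually_ge_atTop (1 / (a * d))] with ξ h1 h2 h3 h0 hξ
  obtain ⟨h21, h22⟩ := h2
  have hx : 0 < a * ξ := mul_pos ha h0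
  have hf := BLGz.le_floor (a * ξ)
  have hf1 : 1 ≤ ⌊Real.exp (a * ξ)⌋₊ := Nat.le_floor (by simpa using Real.one_le_exp hx.le)
  have hL0 : 0 < (199 - β) / 2 := by linarith
  have hL1 : 0 < (199 - β) / 2 - 1.001 * a := by linarith
  have hm1 : m1 ⌊Real.exp (a * ξ)⌋₊ ≤ (199 - β) / 2 * ξ / 2 := by
    have := mul_le_mul_of_nonneg_right hL h0.le
    linarith
  refine ⟨⟨hf1, mul_pos hL0 h0, hm1⟩, ?_⟩
  have e1 : 1 / (⌊Real.exp (a * ξ)⌋₊ : ℝ) ≤ d := by
    rw [div_le_iff₀ (mul_pos ha hd)] at hξ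
    rw [div_le_iff₀ (hx.trans_le hf)]
    have := mul_le_mul_of_nonneg_left hf hd.le
    linarith
  have e2 : Real.exp (lam (PR ⌊Real.exp (a * ξ)⌋₊ ⌊Real.exp (20 * ξ)⌋₊) +
      1 / (⌊Real.exp (a * ξ)⌋₊ : ℝ)) ≤ 20 / a * Real.exp (2 * d) := by
    rw [← Real.exp_log (show 0 < 20 / a by positivity), ← Real.exp_add, Real.exp_le_exp]
    linarith
  have e3 : m2 ⌊Real.exp (a * ξ)⌋₊ / ((199 - β) / 2 * ξ - m1 ⌊Real.exp (a * ξ)⌋₊) ^ 2 ≤
      0.51 * a ^ 2 / ((199 - β) / 2 - 1.001 * a) ^ 2 := by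
    have p0 : 0 < ((199 - β) / 2 - 1.001 * a) * ξ := mul_pos hL1 h0
    have p1 : ((199 - β) / 2 - 1.001 * a) * ξ ≤ (199 - β) / 2 * ξ - m1 ⌊Real.exp (a * ξ)⌋₊ := by
      linarith
    have p2 : 0.51 * a ^ 2 / ((199 - β) / 2 - 1.001 * a) ^ 2 =
        0.51 * (a * ξ) ^ 2 / (((199 - β) / 2 - 1.001 * a) * ξ) ^ 2 := by
      rw [mul_pow, mul_pow, ← mul_assoc, mul_div_mul_right _ _ (pow_pos h0 2).ne']
    rw [p2]
    exact div_le_div₀ (by positivity) h22 (pow_pos p0 2) (pow_le_pow_left₀ p0.le p1 2)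
  have e4 : 0 ≤ m2 ⌊Real.exp (a * ξ)⌋₊ / ((199 - β) / 2 * ξ - m1 ⌊Real.exp (a * ξ)⌋₊) ^ 2 :=
    div_nonneg (sum_nonneg fun q _ => by positivity) (sq_nonneg _)
  have e5 : Ph ⌊Real.exp (20 * ξ)⌋₊ ⌊Real.exp (a * ξ)⌋₊ ((199 - β) / 2 * ξ) ≤
      φ * Real.exp (2 * d) := by
    have p1 := mul_le_mul e2 (add_le_add_right e3 1) (by linarith) (by positivity)
    have p2 := mul_le_mul_of_nonneg_right hφ (Real.exp_pos (2 * d)).le
    rw [Ph]
    linarith
  have e6 : 0 ≤ φ * Real.exp (2 * d) := by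
    refine le_trans ?_ e5
    rw [Ph]
    exact mul_nonneg (Real.exp_pos _).le (by linarith)
  have e7 : 0 ≤ ∑ q ∈ PR ⌊Real.exp (α * ξ)⌋₊ ⌊Real.exp (β * ξ)⌋₊, t4 (174 * ξ) q / q :=
    sum_nonneg fun q hq => div_nonneg
      (BLGz.t4_nonneg (by linarith) (mul_le_mul_of_nonneg_right hβ h0.le) hq) (Nat.cast_nonneg q)
  rw [← sum_mul]
  have e8 := mul_le_mul_of_nonneg_left e5 e7
  have e9 := mul_le_mul_of_nonneg_right (h3.trans (add_le_add_left hs d)) e6
  linarith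

end Pool.Agent.MP_fc7299_nt.AP

end

section
namespace Pool.Agent.MP_fc7299_nt.AP

open Finset Filter

namespace BLSz

theorem lg {x y : ℝ} (x0 : 0 < x) (y0 : 0 ≤ y)
    (h : x ≤ ∑ i ∈ range 8, y ^ i / (i.factorial : ℝ)) : Real.log x ≤ y :=
  (Real.log_le_iff_le_exp x0).2 (h.trans (Real.sum_le_exp_of_nonneg y0 8))

end BLSz

theorem bls (hBLG : BLG) : BLS := by
  refine ⟨?_, ?_, ?_, ?_, ?_, ?_, ?_⟩
  · have h : Real.log (46 / 20) ≤ 0.8331 := BLSz.lg (by norm_num) (by norm_num)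
      (by norm_num [sum_range_succ, Nat.factorial])
    exact hBLG 20 46 20 0.432 1.064 0.40217 (by norm_num) (by norm_num) (by norm_num) (by norm_num)
      (by norm_num) (by norm_num) (by norm_num) (by linarith) (by norm_num)
  · have h : Real.log (74 / 46) ≤ 0.4756 := BLSz.lg (by norm_num) (by norm_num)
      (by norm_num [sum_range_succ, Nat.factorial])
    exact hBLG 46 74 20 0.21 1.114 0.18511 (by norm_num) (by norm_num) (by norm_num) (by norm_num)
      (by norm_num) (by norm_num) (by norm_num) (by linarith) (by norm_num)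
  · have h : Real.log (98 / 74) ≤ 0.2811 := BLSz.lg (by norm_num) (by norm_num)
      (by norm_num [sum_range_succ, Nat.factorial])
    exact hBLG 74 98 20 0.106 1.22 0.08422 (by norm_num) (by norm_num) (by norm_num) (by norm_num)
      (by norm_num) (by norm_num) (by norm_num) (by linarith) (by norm_num)
  · have h : Real.log (118 / 98) ≤ 0.1859 := BLSz.lg (by norm_num) (by norm_num)
      (by norm_num [sum_range_succ, Nat.factorial])
    exact hBLG 98 118 20 0.065 1.487 0.04174 (by norm_num) (by norm_num) (by norm_num) (by norm_num)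
      (by norm_num) (by norm_num) (by norm_num) (by linarith) (by norm_num)
  · have h : Real.log (137 / 118) ≤ 0.1494 := BLSz.lg (by norm_num) (by norm_num)
      (by norm_num [sum_range_succ, Nat.factorial])
    exact hBLG 118 137 14 0.048 1.924 0.02365 (by norm_num) (by norm_num) (by norm_num) (by norm_num)
      (by norm_num) (by norm_num) (by norm_num) (by linarith) (by norm_num)
  · have h : Real.log (156 / 137) ≤ 0.13 := BLSz.lg (by norm_num) (by norm_num)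
      (by norm_num [sum_range_succ, Nat.factorial])
    exact hBLG 137 156 10 0.037 2.773 0.01224 (by norm_num) (by norm_num) (by norm_num) (by norm_num)
      (by norm_num) (by norm_num) (by norm_num) (by linarith) (by norm_num)
  · have h : Real.log (174 / 156) ≤ 0.1093 := BLSz.lg (by norm_num) (by norm_num)
      (by norm_num [sum_range_succ, Nat.factorial])
    exact hBLG 156 174 5 0.02 4.908 0.00345 (by norm_num) (by norm_num) (by norm_num) (by norm_num)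
      (by norm_num) (by norm_num) (by norm_num) (by linarith) (by norm_num)

end Pool.Agent.MP_fc7299_nt.AP

end

section
namespace Pool.Agent.MP_fc7299_nt.AP

open Finset Filter

namespace NBz

/-- sieve parameters for the primes in `(x, y]` -/
def G (ξ : ℝ) (x y : ℕ) (r E : ℝ) : Prop := ∃ (zq : ℕ → ℕ) (Lq : ℕ → ℝ),
  (∀ q, 1 ≤ zq q ∧ 0 < Lq q ∧ m1 (zq q) ≤ Lq q / 2) ∧
  ∑ q ∈ PR x y, t4 (174 * ξ) q / q * Ph ⌊Real.exp (20 * ξ)⌋₊ (zq q) (Lq q) ≤ r ∧
  ∑ q ∈ PR x y, Real.exp (2 * Lq q) ≤ E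

theorem split {x y w : ℕ} (h1 : x ≤ y) (h2 : y ≤ w) (f g : ℕ → ℝ) :
    ∑ q ∈ PR x w, (if q ≤ y then f q else g q) = ∑ q ∈ PR x y, f q + ∑ q ∈ PR y w, g q := by
  rw [sum_ite]
  congr 2 <;> ext q <;> simp only [PR, mem_filter, mem_Ioc] <;> constructor
  · rintro ⟨⟨⟨a, -⟩, b⟩, c⟩
    exact ⟨⟨a, c⟩, b⟩
  · rintro ⟨⟨a, c⟩, b⟩
    exact ⟨⟨⟨a, c.trans h2⟩, b⟩, c⟩
  · rintro ⟨⟨⟨-, a⟩, b⟩, c⟩
    exact ⟨⟨not_le.1 c, a⟩, b⟩
  · rintro ⟨⟨c, a⟩, b⟩
    exact ⟨⟨⟨h1.trans_lt c, a⟩, b⟩, not_le.2 c⟩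

theorem glue {ξ r r' E E' : ℝ} {x y w : ℕ} (h : G ξ x y r E) (h' : G ξ y w r' E') (h1 : x ≤ y)
    (h2 : y ≤ w) : G ξ x w (r + r') (E + E') := by
  obtain ⟨z, L, a1, a2, a3⟩ := h
  obtain ⟨z', L', b1, b2, b3⟩ := h'
  refine ⟨fun q => if q ≤ y then z q else z' q, fun q => if q ≤ y then L q else L' q,
    fun q => ?_, le_trans (le_of_eq ?_) (add_le_add a2 b2), le_trans (le_of_eq ?_) (add_le_add a3 b3)⟩
  · by_cases c : q ≤ y
    · simpa only [if_pos c] using a1 q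
    · simpa only [if_neg c] using b1 q
  · rw [← split h1 h2]
    exact sum_congr rfl fun q _ => by by_cases c : q ≤ y <;> simp only [c, if_true, if_false]
  · rw [← split h1 h2]
    exact sum_congr rfl fun q _ => by by_cases c : q ≤ y <;> simp only [c, if_true, if_false]

theorem base {α β a r : ℝ} (h : BL α β a r) : ∀ᶠ ξ : ℝ in atTop,
    G ξ ⌊Real.exp (α * ξ)⌋₊ ⌊Real.exp (β * ξ)⌋₊ r (Real.exp (199 * ξ)) :=
  h.mono fun ξ ⟨h1, h2⟩ => by
    refine ⟨fun _ => ⌊Real.exp (a * ξ)⌋₊, fun _ => (199 - β) / 2 * ξ, fun _ => h1, h2, ?_⟩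
    have c : #(PR ⌊Real.exp (α * ξ)⌋₊ ⌊Real.exp (β * ξ)⌋₊) ≤ ⌊Real.exp (β * ξ)⌋₊ :=
      (card_filter_le _ _).trans (by rw [Nat.card_Ioc]; exact Nat.sub_le _ _)
    rw [sum_const, nsmul_eq_mul, show 199 * ξ = β * ξ + 2 * ((199 - β) / 2 * ξ) by ring,
      Real.exp_add]
    exact mul_le_mul_of_nonneg_right
      ((Nat.cast_le.2 c).trans (Nat.floor_le (Real.exp_pos _).le)) (Real.exp_pos _).le

end NBz

theorem nb (hMR2 : MR2) (hBLS : BLS) : NB := by
  obtain ⟨b1, b2, b3, b4, b5, b6, b7⟩ := hBLS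
  filter_upwards [NBz.base b1, NBz.base b2, NBz.base b3, NBz.base b4, NBz.base b5, NBz.base b6,
    NBz.base b7, hMR2 20 (by norm_num), eventually_gt_atTop 0] with ξ c1 c2 c3 c4 c5 c6 c7 d x0
  have m : ∀ α β : ℝ, α ≤ β → ⌊Real.exp (α * ξ)⌋₊ ≤ ⌊Real.exp (β * ξ)⌋₊ := fun α β h =>
    Nat.floor_le_floor (Real.exp_le_exp.2 (mul_le_mul_of_nonneg_right h x0.le))
  have e2 := NBz.glue c1 c2 (m _ _ (by norm_num)) (m _ _ (by norm_num))
  have e3 := NBz.glue e2 c3 (m _ _ (by norm_num)) (m _ _ (by norm_num))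
  have e4 := NBz.glue e3 c4 (m _ _ (by norm_num)) (m _ _ (by norm_num))
  have e5 := NBz.glue e4 c5 (m _ _ (by norm_num)) (m _ _ (by norm_num))
  have e6 := NBz.glue e5 c6 (m _ _ (by norm_num)) (m _ _ (by norm_num))
  obtain ⟨z, L, a1, a2, a3⟩ := NBz.glue e6 c7 (m _ _ (by norm_num)) (m _ _ (by norm_num))
  obtain ⟨d1, d2⟩ := d
  refine ⟨z, L, a1, a2.trans (by norm_num), a3.trans (le_of_eq (by ring)),
    by linarith only [d1, x0], ?_⟩
  have f1 : 69 * ξ ≤ 89.5 * ξ - m1 ⌊Real.exp (20 * ξ)⌋₊ := by linarith only [d1, x0]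
  have f2 := pow_le_pow_left₀ (by positivity) f1 2
  rw [div_le_iff₀ (pow_pos (lt_of_lt_of_le (by positivity) f1) 2)]
  linarith only [d2, f2, sq_nonneg ξ]

end Pool.Agent.MP_fc7299_nt.AP

end

section
namespace Pool.Agent.MP_fc7299_nt.AP

open Finset Filter

namespace PC1z

theorem pi_eq (b : ℕ) : Pool.Agent.MP_48b1c3_nt.H54.PI 0 (b : ℝ) = PR 0 b := by
  simp only [Pool.Agent.MP_48b1c3_nt.H54.PI, PR, Nat.floor_zero, Nat.floor_natCast]

theorem split {a b : ℕ} (h : a ≤ b) : lam (PR a b) = lam (PR 0 b) - lam (PR 0 a) := by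
  rw [eq_sub_iff_add_eq', lam, lam, lam, PR, PR, PR, ← Ioc_union_Ioc_eq_Ioc (Nat.zero_le a) h,
    filter_union, sum_union (disjoint_filter_filter (Ioc_disjoint_Ioc_of_le le_rfl))]

theorem floor_log {u : ℝ} (hu : 2 ≤ u) : (2 : ℝ) ≤ ⌊Real.exp u⌋₊ ∧
    u / 2 ≤ Real.log ⌊Real.exp u⌋₊ ∧ Real.log ⌊Real.exp u⌋₊ ≤ u := by
  have h1 := Nat.lt_floor_add_one (Real.exp u)
  have h2 := Nat.floor_le (Real.exp_pos u).le
  have h3 := Real.add_one_le_exp u
  have h4 := Real.add_one_le_exp (u / 2)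
  have h5 : Real.exp u = Real.exp (u / 2) * Real.exp (u / 2) := by
    rw [← Real.exp_add, add_halves]
  refine ⟨by linarith, ?_, ?_⟩
  · rw [Real.le_log_iff_exp_le (by linarith)]
    nlinarith
  · rw [Real.log_le_iff_le_exp (by linarith)]
    exact h2

theorem log_lin {a l : ℝ} (ha : 0 < a) (hl : 0 < l) : Real.log (a * l) ≤ l / 8 + 8 * a := by
  have h1 := Real.log_le_sub_one_of_pos (x := l / 8) (by positivity)
  have h2 := Real.log_le_sub_one_of_pos (x := 8 * a) (by positivity)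
  rw [show a * l = l / 8 * (8 * a) by ring, Real.log_mul (by positivity) (by positivity)]
  linarith

end PC1z

theorem pc1 : PC1 := by
  obtain ⟨C2, hC2, m2⟩ := Pool.Agent.MP_48b1c3_nt.H54.mertens2
  have hm2 : ∀ b : ℕ, (2 : ℝ) ≤ b → Real.log (Real.log b) - C2 ≤ lam (PR 0 b) ∧
      lam (PR 0 b) ≤ Real.log (Real.log b) + C2 := fun b hb => by
    have h := abs_le.1 (m2 b hb)
    rw [PC1z.pi_eq] at h
    unfold lam
    constructor <;> linarith [h.1, h.2]
  obtain ⟨E, hE, hE'⟩ : ∃ E : ℝ, 0 < E ∧ E = Real.exp (81 * Real.log 200000 + 162 * C2 + 2) :=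
    ⟨_, Real.exp_pos _, rfl⟩
  refine ⟨1 + 2 * C2 + E, by linarith, ?_⟩
  have hlog : Tendsto (fun T : ℕ => Real.log T) atTop atTop :=
    Real.tendsto_log_atTop.comp tendsto_natCast_atTop_atTop
  filter_upwards [hlog.eventually_ge_atTop 400,
    (Real.tendsto_log_atTop.comp hlog).eventually_ge_atTop (7000000 + 8 * C2),
    eventually_ge_atTop 1] with T e1 e2 e3
  intro X l m L y y' z z' hX hl hm hL hy hy' hz hz'
  simp only [Function.comp] at e2
  rw [← hX] at e1 e2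
  rw [← hl] at e2
  have hT0 : (0 : ℝ) < T := by exact_mod_cast e3
  have hX0 : 0 < X := by linarith
  have hl0 : 0 < l := by linarith
  have g2 := Real.log_two_gt_d9
  have g3 := Real.log_two_lt_d9
  have hL0 : (0 : ℝ) ≤ L := Nat.cast_nonneg L
  have a1 : X ≤ L := by
    have h1 : (T : ℝ) ≤ 2 ^ (L + 1) := by
      exact_mod_cast (hL ▸ Nat.lt_pow_succ_log_self (by norm_num) T : T < 2 ^ (L + 1)).le
    have h2 := Real.log_le_log hT0 h1
    rw [← hX, Real.log_pow] at h2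
    push_cast at h2
    nlinarith
  have a2 : (L : ℝ) ≤ 2 * X := by
    have h1 : (2 : ℝ) ^ L ≤ T := by
      exact_mod_cast (hL ▸ Nat.pow_log_le_self 2 (by omega) : 2 ^ L ≤ T)
    have h2 := Real.log_le_log (by positivity) h1
    rw [← hX, Real.log_pow] at h2
    nlinarith
  have hXl : X = Real.exp l := by rw [hl, Real.exp_log hX0]
  have hm1 : 1 ≤ m := by
    rw [hm, Real.le_log_iff_exp_le hl0]
    linarith [Real.exp_one_lt_d9]
  have hml : m ≤ l := by
    have := Real.log_le_sub_one_of_pos hl0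
    linarith
  have b1 : 10 * l ≤ X / (100000 * l) := by
    have h1 := Real.pow_div_factorial_le_exp l hl0.le 3
    rw [← hXl] at h1
    norm_num [Nat.factorial] at h1
    rw [le_div_iff₀ (by positivity)]
    nlinarith [mul_pos hl0 hl0]
  have b2 : X / (100000 * l) ≤ X / (100000 * m) :=
    div_le_div_of_nonneg_left hX0.le (by positivity) (by linarith)
  have b3 : X / (100000 * m) ≤ X / 100000 :=
    div_le_div_of_nonneg_left hX0.le (by norm_num) (by linarith)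
  obtain ⟨y1, y2, y3⟩ := PC1z.floor_log (u := X / (100000 * l)) (by linarith)
  obtain ⟨w1, w2, w3⟩ := PC1z.floor_log (u := X / (100000 * m)) (by linarith)
  obtain ⟨v1, v2, v3⟩ := PC1z.floor_log (u := 174 * (X / 400)) (by linarith)
  rw [← hy] at y1 y2 y3
  rw [← hy'] at w1 w2 w3
  rw [← hz'] at v1 v2 v3
  have hL3 : (3 : ℝ) ≤ L := by linarith
  have c0 : (2 : ℝ) ≤ ((L ^ 5 : ℕ) : ℝ) := by
    push_cast
    exact le_trans (by norm_num) (pow_le_pow_left₀ (by norm_num) hL3 5)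
  have c1 : Real.log ((L ^ 5 : ℕ) : ℝ) ≤ 10 * l := by
    have h1 := Real.log_le_log (by linarith) a2
    rw [Real.log_mul two_ne_zero hX0.ne', ← hl] at h1
    rw [Nat.cast_pow, Real.log_pow]
    push_cast
    linarith
  have a3 : L ^ 5 ≤ y := by
    rw [hy]
    refine Nat.le_floor ?_
    rw [← Real.log_le_iff_le_exp (by linarith)]
    linarith
  have a4 : y ≤ y' := by
    rw [hy, hy']
    exact Nat.floor_mono (Real.exp_le_exp.2 b2)
  have a5 : y' ≤ z := by
    rw [hy', hz]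
    exact Nat.floor_mono (Real.exp_le_exp.2 (by linarith))
  have a6 : z ≤ z' := by
    rw [hz, hz']
    exact Nat.floor_mono (Real.exp_le_exp.2 (by linarith))
  have d1 : l - Real.log (200000 * l) ≤ Real.log (Real.log y) := by
    refine le_trans (le_of_eq ?_) (Real.log_le_log (by positivity) y2)
    rw [show X / (100000 * l) / 2 = X / (200000 * l) by field_simp; norm_num,
      Real.log_div hX0.ne' (by positivity), ← hl]
  have d2 : l - Real.log (200000 * m) ≤ Real.log (Real.log y') := by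
    refine le_trans (le_of_eq ?_) (Real.log_le_log (by positivity) w2)
    rw [show X / (100000 * m) / 2 = X / (200000 * m) by field_simp; norm_num,
      Real.log_div hX0.ne' (by positivity), ← hl]
  have d3 : Real.log (Real.log ((L ^ 5 : ℕ) : ℝ)) ≤ Real.log (10 * l) :=
    Real.log_le_log (Real.log_pos (by linarith)) c1
  have d4 : Real.log (Real.log y') ≤ l - Real.log 100000 := by
    refine le_trans (Real.log_le_log (Real.log_pos (by linarith)) (w3.trans b3)) (le_of_eq ?_)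
    rw [Real.log_div hX0.ne' (by norm_num), ← hl]
  have d5 : Real.log (Real.log z') ≤ l := by
    rw [hl]
    exact Real.log_le_log (Real.log_pos (by linarith)) (by linarith)
  obtain ⟨p1, -⟩ := hm2 y y1
  obtain ⟨q1, q2⟩ := hm2 y' w1
  obtain ⟨-, r2⟩ := hm2 z' v1
  refine ⟨a1, a2, a3, a4, a5, a6, v3, ?_, by linarith, ?_, ?_, ?_⟩
  · rw [Real.le_log_iff_exp_le (by linarith), hz']
    exact (Nat.lt_floor_add_one _).le
  · have h1 := (hm2 _ c0).2
    have h2 := PC1z.log_lin (a := 200000) (by norm_num) hl0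
    have h3 := PC1z.log_lin (a := 10) (by norm_num) hl0
    rw [PC1z.split a3]
    linarith
  · have h2 : Real.log (200000 * l) = Real.log 100000 + Real.log 2 + m := by
      rw [hm, ← Real.log_mul (by norm_num) (by norm_num),
        ← Real.log_mul (by norm_num) (by positivity)]
      exact congrArg Real.log (by ring)
    rw [PC1z.split a4]
    linarith
  · have h2 : Real.log (200000 * m) = Real.log 200000 + Real.log m :=
      Real.log_mul (by norm_num) (by positivity)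
    have h3 : 81 * lam (PR y' z') + 2 ≤
        (81 * Real.log 200000 + 162 * C2 + 2) + (81 : ℕ) * Real.log m := by
      rw [PC1z.split (a5.trans a6)]
      push_cast
      linarith
    refine (Real.exp_le_exp.2 h3).trans ?_
    rw [Real.exp_add, ← hE', Real.exp_nat_mul, Real.exp_log (by positivity)]
    exact mul_le_mul_of_nonneg_right (by linarith) (by positivity)

end Pool.Agent.MP_fc7299_nt.AP

end

section
namespace Pool.Agent.MP_fc7299_nt.AP

open Finset Filter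

namespace PC2z

theorem half {k : ℕ} {l : ℝ} (l0 : 0 ≤ l) (h : 40 * l ≤ k) :
    (1 / 2 : ℝ) ^ k ≤ Real.exp (-(27 * l)) := by
  have h2 := Real.log_two_gt_d9
  have e : (1 / 2 : ℝ) ^ k = Real.exp (-(k * Real.log 2)) := by
    rw [Real.exp_neg, Real.exp_nat_mul, Real.exp_log two_pos, one_div, inv_pow]
  rw [e]
  refine Real.exp_le_exp.2 (neg_le_neg ?_)
  nlinarith

theorem small {l a : ℝ} (l1 : 1 ≤ l) (ha : a ≤ -l) : Real.exp a ≤ 1 / l := by
  have h := Real.add_one_le_exp l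
  rw [le_div_iff₀ (by linarith)]
  calc Real.exp a * l ≤ Real.exp (-l) * Real.exp l := by
        gcongr
        linarith
    _ = 1 := by rw [← Real.exp_add, neg_add_cancel, Real.exp_zero]

theorem two_pow {k : ℕ} {a : ℝ} (h : (k : ℝ) ≤ a) : (2 : ℝ) ^ k ≤ Real.exp a := by
  have : (2 : ℝ) ≤ Real.exp 1 := by linarith [Real.add_one_le_exp (1 : ℝ)]
  refine (pow_le_pow_left₀ zero_le_two this k).trans ?_
  rw [← Real.exp_nat_mul]
  exact Real.exp_le_exp.2 (by linarith)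

theorem ypow {y X l a : ℝ} {n : ℕ} (y0 : 0 ≤ y) (l0 : 0 < l) (X0 : 0 ≤ X)
    (hy : y ≤ Real.exp (X / (100000 * l))) (hn : (n : ℝ) ≤ a * l) :
    y ^ n ≤ Real.exp (a / 100000 * X) := by
  refine (pow_le_pow_left₀ y0 hy n).trans ?_
  rw [← Real.exp_nat_mul]
  refine Real.exp_le_exp.2 ?_
  rw [← mul_div_assoc, div_le_iff₀ (by positivity)]
  have := mul_le_mul_of_nonneg_right hn X0
  linarith

theorem mean {C γ l m L q u G : ℝ} (hC : 0 < C) (hγ : 0 < γ) (m1 : 1 ≤ m) (ml : m ≤ l) (L0 : 0 ≤ L)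
    (hL : L ≤ 2 * Real.exp l) (q0 : 0 ≤ q) (hq : q ≤ Real.exp (-(27 * l))) (u0 : 0 ≤ u)
    (G0 : 0 ≤ G) (hu : u * m ≤ G * l) :
    4 * (25600 * (C * u) / (γ * l)) +
      8 * L ^ 2 * q * Real.exp (17 * (l + C)) * (256 * (C * u)) / (γ * l) ^ 2 +
      L * (q * Real.exp (2 * (l + C))) ≤
      (102400 * C * G / γ + 8192 * Real.exp (17 * C) * C * G / γ ^ 2 + 2 * Real.exp (2 * C)) / m := by
  have l1 : 1 ≤ l := m1.trans ml
  have l0 : 0 < l := by linarith
  have m0 : 0 < m := by linarith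
  have hu1 : u ≤ G * l / m := (le_div_iff₀ m0).2 hu
  have hu2 : u ≤ G * l ^ 2 := by
    have h1 : u ≤ u * m := le_mul_of_one_le_right u0 m1
    have h2 : G * l ≤ G * l ^ 2 := mul_le_mul_of_nonneg_left (by nlinarith) G0
    linarith
  have lm : 1 / l ≤ 1 / m := one_div_le_one_div_of_le m0 ml
  have a1 : 4 * (25600 * (C * u) / (γ * l)) ≤ 102400 * C * G / γ / m := by
    calc _ ≤ 4 * (25600 * (C * (G * l / m)) / (γ * l)) := by gcongr
      _ = _ := by
        field_simp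
        ring
  have s1 : Real.exp l ^ 2 * Real.exp (-(27 * l)) * Real.exp (17 * l) ≤ 1 / m := by
    rw [← Real.exp_nat_mul, ← Real.exp_add, ← Real.exp_add]
    exact (small l1 (by push_cast; linarith)).trans lm
  have s2 : Real.exp l * Real.exp (-(27 * l)) * Real.exp (2 * l) ≤ 1 / m := by
    rw [← Real.exp_add, ← Real.exp_add]
    exact (small l1 (by linarith)).trans lm
  have a2 : 8 * L ^ 2 * q * Real.exp (17 * (l + C)) * (256 * (C * u)) / (γ * l) ^ 2 ≤
      8192 * Real.exp (17 * C) * C * G / γ ^ 2 / m := by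
    calc _ ≤ 8 * (2 * Real.exp l) ^ 2 * Real.exp (-(27 * l)) * Real.exp (17 * (l + C)) *
          (256 * (C * (G * l ^ 2))) / (γ * l) ^ 2 := by gcongr
      _ = 8192 * Real.exp (17 * C) * C * G / γ ^ 2 *
          (Real.exp l ^ 2 * Real.exp (-(27 * l)) * Real.exp (17 * l)) := by
        rw [mul_add, Real.exp_add]
        field_simp
        ring
      _ ≤ 8192 * Real.exp (17 * C) * C * G / γ ^ 2 * (1 / m) := by gcongr
      _ = _ := by ring
  have a3 : L * (q * Real.exp (2 * (l + C))) ≤ 2 * Real.exp (2 * C) / m := by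
    calc _ ≤ 2 * Real.exp l * (Real.exp (-(27 * l)) * Real.exp (2 * (l + C))) := by gcongr
      _ = 2 * Real.exp (2 * C) * (Real.exp l * Real.exp (-(27 * l)) * Real.exp (2 * l)) := by
        rw [mul_add, Real.exp_add]
        ring
      _ ≤ 2 * Real.exp (2 * C) * (1 / m) := by gcongr
      _ = _ := by ring
  rw [add_div, add_div]
  linarith

theorem cost {γ C X l m L y y' z z' c : ℝ} {k k' : ℕ} (hγ : 0 < γ) (m1 : 1 ≤ m) (ml : m ≤ l)
    (hX : Real.exp l = X) (hl : 200000 * l ≤ X) (XL : X ≤ L) (hL : L ≤ 2 * X)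
    (hk : (k : ℝ) ≤ 41 * l) (hk' : (k' : ℝ) ≤ 21 * m) (y0 : 0 ≤ y)
    (hy : y ≤ Real.exp (X / (100000 * l))) (y0' : 0 ≤ y') (hy' : y' ≤ Real.exp (X / (100000 * m)))
    (z0 : 0 ≤ z) (hz : z ≤ Real.exp (20 * (X / 400))) (z0' : 0 ≤ z')
    (hz' : z' ≤ Real.exp (174 * (X / 400))) (c0 : 0 ≤ c) :
    2 * (L * ((2 * y ^ 2) ^ k * ((2 * y' ^ 2) ^ (2 * k' + 1) * (4 * Real.exp (8 * (l + C)) *
      (Real.exp (2 * (89.5 * (X / 400))) * (1 + z) + 7 * Real.exp (199 * (X / 400)))))) / (γ * l) + 1) ^ 2 +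
    2 * L * y ^ (2 * k + 2) +
    (2 * L ^ 4 * (Real.exp X / L ^ 5 + 1) + L * (Real.exp X / L ^ 5 + z')) + (c + L) ≤
      (2 * (72 * Real.exp (8 * C) / γ + 1) ^ 2 + 43 + c) / l * Real.exp X := by
  have l1 : 1 ≤ l := m1.trans ml
  have l0 : 0 < l := by linarith
  have m0 : 0 < m := by linarith
  have X1 : 1 ≤ X := by linarith
  have L1 : 1 ≤ L := by linarith
  have hL' : L ≤ 2 * Real.exp l := hX ▸ hL
  have e2 : (2 : ℝ) ^ k ≤ Real.exp (41 * l) := two_pow hk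
  have e3 : (2 : ℝ) ^ (2 * k' + 1) ≤ Real.exp (43 * l) := two_pow (by push_cast; linarith)
  obtain ⟨F, hF⟩ : ∃ F, F = Real.exp (4997 / 10000 * X) := ⟨_, rfl⟩
  have F1 : 1 ≤ F := hF ▸ Real.one_le_exp (by positivity)
  have le : ∀ a : ℝ, a ≤ 9994 / 10000 * X → Real.exp a ≤ F ^ 2 := fun a ha => by
    rw [hF, ← Real.exp_nat_mul]
    exact Real.exp_le_exp.2 (by push_cast; linarith)
  have b1 : L * ((2 * y ^ 2) ^ k * ((2 * y' ^ 2) ^ (2 * k' + 1) * (4 * Real.exp (8 * (l + C)) *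
      (Real.exp (2 * (89.5 * (X / 400))) * (1 + z) + 7 * Real.exp (199 * (X / 400)))))) / (γ * l) ≤
      72 * Real.exp (8 * C) / γ * F := by
    have y1 : y ^ (2 * k) ≤ Real.exp (82 / 100000 * X) :=
      ypow y0 l0 (by linarith) hy (by push_cast; linarith)
    have y2 : y' ^ (2 * (2 * k' + 1)) ≤ Real.exp (86 / 100000 * X) :=
      ypow y0' m0 (by linarith) hy' (by push_cast; linarith)
    have e4 : Real.exp (2 * (89.5 * (X / 400))) * (1 + z) + 7 * Real.exp (199 * (X / 400)) ≤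
        9 * Real.exp (199 * (X / 400)) := by
      have h1 : 1 ≤ Real.exp (20 * (X / 400)) := Real.one_le_exp (by positivity)
      have h2 : Real.exp (2 * (89.5 * (X / 400))) * Real.exp (20 * (X / 400)) =
          Real.exp (199 * (X / 400)) := by
        rw [← Real.exp_add]
        congr 1
        norm_num
        ring
      have h3 : Real.exp (2 * (89.5 * (X / 400))) * (1 + z) ≤
          Real.exp (2 * (89.5 * (X / 400))) * (2 * Real.exp (20 * (X / 400))) :=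
        mul_le_mul_of_nonneg_left (by linarith) (Real.exp_pos _).le
      linarith
    have e5 : 0 ≤ Real.exp (2 * (89.5 * (X / 400))) * (1 + z) + 7 * Real.exp (199 * (X / 400)) := by
      positivity
    generalize Real.exp (2 * (89.5 * (X / 400))) * (1 + z) + 7 * Real.exp (199 * (X / 400)) = D
      at e4 e5 ⊢
    rw [mul_pow, mul_pow, ← pow_mul, ← pow_mul]
    calc _ ≤ 2 * Real.exp l * (Real.exp (41 * l) * Real.exp (82 / 100000 * X) *
          (Real.exp (43 * l) * Real.exp (86 / 100000 * X) * (4 * Real.exp (8 * (l + C)) *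
            (9 * Real.exp (199 * (X / 400)))))) / (γ * 1) := by gcongr
      _ = 72 * Real.exp (8 * C) / γ * Real.exp (l + 41 * l + 82 / 100000 * X + 43 * l +
          86 / 100000 * X + 8 * l + 199 * (X / 400)) := by
        simp only [mul_add, Real.exp_add]
        ring
      _ ≤ _ := by
        rw [hF]
        gcongr
        linarith
  have b0 : 0 ≤ L * ((2 * y ^ 2) ^ k * ((2 * y' ^ 2) ^ (2 * k' + 1) * (4 * Real.exp (8 * (l + C)) *
      (Real.exp (2 * (89.5 * (X / 400))) * (1 + z) + 7 * Real.exp (199 * (X / 400)))))) / (γ * l) := by positivity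
  generalize L * ((2 * y ^ 2) ^ k * ((2 * y' ^ 2) ^ (2 * k' + 1) * (4 * Real.exp (8 * (l + C)) *
      (Real.exp (2 * (89.5 * (X / 400))) * (1 + z) + 7 * Real.exp (199 * (X / 400)))))) / (γ * l) = W at b0 b1 ⊢
  have K0 : 0 ≤ 72 * Real.exp (8 * C) / γ := by positivity
  generalize 72 * Real.exp (8 * C) / γ = K at K0 b1 ⊢
  have b2 : 2 * (W + 1) ^ 2 ≤ 2 * (K + 1) ^ 2 * F ^ 2 := by
    calc _ ≤ 2 * (K * F + F) ^ 2 := by gcongr
      _ = _ := by ring
  have b3 : 2 * L * y ^ (2 * k + 2) ≤ 4 * F ^ 2 := by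
    have y1 : y ^ (2 * k + 2) ≤ Real.exp (84 / 100000 * X) :=
      ypow y0 l0 (by linarith) hy (by push_cast; linarith)
    have := le (l + 84 / 100000 * X) (by linarith)
    rw [Real.exp_add] at this
    calc _ ≤ 2 * (2 * Real.exp l) * Real.exp (84 / 100000 * X) := by gcongr
      _ ≤ _ := by linarith
  have b4 : L ^ 4 ≤ 16 * F ^ 2 := by
    have := le ((4 : ℕ) * l) (by push_cast; linarith)
    rw [Real.exp_nat_mul] at this
    calc _ ≤ (2 * Real.exp l) ^ 4 := by gcongr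
      _ ≤ _ := by rw [mul_pow]; linarith
  have b5 : L * z' ≤ 2 * F ^ 2 := by
    have := le (l + 174 * (X / 400)) (by linarith)
    rw [Real.exp_add] at this
    calc _ ≤ 2 * Real.exp l * Real.exp (174 * (X / 400)) := by gcongr
      _ ≤ _ := by linarith
  have b6 : L ≤ 2 * F ^ 2 := by
    have := le l (by linarith)
    linarith
  have F2 : 1 ≤ F ^ 2 := one_le_pow₀ F1
  have b7 : c ≤ c * F ^ 2 := le_mul_of_one_le_right c0 F2
  have E0 := Real.exp_pos X
  have b8 : F ^ 2 ≤ Real.exp X / l := by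
    have := small (a := -(6 / 10000 * X)) l1 (by linarith)
    calc F ^ 2 = Real.exp X * Real.exp (-(6 / 10000 * X)) := by
          rw [hF, ← Real.exp_nat_mul, ← Real.exp_add]
          congr 1
          push_cast
          ring
      _ ≤ Real.exp X * (1 / l) := by gcongr
      _ = _ := by ring
  have b9 : L ^ 4 * (Real.exp X / L ^ 5) ≤ Real.exp X / l := by
    calc _ = Real.exp X / L := by field_simp
      _ ≤ _ := by gcongr; linarith
  have b10 : L * (Real.exp X / L ^ 5) ≤ L ^ 4 * (Real.exp X / L ^ 5) :=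
    mul_le_mul_of_nonneg_right (le_self_pow₀ L1 (by norm_num)) (by positivity)
  have b11 : (2 * (K + 1) ^ 2 + 40 + c) * F ^ 2 ≤
      (2 * (K + 1) ^ 2 + 40 + c) * (Real.exp X / l) := by gcongr
  have b12 : (2 * (K + 1) ^ 2 + 43 + c) / l * Real.exp X =
      (2 * (K + 1) ^ 2 + 40 + c) * (Real.exp X / l) + 3 * (Real.exp X / l) := by ring
  rw [b12]
  linarith

theorem fact : ∃ G : ℝ, 0 ≤ G ∧ ∀ m : ℝ, 0 ≤ m → m ^ 81 * m ≤ G * Real.exp m :=
  ⟨((82 : ℕ).factorial : ℝ), Nat.cast_nonneg _, fun m hm => by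
    have h := Real.pow_div_factorial_le_exp m hm 82
    rw [div_le_iff₀ (Nat.cast_pos.2 (Nat.factorial_pos 82))] at h
    rw [← pow_succ, mul_comm]
    exact h⟩

end PC2z

theorem pc2 : PC2 := by
  intro C γ δ hC hγ hδ C₀ hC₀
  obtain ⟨G, G0, hG⟩ := PC2z.fact
  have t := Real.tendsto_log_atTop.comp (Real.tendsto_log_atTop.comp
    (Real.tendsto_log_atTop.comp (tendsto_natCast_atTop_atTop (R := ℝ))))
  have t2 := Real.tendsto_log_atTop.comp (Real.tendsto_log_atTop.comp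
    (tendsto_natCast_atTop_atTop (R := ℝ)))
  filter_upwards [t.eventually_ge_atTop 400000, t.eventually_ge_atTop (C₀ : ℝ),
    t.eventually_ge_atTop ((102400 * C * G / γ + 8192 * Real.exp (17 * C) * C * G / γ ^ 2 +
      2 * Real.exp (2 * C)) / δ),
    t.eventually_ge_atTop ((2 * (72 * Real.exp (8 * C) / γ + 1) ^ 2 + 43 + C₀) / δ),
    eventually_ge_atTop 2, t.eventually_ge_atTop (2 * C + 223), t2.eventually_ge_atTop 1]
    with T h1 h2 h3 h4 h5 h6 h7 X l m L k k' y y' z z' hX hl hm XL hL hk hk' hy hy' hz hz'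
  simp only [Function.comp_apply] at h1 h2 h3 h4 h6 h7
  rw [← hX, ← hl] at h7
  rw [← hX, ← hl, ← hm] at h1 h2 h3 h4 h6
  have T2 : (2 : ℝ) ≤ T := by exact_mod_cast h5
  have X0 : 0 < X := hX ▸ Real.log_pos (by linarith)
  have l0 : 0 < l := by linarith
  have m0 : 0 < m := by linarith
  have m1 : 1 ≤ m := by linarith
  have eX : Real.exp X = T := by rw [hX, Real.exp_log (by linarith)]
  have el : Real.exp l = X := by rw [hl, Real.exp_log X0]
  have em' : Real.exp m = l := by rw [hm, Real.exp_log l0]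
  have ml : m ≤ l := by linarith [Real.add_one_le_exp m]
  have big : 200000 * l ≤ X := by
    have := Real.quadratic_le_exp_of_nonneg l0.le
    nlinarith
  refine ⟨h7, ?_, ?_, ?_, ?_⟩
  · have c0 : (0 : ℝ) < C₀ := Nat.cast_pos.2 hC₀
    have := Real.log_le_sub_one_of_pos c0
    rw [Real.log_mul c0.ne' (by linarith), ← hX]
    norm_num
    linarith
  · have a1 : (1 / 2 : ℝ) ^ (2 * k') ≤ Real.exp (-(27 * m)) := PC2z.half m0.le (by
      have : 20 * m ≤ k' := hk' ▸ Nat.le_ceil _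
      push_cast
      linarith)
    have a2 := Real.add_one_le_exp (9 * m - 18 * C - 2)
    have a3 : Real.exp (-(m + C) - 2) =
        Real.exp (9 * m - 18 * C - 2) * (Real.exp (-(27 * m)) * Real.exp (17 * (m + C))) := by
      rw [← Real.exp_add, ← Real.exp_add]
      congr 1
      ring
    have a4 : (1 / 2 : ℝ) ^ (2 * k') * Real.exp (17 * (m + C)) ≤
        Real.exp (-(27 * m)) * Real.exp (17 * (m + C)) :=
      mul_le_mul_of_nonneg_right a1 (Real.exp_pos _).le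
    have a5 : 2000 * (Real.exp (-(27 * m)) * Real.exp (17 * (m + C))) ≤
        Real.exp (9 * m - 18 * C - 2) * (Real.exp (-(27 * m)) * Real.exp (17 * (m + C))) :=
      mul_le_mul_of_nonneg_right (by linarith) (by positivity)
    rw [a3, mul_assoc]
    linarith
  · refine (PC2z.mean hC hγ m1 ml (Nat.cast_nonneg L) (el ▸ hL) (by positivity)
      (PC2z.half l0.le (hk ▸ Nat.le_ceil _)) (pow_pos m0 81).le G0 (em' ▸ hG m m0.le)).trans ?_
    rw [div_le_iff₀ hδ] at h3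
    rw [div_le_iff₀ m0]
    linarith
  · have k1 : (k : ℝ) ≤ 41 * l := by
      have := Nat.ceil_lt_add_one (show 0 ≤ 40 * l by positivity)
      rw [hk]
      linarith
    have k2 : (k' : ℝ) ≤ 21 * m := by
      have := Nat.ceil_lt_add_one (show 0 ≤ 20 * m by positivity)
      rw [hk']
      linarith
    rw [← eX]
    refine (PC2z.cost hγ m1 ml el big XL hL k1 k2 (Nat.cast_nonneg y)
      (hy ▸ Nat.floor_le (Real.exp_pos _).le) (Nat.cast_nonneg y')
      (hy' ▸ Nat.floor_le (Real.exp_pos _).le) (Nat.cast_nonneg z)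
      (hz ▸ Nat.floor_le (Real.exp_pos _).le) (Nat.cast_nonneg z')
      (hz' ▸ Nat.floor_le (Real.exp_pos _).le) (Nat.cast_nonneg C₀)).trans ?_
    refine mul_le_mul_of_nonneg_right ?_ (Real.exp_pos _).le
    rw [div_le_iff₀ hδ] at h4
    rw [div_le_iff₀ l0]
    nlinarith

end Pool.Agent.MP_fc7299_nt.AP

end

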