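import Pool.Agent.MP_fc7299_nt.AP.D
import Pool.Agent.MP_fc7299_nt.AP.F

section
namespace Pool.Agent.MP_fc7299_nt.AP

open Finset Filter

namespace MAIN4z

theorem mem_PR {a b q : ℕ} : q ∈ PR a b ↔ a < q ∧ q ≤ b ∧ q.Prime := by
  simp only [PR, mem_filter, mem_Ioc, and_assoc]

theorem lam_mono {Q Q' : Finset ℕ} (h : Q ⊆ Q') : lam Q ≤ lam Q' :=
  sum_le_sum_of_subset_of_nonneg h fun _ _ _ => by positivity

theorem omega_le (hOM : OM4) {M c t K Y y y' z : ℕ} {D : Finset ℕ} {Z : ℝ} (m0 : 0 < c + M * t)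
    (Z0 : 0 < Z) (Z1 : Z ≤ Real.log (z + 1)) (hm : Real.log (c + M * t : ℕ) ≤ 2.3 * Z)
    (hK : ∀ p : ℕ, p.Prime → p ≤ K → ¬ p ∣ c + M * t)
    (hR : B (PR K Y) M c t = ∅) (hA : #(B (PR Y y \ D) M c t) = 1) (hN : B (PR y y' \ D) M c t = ∅)
    (hU : ∑ q ∈ B (PR y' z \ D) M c t, t4 Z q < 1)
    (hD : ∀ q ∈ D, ¬ q ∣ c + M * t) (hs : ∀ q ∈ PR Y z, ¬ q ^ 2 ∣ c + M * t) :
    ArithmeticFunction.cardFactors (c + M * t) ≤ 4 := by
  have key : ∀ q : ℕ, q.Prime → q ∣ c + M * t → Y < q := fun q hq hd =>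
    not_le.1 fun h => filter_eq_empty_iff.1 hR (mem_PR.2 ⟨not_le.1 fun h => hK q hq h hd, h, hq⟩) hd
  refine hOM _ z _ Z m0 Z0 Z1 hm (fun q hq => ?_) (fun q hq => ?_) hU
    (hA ▸ card_le_card fun q hq => ?_) fun q hq hz hd => ?_
  · have h := mem_filter.1 hq
    exact Nat.mem_primeFactors.2 ⟨(mem_PR.1 (Finset.mem_sdiff.1 h.1).1).2.2, h.2, m0.ne'⟩
  · exact (mem_PR.1 (Finset.mem_sdiff.1 (mem_filter.1 hq).1).1).2.1
  · have h' := Finset.mem_sdiff.1 hq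
    have h := mem_filter.1 h'.1
    have hd := Nat.dvd_of_mem_primeFactors h.1
    have hp := Nat.prime_of_mem_primeFactors h.1
    have h0 : q ∉ D := fun h => hD q h hd
    have h1 : q ≤ y' := not_lt.1 fun a =>
      h'.2 (mem_filter.2 ⟨Finset.mem_sdiff.2 ⟨mem_PR.2 ⟨a, h.2, hp⟩, h0⟩, hd⟩)
    have h2 : q ≤ y := not_lt.1 fun a =>
      filter_eq_empty_iff.1 hN (Finset.mem_sdiff.2 ⟨mem_PR.2 ⟨a, h1, hp⟩, h0⟩) hd
    exact mem_filter.2 ⟨Finset.mem_sdiff.2 ⟨mem_PR.2 ⟨key q hp hd, h2, hp⟩, h0⟩, hd⟩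
  · exact hs q (mem_PR.2 ⟨key q hq ((dvd_pow_self q two_ne_zero).trans hd), hz, hq⟩) hd

theorem V_nonneg {Q : Finset ℕ} (h : ∀ q ∈ Q, 2 ≤ q) : 0 ≤ V Q :=
  prod_nonneg fun q hq => one_sub_nonneg (h q hq)

theorem V_le_one {Q : Finset ℕ} (h : ∀ q ∈ Q, 2 ≤ q) : V Q ≤ 1 :=
  prod_le_one (fun q hq => one_sub_nonneg (h q hq)) fun q _ => sub_le_self _ (by positivity)

theorem kap {R A N : Finset ℕ} {Y l C : ℝ} {M J : ℕ} (hd : Disjoint R A) (hd' : Disjoint (R ∪ A) N)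
    (h2 : ∀ q ∈ R ∪ A ∪ N, 2 ≤ q) (Y0 : 0 < Y) (hY : ∀ q ∈ A, Y ≤ q) (hl : lam (R ∪ A ∪ N) ≤ l + C)
    (l0 : 0 ≤ l) (hA : l / 2 ≤ lam A) (hj : 2 * ((1 : ℕ) : ℝ) ≤ Y * lam A) (M0 : 0 < M)
    (hJ : Real.exp l ≤ 2 * M * J) :
    Real.exp (-C - 2) / (8000 * M) * l ≤ J * V R * EP A (ex 1) * (V N / 1000) := by
  have e1 := es A 1 Y Y0 (fun q hq => ⟨h2 q (mem_union_left _ (mem_union_right _ hq)), hY q hq⟩) hj
  rw [pow_one, Nat.factorial_one, Nat.cast_one, div_one] at e1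
  have e2 := vl _ h2
  have e3 : V (R ∪ A ∪ N) = V R * V A * V N := by
    rw [V, prod_union hd', prod_union hd]
    rfl
  have vR := V_nonneg fun q hq => h2 q (mem_union_left _ (mem_union_left A hq))
  have vN := V_nonneg fun q hq => h2 q (mem_union_right (R ∪ A) hq)
  have e4 : Real.exp (-C - 2) ≤ Real.exp l * (V R * V A * V N) := by
    rw [← e3]
    refine le_trans ?_ (mul_le_mul_of_nonneg_left e2 (Real.exp_pos _).le)
    rw [← Real.exp_add]
    exact Real.exp_le_exp.2 (by linarith)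
  have vv : 0 ≤ V R * V A * V N := e3 ▸ (Real.exp_pos _).le.trans e2
  have M0' : (0 : ℝ) < M := by exact_mod_cast M0
  calc _ = Real.exp (-C - 2) / (2 * M) * (l / 4000) := by field_simp; ring
    _ ≤ J * (V R * V A * V N) * (lam A / 2000) := by
        refine mul_le_mul ?_ (by linarith) (by positivity) (by positivity)
        rw [div_le_iff₀ (by positivity)]
        refine e4.trans ((mul_le_mul_of_nonneg_right hJ vv).trans (le_of_eq (by ring)))
    _ = J * V R * (V A * (lam A / 2)) * (V N / 1000) := by ring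
    _ ≤ _ := mul_le_mul_of_nonneg_right (mul_le_mul_of_nonneg_left e1 (by positivity)) (by positivity)

theorem mono (n M x₀ : ℕ) (M0 : 0 < M) (x0 : 0 < x₀) :
    StrictMono fun s : ℕ => n + (2 ^ (x₀ + M * s) - (x₀ + M * s)) := by
  have h : ∀ x : ℕ, 0 < x → ∀ d : ℕ, 2 ^ x - x < 2 ^ (x + (d + 1)) - (x + (d + 1)) := fun x hx d => by
    have h1 : x < 2 ^ x := Nat.lt_two_pow_self
    have h2 : d + 1 < 2 ^ (d + 1) := Nat.lt_two_pow_self
    have h3 : 2 ^ 1 ≤ 2 ^ x := Nat.pow_le_pow_right two_pos hx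
    have h4 : 2 ^ x * (d + 2) ≤ 2 ^ (x + (d + 1)) := by
      rw [pow_add 2 x]
      exact Nat.mul_le_mul_left _ h2
    have h5 : 2 ^ x + 2 * (d + 1) ≤ 2 ^ x * (d + 2) := by nlinarith
    omega
  refine strictMono_nat_of_lt_succ fun s => ?_
  obtain ⟨d, rfl⟩ := Nat.exists_eq_succ_of_ne_zero M0.ne'
  have := h (x₀ + (d + 1) * s) (by omega) d
  simp only [Nat.succ_eq_add_one, mul_add, mul_one, ← add_assoc] at this ⊢
  omega

theorem num {T ε W ρ a a' μ J L k2 y2 b b' : ℝ} (T0 : 0 ≤ T) (μ0 : 0 < μ) (W0 : 0 ≤ W)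
    (ha : a ≤ a') (J0 : 0 ≤ J) (hJ : J ≤ L) (k0 : 0 ≤ k2) (y0 : 0 ≤ y2) (b0 : 0 ≤ b) (hb : b ≤ b')
    {r : ℝ} (h1 : 4 * ρ + 8 * L ^ 2 * k2 * Real.exp (17 * a') * W / μ ^ 2 +
      L * (k2 * Real.exp (2 * a')) ≤ ε / 4)
    (h2 : 2 * (L * b' / μ + 1) ^ 2 + 2 * L * y2 + r ≤ ε / 4 * T) :
    T * (2 * (ε / 8) + 4 * ρ + 8 * J ^ 2 * k2 * Real.exp (17 * a) * W / μ ^ 2 +
      J * (k2 * Real.exp (2 * a))) + 2 * (J * b / μ + 1) ^ 2 + 2 * J * y2 + r ≤ 3 / 4 * ε * T := by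
  have L0 : 0 ≤ L := J0.trans hJ
  have g2 : 8 * J ^ 2 * k2 * Real.exp (17 * a) * W / μ ^ 2 ≤
      8 * L ^ 2 * k2 * Real.exp (17 * a') * W / μ ^ 2 := by gcongr
  have g3 : J * (k2 * Real.exp (2 * a)) ≤ L * (k2 * Real.exp (2 * a')) := by gcongr
  have g4 : 2 * (J * b / μ + 1) ^ 2 ≤ 2 * (L * b' / μ + 1) ^ 2 := by gcongr
  have g5 : 2 * J * y2 ≤ 2 * L * y2 := by gcongr
  have g6 := mul_le_mul_of_nonneg_left (show 2 * (ε / 8) + 4 * ρ +
    8 * J ^ 2 * k2 * Real.exp (17 * a) * W / μ ^ 2 + J * (k2 * Real.exp (2 * a)) ≤ ε / 2 by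
      linarith) T0
  linarith

theorem rho {μ κ e v u W W₁ E2 : ℝ} (μ0 : 0 < μ) (W0 : 0 ≤ W) (h1 : μ ≤ κ * e) (h2 : v * u / 100 ≤ e)
    (v0 : 0 ≤ v) (u0 : 0 ≤ u) (h3 : E2 ≤ 16 * v * (16 * W₁)) (h5 : W₁ ≤ W * u) :
    E2 ≤ 25600 * W / μ * (κ * e ^ 2) := by
  have e0 : 0 ≤ e := le_trans (by positivity) h2
  have h4 : 1 ≤ κ * e / μ := (one_le_div μ0).2 h1
  calc E2 ≤ 16 * v * (16 * (W * u)) := h3.trans (by gcongr)
    _ = 25600 * W * (v * u / 100) * 1 := by ring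
    _ ≤ 25600 * W * e * (κ * e / μ) := by gcongr
    _ = _ := by ring

end MAIN4z

open MAIN4z in
theorem main4 (hPQ1 : PQ1) (hPQ2 : PQ2) (hOG : OG) (hSC6 : SC6) (hOM4 : OM4) (hNB : NB) (hPC1 : PC1)
    (hPC2 : PC2) : MAIN4 := by
  intro ε hε
  obtain ⟨C, hC, h1⟩ := hPC1
  filter_upwards [rom (ro1 tel) (ε / 8) (by positivity), eventually_ge_atTop 2] with K hK K2 n
  obtain ⟨x₀, x0, hx⟩ := cl1 K n
  have hp : ∀ q : ℕ, q.Prime → K < q → ¬ q ∣ K.factorial := fun q hq h h' =>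
    absurd (hq.dvd_factorial.1 h') (not_le.2 h)
  have M0 : 0 < K.factorial := K.factorial_pos
  generalize K.factorial = M at hx hp M0 ⊢
  have γ0 : 0 < Real.exp (-C - 2) / (8000 * M) := by positivity
  have hγ := fun R A N Y l J a b c d e f g h i => @kap R A N Y l C M J a b c d e f g h i M0
  generalize Real.exp (-C - 2) / (8000 * M) = γ at γ0 hγ
  have hL : Tendsto (Nat.log 2) atTop atTop := tendsto_atTop_atTop.2 fun b =>
    ⟨2 ^ b, fun a ha => Nat.le_log_of_pow_le one_lt_two ha⟩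
  have hξ : Tendsto (fun T : ℕ => Real.log T / 400) atTop atTop :=
    (Real.tendsto_log_atTop.comp tendsto_natCast_atTop_atTop).atTop_div_const (by norm_num)
  filter_upwards [h1, hPC2 C _ (ε / 4) hC γ0 (by positivity) (n + 2 ^ x₀ + M) (by positivity),
    hL.eventually (hK M M0), hL.eventually (eventually_ge_atTop (n + 2 ^ x₀ + M + K + 4)),
    eventually_gt_atTop 1, hξ.eventually hNB] with T p1 p2 rom Lb T1 nb
  obtain ⟨zq, Lq, n1, n2, n3, n4, n5⟩ := nb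
  obtain ⟨a1, a2, a3, a4, a4', a4'', a10, a11, a7, a8, a13, a9⟩ :=
    p1 _ _ _ _ _ _ _ _ rfl rfl rfl rfl rfl rfl rfl rfl
  obtain ⟨b1, b2, b5, b3, b4⟩ := p2 _ _ _ _ _ _ _ _ _ _ rfl rfl rfl a1 a2 rfl rfl rfl rfl rfl rfl
  have X0 : 0 < Real.log T := Real.log_pos (by exact_mod_cast T1)
  have hl : Real.exp (Real.log (Real.log T)) = Real.log T := Real.exp_log X0
  have hT : 2 ^ Nat.log 2 T ≤ T := Nat.pow_log_le_self 2 (by omega)
  clear p1 p2 h1
  generalize ⌊Real.exp (Real.log T / (100000 * Real.log (Real.log T)))⌋₊ = y at *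
  generalize ⌊Real.exp (Real.log T / (100000 * Real.log (Real.log (Real.log T))))⌋₊ = y' at *
  generalize ⌊Real.exp (20 * (Real.log T / 400))⌋₊ = z at *
  generalize ⌊Real.exp (174 * (Real.log T / 400))⌋₊ = z' at *
  generalize ⌈40 * Real.log (Real.log T)⌉₊ = k at *
  generalize ⌈20 * Real.log (Real.log (Real.log T))⌉₊ = k' at *
  generalize Real.log (Real.log (Real.log T)) = m at *
  generalize Real.log (Real.log T) = l at *
  have Λ0 : 0 < 89.5 * (Real.log T / 400) := by positivity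
  have Z0 : 0 < 174 * (Real.log T / 400) := by positivity
  generalize 89.5 * (Real.log T / 400) = Λ at *
  generalize 174 * (Real.log T / 400) = Z at *
  have b0 : 0 ≤ 7 * Real.exp (199 * (Real.log T / 400)) := by positivity
  generalize 7 * Real.exp (199 * (Real.log T / 400)) = b at *
  generalize Real.log T = X at *
  generalize Nat.log 2 T = L at *
  have μ0 : 0 < γ * l := mul_pos γ0 (by linarith)
  replace hγ := fun R A N Y => hγ R A N Y l
  generalize γ * l = μ at μ0 hγ b3 b4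
  generalize C * m ^ 81 = W at a9 b3
  obtain ⟨J, hJ⟩ : ∃ J, J = L / M := ⟨_, rfl⟩
  obtain ⟨c, hc⟩ : ∃ c : ℕ → ℕ, c = fun s => n + (2 ^ (x₀ + M * s) - (x₀ + M * s)) := ⟨_, rfl⟩
  have x2 : x₀ < 2 ^ x₀ := Nat.lt_two_pow_self
  have J0 : 0 < J := hJ ▸ Nat.div_pos (by omega) M0
  have J1 : M * J ≤ L := hJ ▸ Nat.mul_div_le L M
  have J2 : L ≤ 2 * M * J := by
    have h := Nat.lt_mul_div_succ L M0
    rw [← hJ] at h
    have h' : M * (J + 1) ≤ M * (2 * J) := Nat.mul_le_mul_left M (by omega)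
    rw [mul_comm 2 M, mul_assoc]
    exact h.le.trans h'
  have J3 : J ≤ L := hJ ▸ Nat.div_le_self _ _
  have L5 : L ≤ L ^ 5 := Nat.le_self_pow (by norm_num) L
  have inj : Set.InjOn c (Set.Iio J) := hc ▸ (mono n M x₀ M0 x0).injective.injOn
  have sL : ∀ s < J, M * s ≤ L := fun s hs => (Nat.mul_le_mul_left M hs.le).trans J1
  have cb : ∀ s < J, c s ≤ (n + 2 ^ x₀) * 2 ^ L := fun s hs => by
    have h1 : 2 ^ (x₀ + M * s) ≤ 2 ^ x₀ * 2 ^ L := by
      rw [← pow_add]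
      exact Nat.pow_le_pow_right two_pos (by have := sL s hs; omega)
    have h2 : n ≤ n * 2 ^ L := Nat.le_mul_of_pos_right n (by positivity)
    rw [hc, add_mul]
    dsimp only
    omega
  have c4 : ∀ s < J, c s ≤ 4 ^ L := fun s hs => by
    have h : L < 2 ^ L := Nat.lt_two_pow_self
    rw [show 4 = 2 * 2 from rfl, mul_pow]
    exact (cb s hs).trans (Nat.mul_le_mul_right _ (by omega))
  obtain ⟨d1, d2⟩ := exc M J L T (L ^ 5) z' z' c (by omega) J3 inj c4 fun q hq h => hp q hq (by omega)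
  have dsub : DD J c (L ^ 5) z' ⊆ PR (L ^ 5) z' := filter_subset _ _
  have dsep : ∀ q ∈ PR (L ^ 5) z', q ∉ DD J c (L ^ 5) z' → ∀ s < J, ∀ s' < J, s ≠ s' →
      ¬ c s ≡ c s' [MOD q] := fun q hq h s hs s' hs' hne hm =>
    h (mem_filter.2 ⟨hq, s, hs, s', hs', hne, hm⟩)
  generalize DD J c (L ^ 5) z' = D at *
  obtain ⟨R, hR⟩ : ∃ R, R = PR K (L ^ 5) := ⟨_, rfl⟩
  obtain ⟨A, hA⟩ : ∃ A, A = PR (L ^ 5) y \ D := ⟨_, rfl⟩
  obtain ⟨N, hN⟩ : ∃ N, N = PR y y' \ D := ⟨_, rfl⟩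
  obtain ⟨U, hU⟩ : ∃ U, U = PR y' z \ D := ⟨_, rfl⟩
  obtain ⟨U₁, hU₁⟩ : ∃ U₁, U₁ = PR y' z' \ D := ⟨_, rfl⟩
  have mR : ∀ q, q ∈ R ↔ K < q ∧ q ≤ L ^ 5 ∧ q.Prime := fun q => hR ▸ mem_PR
  have mA : ∀ q, q ∈ A ↔ (L ^ 5 < q ∧ q ≤ y ∧ q.Prime) ∧ q ∉ D := fun q => by
    rw [hA, Finset.mem_sdiff, mem_PR]
  have mN : ∀ q, q ∈ N ↔ (y < q ∧ q ≤ y' ∧ q.Prime) ∧ q ∉ D := fun q => by
    rw [hN, Finset.mem_sdiff, mem_PR]
  have mU : ∀ q, q ∈ U ↔ (y' < q ∧ q ≤ z ∧ q.Prime) ∧ q ∉ D := fun q => by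
    rw [hU, Finset.mem_sdiff, mem_PR]
  have mU₁ : ∀ q, q ∈ U₁ ↔ (y' < q ∧ q ≤ z' ∧ q.Prime) ∧ q ∉ D := fun q => by
    rw [hU₁, Finset.mem_sdiff, mem_PR]
  have mAU : ∀ q ∈ A ∪ (N ∪ U₁), q ∈ PR (L ^ 5) z' ∧ q ∉ D := fun q hq => by
    simp only [mem_union, mA, mN, mU₁] at hq
    rcases hq with h | h | h <;> exact ⟨mem_PR.2 ⟨by omega, by omega, h.1.2.2⟩, h.2⟩
  have all : ∀ q ∈ R ∪ A ∪ (N ∪ U₁), q.Prime ∧ K < q ∧ q ≤ z' := fun q hq => by
    simp only [mem_union, mR, mA, mN, mU₁] at hq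
    rcases hq with (h | h) | h | h
    exacts [⟨h.2.2, h.1, by omega⟩, ⟨h.1.2.2, by omega, by omega⟩, ⟨h.1.2.2, by omega, by omega⟩,
      ⟨h.1.2.2, by omega, by omega⟩]
  have s0 : R ∪ A ∪ (N ∪ U₁) ⊆ PR 0 z' := fun q hq =>
    mem_PR.2 ⟨(all q hq).1.pos, (all q hq).2.2, (all q hq).1⟩
  have sU : U ⊆ U₁ := fun q hq => by
    have h := (mU q).1 hq
    exact (mU₁ q).2 ⟨⟨h.1.1, by omega, h.1.2.2⟩, h.2⟩
  have dRA : Disjoint R A := disjoint_left.2 fun q h h' => by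
    have := (mR q).1 h
    have := (mA q).1 h'
    omega
  have dNU : Disjoint N U₁ := disjoint_left.2 fun q h h' => by
    have := (mN q).1 h
    have := (mU₁ q).1 h'
    omega
  have dN : Disjoint (R ∪ A) (N ∪ U) := disjoint_left.2 fun q h h' => by
    have : y < q := by
      rcases mem_union.1 h' with h' | h'
      · exact ((mN q).1 h').1.1
      · have := (mU q).1 h'
        omega
    rcases mem_union.1 h with h | h
    · have := (mR q).1 h
      omega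
    · have := (mA q).1 h
      omega
  have cfg : Cf (∏ q ∈ R ∪ A ∪ (N ∪ U₁), q) M J c R A (N ∪ U₁) (ε / 8) :=
    { ok := ⟨prod_pos fun q hq => (all q hq).1.pos,
        fun q hq => ⟨(all q hq).1, hp q (all q hq).1 (all q hq).2.1⟩, dvd_rfl⟩
      dRA := dRA
      dRU := disjoint_left.2 fun q h h' => by
        have := (mR q).1 h
        have := mem_PR.1 (mAU q (mem_union_right _ h')).1
        omega
      dAU := disjoint_left.2 fun q h h' => by
        have := (mA q).1 h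
        rcases mem_union.1 h' with h' | h'
        · have := (mN q).1 h'
          omega
        · have := (mU₁ q).1 h'
          omega
      J0 := J0
      big := fun q hq => by
        have := mem_PR.1 (mAU q hq).1
        omega
      sep := fun q hq => dsep q (mAU q hq).1 (mAU q hq).2
      e0 := by positivity
      rom := hR ▸ rom J c J2 J3 inj c4 fun p hp' hK' a => by
        rw [hc]
        exact cl2 M n x₀ J p a hp' (by omega) (hp p hp' hK') }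
  have L4 : (4 : ℝ) ≤ L := by exact_mod_cast (by omega : 4 ≤ L)
  have L0 : (0 : ℝ) < L := by linarith
  have L5p : (0 : ℝ) < (L : ℝ) ^ 5 := pow_pos L0 5
  have lA : l / 2 ≤ lam A := by
    have h1 : lam (PR (L ^ 5) y) ≤ lam (PR (L ^ 5) y \ D) + lam D := by
      refine (lam_mono (Q' := PR (L ^ 5) y \ D ∪ D) (by rw [sdiff_union_self_eq_union]; exact
        subset_union_left)).trans (le_of_eq (sum_union sdiff_disjoint))
    have h2 : lam D ≤ #D • (1 / (L : ℝ) ^ 5) := sum_le_card_nsmul _ _ _ fun q hq =>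
      one_div_le_one_div_of_le L5p (by exact_mod_cast (mem_PR.1 (dsub hq)).1.le)
    have h3 : (#D : ℝ) ≤ 2 * (L : ℝ) ^ 3 := by exact_mod_cast d1
    have h4 : 2 * (L : ℝ) ^ 3 ≤ (L : ℝ) ^ 5 := by
      rw [show (L : ℝ) ^ 5 = L ^ 2 * L ^ 3 by ring]
      exact mul_le_mul_of_nonneg_right (by nlinarith) (pow_pos L0 3).le
    rw [nsmul_eq_mul, mul_one_div] at h2
    have h5 := (div_le_one L5p).2 (h3.trans h4)
    rw [hA]
    linarith
  have two : ∀ q ∈ N ∪ U₁, 2 ≤ q := fun q hq => (all q (mem_union_right _ hq)).1.two_le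
  have twoN : ∀ q ∈ N, 2 ≤ q := fun q hq => two q (mem_union_left _ hq)
  have lN : lam N ≤ m + C := (lam_mono (hN ▸ sdiff_subset)).trans a13
  have sd : Sd U U₁ z z' Λ Z zq Lq :=
    { sub := sU
      lo := fun q hq => mem_PR.2 ⟨((mU q).1 hq).1.2.2.pos, ((mU q).1 hq).1.2⟩
      hi := fun q hq => by
        have h := Finset.mem_sdiff.1 hq
        have h1 := (mU₁ q).1 h.1
        exact mem_PR.2 ⟨not_le.1 fun a => h.2 ((mU q).2 ⟨⟨h1.1.1, a, h1.1.2.2⟩, h1.2⟩), h1.1.2⟩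
      zz := a4''
      z0 := by omega
      Z0 := Z0
      Z1 := a10
      L0 := Λ0
      L1 := n4
      L2 := n5
      q1 := n1
      q2 := n2 }
  obtain ⟨r1, r2⟩ := hPQ1 _ _ _ _ _ _ _ _ sd
  obtain ⟨r3, r4, r5⟩ := hPQ2 _ _ _ _ _ _ _ _ sd
  have twoU : ∀ q ∈ U, 2 ≤ q := fun q hq => two q (mem_union_right _ (sU hq))
  have vU := vl U twoU
  have vU0 : 0 < V U := (Real.exp_pos _).trans_le vU
  obtain ⟨o1, o2, o3⟩ := hOG N U₁ k' (ns U Λ) (q3 U Λ Z zq Lq) _ _ two dNU (fun S hS => ⟨sq_nonneg _, (r5 S hS).1⟩) vU0.le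
    r1 r2 r3 r4 ((mul_le_mul_of_nonneg_left (Real.exp_le_exp.2 (by linarith))
      (mul_nonneg four_pos.le (pow_nonneg one_half_pos.le _))).trans (b5.trans
      (div_le_div_of_nonneg_right ((Real.exp_le_exp.2 (by linarith)).trans (vl N twoN)) (by norm_num))))
  have sRAN : R ∪ A ∪ (N ∪ U) ⊆ R ∪ A ∪ (N ∪ U₁) :=
    union_subset_union_right (union_subset_union_right sU)
  have κ1 := hγ R A (N ∪ U) ((L : ℝ) ^ 5) J dRA dN (fun q hq => (all q (sRAN hq)).1.two_le)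
    L5p (fun q hq => by exact_mod_cast ((mA q).1 hq).1.1.le)
    ((lam_mono (sRAN.trans s0)).trans a7) (by linarith) lA (by
      have : (4 : ℝ) ^ 5 ≤ (L : ℝ) ^ 5 := pow_le_pow_left₀ (by norm_num) L4 5
      push_cast
      nlinarith) (by rw [hl]; exact a1.trans (by exact_mod_cast J2))
  have vN : 0 < V N := (Real.exp_pos _).trans_le (vl N twoN)
  have vNU : V (N ∪ U) = V N * V U := prod_union (dNU.mono_right sU)
  have vv := mul_pos vN vU0
  rw [vNU] at κ1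
  have e0 := (div_pos vv (by norm_num)).trans_le o1
  have κ0 : 0 < J * V R * EP A (ex 1) :=
    (mul_pos_iff_of_pos_right (div_pos vv (by norm_num))).1 (μ0.trans_le κ1)
  have κ2 := κ1.trans (mul_le_mul_of_nonneg_left
    (le_trans (by linarith : V N * V U / 1000 ≤ V N * V U / 100) o1) κ0.le)
  have lU₁ : lam U₁ ≤ lam (PR y' z') := lam_mono (hU₁ ▸ sdiff_subset)
  have lUU : lam U ≤ lam U₁ := lam_mono sU
  have W0 : 0 ≤ W := (Real.exp_pos _).le.trans a9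
  have W1 : Real.exp (80 * lam U₁) ≤ W * V U := by
    refine le_trans ?_ (mul_le_mul a9 vU (Real.exp_pos _).le W0)
    rw [← Real.exp_add]
    exact Real.exp_le_exp.2 (by linarith)
  have o2'' : 16 * V N * (16 * Real.exp (80 * lam U₁)) ≤ 256 * W := by
    have h1 := W1.trans (mul_le_of_le_one_right W0 (V_le_one twoU))
    have h2 := mul_le_of_le_one_left (Real.exp_pos (80 * lam U₁)).le (V_le_one twoN)
    linarith
  have y1 : (1 : ℝ) ≤ y := by exact_mod_cast (by omega : 1 ≤ y)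
  have y1' : (1 : ℝ) ≤ y' := by exact_mod_cast (by omega : 1 ≤ y')
  have co := ca2 sc0 sc1 sc2 ca1 _ M J 1 k T c R A (N ∪ U₁) _ μ _ _ _ y _ cfg μ0 e0 κ2 (o2.trans o2'')
    (rho μ0 W0 κ2 o1 vN.le vU0.le o2 W1) y1 (fun q hq => by
      rcases mem_union.1 hq with h | h
      · exact_mod_cast ((mR q).1 h).2.1.trans a3
      · exact_mod_cast ((mA q).1 h).1.2.1)
    fun s _ => hSC6 _ M (c s) k' N U U₁ z z' Λ Z y' b zq Lq (cfg.ok.mono subset_union_right) sd y1'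
      (fun q hq => by exact_mod_cast ((mN q).1 hq).1.2.1) n3
  have lU : lam U ≤ l + C := (lam_mono ((sU.trans subset_union_right).trans
    (subset_union_right.trans s0))).trans a7
  have nm := num (T := T) (ε := ε) (a := lam (R ∪ A))
    (b := (2 * (y : ℝ) ^ 2) ^ k * ((2 * (y' : ℝ) ^ 2) ^ (2 * k' + 1) *
      (4 * Real.exp (8 * lam U) * (Real.exp (2 * Λ) * (1 + z) + b)))) T.cast_nonneg μ0 (mul_nonneg (by norm_num) W0)
    ((lam_mono (subset_union_left.trans s0)).trans a7) J.cast_nonneg (by exact_mod_cast J3)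
    (pow_nonneg one_half_pos.le _) (pow_nonneg y.cast_nonneg _) (by positivity) (by gcongr) b3
    ((le_of_eq (add_assoc _ _ _).symm).trans b4)
  have sub : {t : ℕ | t < T ∧ ¬ ∃ x y : ℕ, 0 < x ∧ 0 < y ∧ n + M * t = x + y ∧
      ArithmeticFunction.cardFactors (2 ^ x + y) ≤ 4} ⊆
      ((((range T).filter fun t => ∀ s < J, ¬ (B R M (c s) t = ∅ ∧ #(B A M (c s) t) = 1 ∧
        0 < og N U₁ k' (ns U Λ) (q3 U Λ Z zq Lq) (B (N ∪ U₁) M (c s) t))) ∪
      ((range T).filter fun t => ∃ s < J, (∃ q ∈ D, q ∣ c s + M * t) ∨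
        ∃ q ∈ PR (L ^ 5) z', q ^ 2 ∣ c s + M * t) ∪ range (n + 2 ^ x₀ + M + L) : Finset ℕ) : Set ℕ) := by
    rintro t ⟨ht, hn⟩
    by_contra h
    simp only [mem_coe, mem_union, mem_filter, mem_range, ht, true_and, not_or, not_forall,
      not_exists, not_and, not_lt] at h
    obtain ⟨⟨⟨s, hs, h1⟩, h2⟩, h3⟩ := h
    have h2' := h2 s hs
    have t1 : t ≤ M * t := Nat.le_mul_of_pos_left t M0
    have s1 := sL s hs
    have x3 : x₀ + M * s < 2 ^ (x₀ + M * s) := Nat.lt_two_pow_self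
    have e : 2 ^ (x₀ + M * s) + (n + M * t - (x₀ + M * s)) = c s + M * t := by
      rw [hc]
      dsimp only
      omega
    refine hn ⟨x₀ + M * s, n + M * t - (x₀ + M * s), by omega, by omega, by omega, ?_⟩
    have cT : c s + M * t ≤ (n + 2 ^ x₀ + M) * T := by
      rw [add_mul (n + 2 ^ x₀)]
      exact Nat.add_le_add ((cb s hs).trans (Nat.mul_le_mul_left _ hT)) (Nat.mul_le_mul_left _ ht.le)
    have p0 : 0 < c s + M * t := e ▸ Nat.add_pos_left (by positivity) _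
    obtain ⟨g1, g2⟩ := o3 _ (not_le.1 h1.2.2)
    rw [B_inter subset_union_left] at g1
    rw [B_inter subset_union_right] at g2
    rw [e]
    exact omega_le hOM4 p0 Z0 a11 ((Real.log_le_log (by exact_mod_cast p0) (by exact_mod_cast cT)).trans b2)
      (fun p hp' hK' => by rw [hc]; exact hx s t p hp' hK')
      (hR ▸ h1.1) (hA ▸ h1.2.1) (hN ▸ g1) (hU₁ ▸ (r5 _ (filter_subset _ _)).2 g2 |>.2) h2'.1 h2'.2
  have fin := Set.ncard_le_ncard sub (finite_toSet _)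
  rw [Set.ncard_coe_finset] at fin
  have fin' := fin.trans ((card_union_le _ _).trans (Nat.add_le_add_right (card_union_le _ _) _))
  rw [card_range] at fin'
  have fin'' := (Nat.cast_le (α := ℝ)).2 fin'
  push_cast at fin'' nm d2 co
  have : 0 ≤ ε * T := by positivity
  linarith

theorem fin4 (hMAIN : MAIN4) : FIN4 := by
  refine Metric.tendsto_nhds.2 fun ε hε => ?_
  obtain ⟨K, hK⟩ := (hMAIN (ε / 4) (by positivity)).exists
  have hM := K.factorial_pos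
  have hT : Tendsto (fun N : ℕ => N / K.factorial + 1) atTop atTop :=
    (tendsto_add_atTop_nat 1).comp (Nat.tendsto_div_const_atTop hM.ne')
  have h1 := hT.eventually ((eventually_all_finset (range K.factorial)).2 fun n _ => hK n)
  filter_upwards [h1, eventually_ge_atTop K.factorial] with N hN hMN
  have N0 : (0 : ℝ) < N := by exact_mod_cast hM.trans_le hMN
  have h2 := ROMx.cover (fun n => ¬ ∃ x y : ℕ, 0 < x ∧ 0 < y ∧ n = x + y ∧
    ArithmeticFunction.cardFactors (2 ^ x + y) ≤ 4) hM N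
  have h3 := (Nat.cast_le (α := ℝ)).2 h2
  rw [Nat.cast_sum] at h3
  have h4 := h3.trans (sum_le_sum hN)
  rw [sum_const, card_range, nsmul_eq_mul] at h4
  have h5 : (K.factorial : ℝ) * ((N / K.factorial + 1 : ℕ) : ℝ) ≤ 2 * N := by
    have := Nat.mul_div_le N K.factorial
    exact_mod_cast (by rw [mul_add]; omega : K.factorial * (N / K.factorial + 1) ≤ 2 * N)
  rw [Real.dist_eq, sub_zero, abs_of_nonneg (by positivity), div_lt_iff₀ N0]
  have h6 := mul_le_mul_of_nonneg_left h5 (by positivity : 0 ≤ ε / 4)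
  have h7 := mul_pos hε N0
  linarith

end Pool.Agent.MP_fc7299_nt.AP

end

namespace Pool.Agent.MP_fc7299_nt.AP

theorem all4 : FIN4 :=
  fin4 (main4 (pq1 up vr) (pq2 up) og_main (sc6 up) om4 (nb mr2 (bls (blg mr1 mr2 (mr3 mr1)))) pc1 pc2)

end Pool.Agent.MP_fc7299_nt.AP
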